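import Pool.Agent.Lib.MP_b07157_agYV.Defs
import Pool.Agent.Lib.MP_b07157_agYG.ChG

/-!
# The chart of the blow-up in the coordinates of the normal form
-/

noncomputable section

namespace MPb07157

open MvPolynomial

namespace YV

open PC SU SI YG YG.ChGaux

/-- As `YG.exists_chartG` (`agYG/ChG.lean`). -/
theorem exists_chartV {n : ℕ} {f : MvPolynomial (Fin (n + 1)) ℂ} {d : ℕ}
    (hlow : ∀ j < d, homogeneousComponent j f = 0) {q : Fin (n + 1) → ℂ} {j₀ : Fin (n + 1)}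
    {G : MvPolynomial (Fin (n + 1)) ℂ}
    (he : UEqV (hg f d q j₀ : MvPowerSeries (Fin (n + 1)) ℂ) G) :
    ∃ (ξ : Fin (n + 1) → MvPowerSeries (Fin (n + 1)) ℂ) (U D : MvPowerSeries (Fin (n + 1)) ℂ),
      IsChartV f d G ξ U D := by
  obtain ⟨E, u, w, h1, h2⟩ := he
  have hcc : ∀ {x : MvPowerSeries (Fin (n + 1)) ℂ}, IsUnit x →
      MvPowerSeries.constantCoeff x ≠ 0 := by
    intro x hx
    exact (hx.map (MvPowerSeries.constantCoeff (σ := Fin (n + 1)) (R := ℂ))).ne_zero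
  -- the image of the first variable
  obtain ⟨w', hw', hw1⟩ : ∃ w' : MvPowerSeries (Fin (n + 1)) ℂ, IsUnit w' ∧
      E.symm (MvPowerSeries.X 0) = MvPowerSeries.X 0 * w' := by
    refine ⟨E.symm (↑(w⁻¹) : MvPowerSeries (Fin (n + 1)) ℂ), (w⁻¹).isUnit.map E.symm, ?_⟩
    have h3 : (MvPowerSeries.X 0 : MvPowerSeries (Fin (n + 1)) ℂ) =
        E.symm (MvPowerSeries.X 0) * E.symm (w : MvPowerSeries (Fin (n + 1)) ℂ) := by
      rw [← map_mul, ← h2, AlgEquiv.symm_apply_apply]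
    have h4 : E.symm (w : MvPowerSeries (Fin (n + 1)) ℂ) *
        E.symm (↑(w⁻¹) : MvPowerSeries (Fin (n + 1)) ℂ) = 1 := by
      rw [← map_mul, Units.mul_inv, map_one]
    calc E.symm (MvPowerSeries.X 0) = E.symm (MvPowerSeries.X 0) *
          (E.symm (w : MvPowerSeries (Fin (n + 1)) ℂ) *
            E.symm (↑(w⁻¹) : MvPowerSeries (Fin (n + 1)) ℂ)) := by rw [h4, mul_one]
      _ = _ := by rw [← mul_assoc, ← h3]
  have hchP : ∀ i, E.symm ((chP q j₀ i : MvPolynomial (Fin (n + 1)) ℂ) :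
      MvPowerSeries (Fin (n + 1)) ℂ) = MvPowerSeries.X 0 * (w' * E.symm (chS q j₀ i)) := by
    intro i
    rw [coe_chP, map_mul, hw1, mul_assoc]
  refine ⟨fun i => w' * E.symm (chS q j₀ i),
    w' ^ d * E.symm (u : MvPowerSeries (Fin (n + 1)) ℂ),
    (-1) ^ (j₀ : ℕ) * w' ^ n * (Matrix.of fun k j : Fin (n + 1) => MvPowerSeries.pderiv ℂ j
      (E.symm (MvPowerSeries.X k : MvPowerSeries (Fin (n + 1)) ℂ))).det, ?_, ?_, ?_, ?_⟩
  · exact hcc ((hw'.pow d).mul (u.isUnit.map E.symm))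
  · refine hcc (((IsUnit.pow _ ?_).mul (hw'.pow n)).mul (isUnit_det E.symm))
    exact isUnit_one.neg
  · rw [MvPowerSeries.subst_coe]
    have h5 := congrArg (fun p : MvPolynomial (Fin (n + 1)) ℂ =>
      (p : MvPowerSeries (Fin (n + 1)) ℂ)) (aeval_chP hlow q j₀)
    have h6 : ((aeval (chP q j₀) f : MvPolynomial (Fin (n + 1)) ℂ) :
        MvPowerSeries (Fin (n + 1)) ℂ) =
        aeval (fun i => ((chP q j₀ i : MvPolynomial (Fin (n + 1)) ℂ) :
          MvPowerSeries (Fin (n + 1)) ℂ)) f := by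
      have h7 : (MvPolynomial.coeToMvPowerSeries.ringHom (R := ℂ) (σ := Fin (n + 1))).comp
          ((aeval (chP q j₀) : MvPolynomial (Fin (n + 1)) ℂ →ₐ[ℂ] MvPolynomial (Fin (n + 1)) ℂ) :
            MvPolynomial (Fin (n + 1)) ℂ →+* _) =
          ((aeval (fun i => ((chP q j₀ i : MvPolynomial (Fin (n + 1)) ℂ) :
            MvPowerSeries (Fin (n + 1)) ℂ)) :
            MvPolynomial (Fin (n + 1)) ℂ →ₐ[ℂ] MvPowerSeries (Fin (n + 1)) ℂ) :
              MvPolynomial (Fin (n + 1)) ℂ →+* _) := by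
        refine MvPolynomial.ringHom_ext (fun c => ?_) (fun i => ?_)
        · rw [RingHom.comp_apply, RingHom.coe_coe, RingHom.coe_coe, aeval_C, aeval_C]
          rw [MvPolynomial.algebraMap_eq, MvPolynomial.coeToMvPowerSeries.ringHom_apply,
            MvPolynomial.coe_C]
          rfl
        · rw [RingHom.comp_apply, RingHom.coe_coe, RingHom.coe_coe, aeval_X, aeval_X,
            MvPolynomial.coeToMvPowerSeries.ringHom_apply]
      exact congrArg (fun φ : MvPolynomial (Fin (n + 1)) ℂ →+*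
        MvPowerSeries (Fin (n + 1)) ℂ => φ f) h7
    have h9 := congrArg E.symm (h6.symm.trans h5)
    have h10 := MvPolynomial.comp_aeval_apply
      (fun i => ((chP q j₀ i : MvPolynomial (Fin (n + 1)) ℂ) : MvPowerSeries (Fin (n + 1)) ℂ))
      (E.symm : MvPowerSeries (Fin (n + 1)) ℂ →ₐ[ℂ] MvPowerSeries (Fin (n + 1)) ℂ) f
    have h11 : aeval (fun i => MvPowerSeries.X 0 * (w' * E.symm (chS q j₀ i))) f =
        E.symm (aeval (fun i => ((chP q j₀ i : MvPolynomial (Fin (n + 1)) ℂ) :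
          MvPowerSeries (Fin (n + 1)) ℂ)) f) := by
      refine Eq.trans ?_ h10.symm
      refine congrArg (fun a : Fin (n + 1) → MvPowerSeries (Fin (n + 1)) ℂ => aeval a f) ?_
      funext i
      exact (hchP i).symm
    rw [h11, h9]
    show E.symm ((X 0 ^ d * hg f d q j₀ : MvPolynomial (Fin (n + 1)) ℂ) :
      MvPowerSeries (Fin (n + 1)) ℂ) = _
    rw [MvPolynomial.coe_mul, MvPolynomial.coe_pow, MvPolynomial.coe_X, h1, map_mul, map_pow, hw1,
      map_mul, AlgEquiv.symm_apply_apply]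
    ring
  · have h5 := det_equiv E.symm (fun i => MvPowerSeries.X 0 * chS q j₀ i)
    have h6 : (Matrix.of fun i j : Fin (n + 1) => MvPowerSeries.pderiv ℂ j
        (MvPowerSeries.X 0 * (w' * E.symm (chS q j₀ i)) : MvPowerSeries (Fin (n + 1)) ℂ)) =
        Matrix.of fun i j : Fin (n + 1) => MvPowerSeries.pderiv ℂ j
          (E.symm (MvPowerSeries.X 0 * chS q j₀ i)) := by
      ext1 i j
      simp only [Matrix.of_apply]
      rw [map_mul E.symm, hw1, mul_assoc]
    rw [h6, h5, det_chS, map_mul, map_pow, map_neg, map_one, map_pow, hw1]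
    ring

end YV

end MPb07157
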