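import Pool.Agent.Lib.MP_b07157_agYV.Defs

/-!
# Periodic sums of power series
-/

noncomputable section

namespace MPb07157

namespace YV

/-- As in `Sq.Zmot0_mul_P` (`agI/SqP3.lean`). -/
theorem per_sum {B : PowerSeries Mot} {b : ℕ → PowerSeries Mot} {W D : ℕ} {c : Mot}
    (hper : ∀ p, b (p + W) = PowerSeries.C c * PowerSeries.X ^ D * b p)
    (hsum : ∀ m, ∃ P₀, ∀ P, P₀ ≤ P → PowerSeries.coeff m B =
      ∑ p ∈ Finset.range P, PowerSeries.coeff m (b p)) :
    B * (1 - PowerSeries.C c * PowerSeries.X ^ D) = ∑ p ∈ Finset.range W, b p := by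
  ext m
  obtain ⟨P₁, hP₁⟩ := hsum m
  obtain ⟨P₂, hP₂⟩ := hsum (m - D)
  have e0 : ∀ q : PowerSeries Mot, PowerSeries.coeff m (PowerSeries.C c * PowerSeries.X ^ D * q) =
      c * if D ≤ m then PowerSeries.coeff (m - D) q else 0 := by
    intro q
    rw [mul_assoc, PowerSeries.coeff_C_mul, mul_comm (PowerSeries.X ^ D) q,
      PowerSeries.coeff_mul_X_pow']
  have e1 : B * (1 - PowerSeries.C c * PowerSeries.X ^ D) =
      B - PowerSeries.C c * PowerSeries.X ^ D * B := by ring
  rw [e1, map_sub, e0, map_sum, hP₁ (W + (P₁ + P₂)) (by omega), Finset.sum_range_add]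
  have e2 : ∑ p ∈ Finset.range (P₁ + P₂), PowerSeries.coeff m (b (W + p)) =
      c * if D ≤ m then PowerSeries.coeff (m - D) B else 0 := by
    split_ifs with hm
    · rw [hP₂ (P₁ + P₂) (by omega), Finset.mul_sum]
      refine Finset.sum_congr rfl fun p _ => ?_
      rw [add_comm W p, hper, e0, if_pos hm]
    · rw [mul_zero]
      refine Finset.sum_eq_zero fun p _ => ?_
      rw [add_comm W p, hper, e0, if_neg hm, mul_zero]
  rw [e2]
  ring

/-- `1 / (1 - L^(-E) T^D)` is regular at `s₀` if `E + D s₀ ≠ 0`. As in `Sq.Sqh.Zmot0_mem`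
(`agI/SqP3.lean`). -/
theorem exists_geo {E D : ℕ} (hD : 0 < D) {s₀ : ℚ} (h : (E : ℚ) + D * s₀ ≠ 0) :
    ∃ g ∈ regularAt s₀, (1 - PowerSeries.C (li ^ E) * PowerSeries.X ^ D) * g = 1 ∧
      ∀ m, PowerSeries.coeff m g = if D ∣ m then li ^ (E * (m / D)) else 0 := by
  obtain ⟨g, hg⟩ : ∃ g : PowerSeries Mot,
      ∀ m, PowerSeries.coeff m g = if D ∣ m then li ^ (E * (m / D)) else 0 :=
    ⟨PowerSeries.mk fun m => if D ∣ m then li ^ (E * (m / D)) else 0,
      fun m => PowerSeries.coeff_mk _ _⟩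
  have h1 : (1 - PowerSeries.C (li ^ E) * PowerSeries.X ^ D) * g = 1 := by
    have e1 : (1 - PowerSeries.C (li ^ E) * PowerSeries.X ^ D) * g =
        g - PowerSeries.C (li ^ E) * (g * PowerSeries.X ^ D) := by ring
    rw [e1]
    ext m
    rw [map_sub, PowerSeries.coeff_C_mul, PowerSeries.coeff_mul_X_pow', hg,
      PowerSeries.coeff_one]
    by_cases hm : m = 0
    · subst hm
      rw [if_pos (dvd_zero D), if_neg (by omega), if_pos rfl, Nat.zero_div, mul_zero, pow_zero,
        mul_zero, sub_zero]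
    · rw [if_neg hm]
      by_cases hd : D ∣ m
      · obtain ⟨k, rfl⟩ := hd
        have hk : k ≠ 0 := by
          rintro rfl
          exact hm (mul_zero D)
        obtain ⟨k', rfl⟩ := Nat.exists_eq_succ_of_ne_zero hk
        have e2 : D * (k' + 1) - D = D * k' := by
          rw [mul_add, mul_one, Nat.add_sub_cancel]
        rw [if_pos (dvd_mul_right D _), Nat.succ_eq_add_one,
          if_pos (Nat.le_mul_of_pos_right D (Nat.succ_pos k')), hg, e2,
          if_pos (dvd_mul_right D k'), Nat.mul_div_cancel_left _ hD, Nat.mul_div_cancel_left _ hD,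
          mul_add, mul_one, pow_add]
        ring
      · rw [if_neg hd]
        split_ifs with hDm
        · have h3 : ¬ D ∣ m - D := by
            intro h4
            apply hd
            have h5 := Nat.dvd_add h4 (dvd_refl D)
            rwa [Nat.sub_add_cancel hDm] at h5
          rw [hg, if_neg h3, mul_zero, sub_zero]
        · rw [mul_zero, sub_zero]
  refine ⟨g, Algebra.subset_adjoin (Or.inr ⟨(E : ℤ), D, hD, ?_, ?_⟩), h1, hg⟩
  · intro h2
    apply h
    have hDQ : (D : ℚ) ≠ 0 := by exact_mod_cast hD.ne'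
    rw [div_eq_iff hDQ] at h2
    push_cast at h2
    linarith
  · have h6 : (↑(LU ^ (-(E : ℤ))) : Mot) = li ^ E := by
      rw [zpow_neg, zpow_natCast, ← inv_pow, Units.val_pow_eq_pow_val]
      rfl
    rw [h6, mul_comm]
    exact h1

theorem mem_of_per {B : PowerSeries Mot} {b : ℕ → PowerSeries Mot} {W D E : ℕ}
    (hper : ∀ p, b (p + W) = PowerSeries.C (li ^ E) * PowerSeries.X ^ D * b p)
    (hsum : ∀ m, ∃ P₀, ∀ P, P₀ ≤ P → PowerSeries.coeff m B =
      ∑ p ∈ Finset.range P, PowerSeries.coeff m (b p)) (hD : 0 < D) {s₀ : ℚ}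
    (h : (E : ℚ) + D * s₀ ≠ 0) (hb : ∀ p < W, b p ∈ regularAt s₀) : B ∈ regularAt s₀ := by
  obtain ⟨g, hg, h1, -⟩ := exists_geo hD h
  have h2 := per_sum hper hsum
  have h3 : B = (∑ p ∈ Finset.range W, b p) * g := by
    rw [← h2, mul_assoc, h1, mul_one]
  rw [h3]
  exact mul_mem (sum_mem fun p hp => hb p (Finset.mem_range.1 hp)) hg

end YV

end MPb07157
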