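import Pool.Agent.Lib.MP_b07157_agYV.SerA
import Pool.Agent.Lib.MP_b07157_agYV.Per

/-!
# The series of the arcs of the first kind
-/

noncomputable section

namespace MPb07157

open MvPolynomial

namespace YV

open SI YG

variable {n : ℕ}

/-- The series of the first kind of arcs. -/
def SA (G : MvPolynomial (Fin (n + 1)) ℂ) (w : Fin (n + 1) → ℕ) (N d : ℕ) : PowerSeries Mot :=
  PowerSeries.mk fun m => ∑ k ∈ Finset.Icc 1 m,
    if d * k ≤ m then li ^ (n * k) * aA G w N k (m - d * k) else 0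

/-- The part of `SA` with `ord = p + 1`. -/
private def saT (G : MvPolynomial (Fin (n + 1)) ℂ) (w : Fin (n + 1) → ℕ) (N d p : ℕ) :
    PowerSeries Mot :=
  PowerSeries.C (li ^ (n * (p + 1))) * PowerSeries.X ^ (d * (p + 1)) *
    PowerSeries.mk (aA G w N (p + 1))

private theorem coeff_saT (G : MvPolynomial (Fin (n + 1)) ℂ) (w : Fin (n + 1) → ℕ) (N d p m : ℕ) :
    PowerSeries.coeff m (saT G w N d p) =
      if d * (p + 1) ≤ m then li ^ (n * (p + 1)) * aA G w N (p + 1) (m - d * (p + 1)) else 0 := by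
  unfold saT
  rw [mul_assoc, PowerSeries.coeff_C_mul, mul_comm (PowerSeries.X ^ _),
    PowerSeries.coeff_mul_X_pow']
  split_ifs with h
  · rw [PowerSeries.coeff_mk]
  · rw [mul_zero]

private theorem mk_aA {G : MvPolynomial (Fin (n + 1)) ℂ} {w : Fin (n + 1) → ℕ} {N : ℕ}
    (H : Rs G w N) (p : ℕ) : PowerSeries.mk (aA G w N (p + 1 + w 0)) =
      PowerSeries.C (li ^ (w 0 + ∑ j : Fin n, w j.succ)) * PowerSeries.X ^ N *
        PowerSeries.mk (aA G w N (p + 1)) := by
  ext m
  rw [mul_assoc, PowerSeries.coeff_C_mul, mul_comm (PowerSeries.X ^ _),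
    PowerSeries.coeff_mul_X_pow', PowerSeries.coeff_mk]
  split_ifs with h
  · rw [PowerSeries.coeff_mk]
    have h1 := aA_add H (k := p + 1) (by omega) (m - N)
    rw [Nat.sub_add_cancel h] at h1
    exact h1
  · rw [mul_zero]
    exact aA_lt H _ (by omega)

/-- `mem_of_per` with `b k = L^(-n (k+1)) T^(d (k+1)) (series of aA (k+1))`, the period `w_0`,
`E = nu w`, `D = De w d N`. -/
theorem SA_mem {G : MvPolynomial (Fin (n + 1)) ℂ} {w : Fin (n + 1) → ℕ} {N d : ℕ} (hd : 0 < d)
    (H : Rs G w N) {s₀ : ℚ} (h1 : s₀ ≠ -1) (h3 : (nu w : ℚ) + (De w d N : ℕ) * s₀ ≠ 0) :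
    SA G w N d ∈ regularAt s₀ := by
  have hw0 := H.hw 0
  refine mem_of_per (b := saT G w N d) (W := w 0) (D := De w d N) (E := nu w) ?_ ?_ ?_ h3 ?_
  · intro p
    have e1 : saT G w N d (p + w 0) = PowerSeries.C (li ^ (n * (p + w 0 + 1))) *
        PowerSeries.X ^ (d * (p + w 0 + 1)) * PowerSeries.mk (aA G w N (p + w 0 + 1)) := rfl
    have e2 : p + w 0 + 1 = p + 1 + w 0 := by ring
    rw [e1, e2, mk_aA H]
    unfold saT De nu
    have e3 : n * (p + 1 + w 0) = n * (p + 1) + n * w 0 := by ring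
    have e4 : d * (p + 1 + w 0) = d * (p + 1) + d * w 0 := by ring
    have e5 : (n + 1) * w 0 + ∑ j : Fin n, w j.succ = n * w 0 + (w 0 + ∑ j : Fin n, w j.succ) := by
      ring
    rw [e3, e4, e5, pow_add li, pow_add li (n * w 0), pow_add PowerSeries.X,
      pow_add PowerSeries.X (d * w 0), map_mul, map_mul]
    ring
  · intro m
    refine ⟨m, fun P hP => ?_⟩
    have e1 : PowerSeries.coeff m (SA G w N d) = ∑ k ∈ Finset.Icc 1 m,
        if d * k ≤ m then li ^ (n * k) * aA G w N k (m - d * k) else 0 := PowerSeries.coeff_mk _ _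
    rw [e1]
    have e2 : ∑ p ∈ Finset.range P, PowerSeries.coeff m (saT G w N d p) =
        ∑ p ∈ Finset.range m, PowerSeries.coeff m (saT G w N d p) := by
      symm
      refine Finset.sum_subset (Finset.range_mono hP) fun p _ hp => ?_
      rw [Finset.mem_range, not_lt] at hp
      rw [coeff_saT, if_neg]
      intro h
      have h5 : 1 * (p + 1) ≤ d * (p + 1) := Nat.mul_le_mul_right _ hd
      omega
    rw [e2]
    refine Finset.sum_nbij' (fun k => k - 1) (fun p => p + 1) ?_ ?_ ?_ ?_ ?_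
    · intro k hk
      rw [Finset.mem_Icc] at hk
      rw [Finset.mem_range]
      omega
    · intro p hp
      rw [Finset.mem_range] at hp
      rw [Finset.mem_Icc]
      omega
    · intro k hk
      rw [Finset.mem_Icc] at hk
      exact Nat.sub_add_cancel hk.1
    · intro p _
      exact Nat.add_sub_cancel _ _
    · intro k hk
      rw [Finset.mem_Icc] at hk
      rw [coeff_saT, Nat.sub_add_cancel hk.1]
  · have h5 : 0 < d * w 0 := Nat.mul_pos hd hw0
    unfold De
    omega
  · intro p _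
    exact mul_mem (mul_mem (C_mem_regularAt s₀ _) (pow_mem (X_mem_regularAt s₀) _))
      (aA_mem h1 G w N (p + 1))

end YV

end MPb07157
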