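import Pool.Agent.Lib.MP_b07157_agYV.SerA
import Pool.Agent.Lib.MP_b07157_agYV.Per

/-!
# The series of the arcs of the second kind
-/

noncomputable section

namespace MPb07157

open MvPolynomial

namespace YV

open SI YG

variable {n : ℕ}

/-- The series of the second kind of arcs. -/
def SB (G : MvPolynomial (Fin (n + 1)) ℂ) (w : Fin (n + 1) → ℕ) (N d : ℕ) : PowerSeries Mot :=
  PowerSeries.mk fun m => ∑ k ∈ Finset.Icc 1 m, if d * k ≤ m then
    ∑ p ∈ Finset.range (Sq.Wt w * m), if w 0 * (p + 1) < Sq.Wt w * k then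
      li ^ ((n + 1) * k) * bB G w N (p + 1) (m - d * k) else 0 else 0

theorem kB_le {W a k p : ℕ} (hW : 0 < W) : a * (p + 1) / W + 1 ≤ k ↔ a * (p + 1) < W * k := by
  rw [Nat.succ_le_iff, Nat.div_lt_iff_lt_mul hW, mul_comm k W]

/-- The coefficients of `L^(-a κ) T^(d κ) g S`. -/
theorem coeff_geo_mul {a d κ : ℕ} (hd : 0 < d) (hκ : 0 < κ) {g : PowerSeries Mot}
    (hg : ∀ m, PowerSeries.coeff m g = if d ∣ m then li ^ (a * (m / d)) else 0) (β : ℕ → Mot)
    (m : ℕ) :
    PowerSeries.coeff m (PowerSeries.C (li ^ (a * κ)) * PowerSeries.X ^ (d * κ) * g *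
      PowerSeries.mk β) = ∑ k ∈ Finset.Icc 1 m, if d * k ≤ m then
        (if κ ≤ k then li ^ (a * k) * β (m - d * k) else 0) else 0 := by
  rw [PowerSeries.coeff_mul, Finset.Nat.sum_antidiagonal_eq_sum_range_succ_mk]
  have h1 : ∀ j, PowerSeries.coeff j (PowerSeries.C (li ^ (a * κ)) * PowerSeries.X ^ (d * κ) * g) =
      if d ∣ j ∧ d * κ ≤ j then li ^ (a * (j / d)) else 0 := by
    intro j
    rw [mul_assoc, PowerSeries.coeff_C_mul, PowerSeries.coeff_X_pow_mul']
    by_cases h2 : d * κ ≤ j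
    · rw [if_pos h2, hg]
      by_cases h3 : d ∣ j
      · have h4 : d ∣ j - d * κ := Nat.dvd_sub h3 (Dvd.intro _ rfl)
        rw [if_pos h4, if_pos ⟨h3, h2⟩, ← pow_add]
        obtain ⟨t, rfl⟩ := h3
        have h5 : κ ≤ t := Nat.le_of_mul_le_mul_left h2 hd
        rw [← Nat.mul_sub, Nat.mul_div_cancel_left _ hd, Nat.mul_div_cancel_left _ hd, ← mul_add]
        congr 2
        omega
      · have h4 : ¬ d ∣ j - d * κ := by
          intro h5
          apply h3
          have h6 := Nat.dvd_add h5 (Dvd.intro κ rfl : d ∣ d * κ)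
          rwa [Nat.sub_add_cancel h2] at h6
        rw [if_neg h4, if_neg (fun h => h3 h.1), mul_zero]
    · rw [if_neg h2, if_neg (fun h => h2 h.2), mul_zero]
  simp only [h1, PowerSeries.coeff_mk]
  have h0 : ∑ j ∈ Finset.range (m + 1), (if d ∣ j ∧ d * κ ≤ j then li ^ (a * (j / d)) else 0) *
      β (m - j) = ∑ j ∈ (Finset.range (m + 1)).filter (fun j => d ∣ j ∧ d * κ ≤ j),
        li ^ (a * (j / d)) * β (m - j) := by
    rw [Finset.sum_filter]
    refine Finset.sum_congr rfl fun j _ => ?_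
    split_ifs
    · rfl
    · rw [zero_mul]
  have h2 : (∑ k ∈ Finset.Icc 1 m, if d * k ≤ m then
        (if κ ≤ k then li ^ (a * k) * β (m - d * k) else 0) else 0) =
      ∑ k ∈ (Finset.Icc 1 m).filter (fun k => d * k ≤ m ∧ κ ≤ k),
        li ^ (a * k) * β (m - d * k) := by
    rw [Finset.sum_filter]
    refine Finset.sum_congr rfl fun k _ => ?_
    by_cases h3 : d * k ≤ m
    · by_cases h4 : κ ≤ k
      · rw [if_pos h3, if_pos h4, if_pos ⟨h3, h4⟩]
      · rw [if_pos h3, if_neg h4, if_neg (fun h => h4 h.2)]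
    · rw [if_neg h3, if_neg (fun h => h3 h.1)]
  rw [h0, h2]
  symm
  refine Finset.sum_nbij' (fun k => d * k) (fun j => j / d) ?_ ?_ ?_ ?_ ?_
  · intro k hk
    rw [Finset.mem_filter, Finset.mem_Icc] at hk
    rw [Finset.mem_filter, Finset.mem_range]
    exact ⟨by omega, Dvd.intro _ rfl, Nat.mul_le_mul_left _ hk.2.2⟩
  · intro j hj
    rw [Finset.mem_filter, Finset.mem_range] at hj
    obtain ⟨h3, ⟨t, rfl⟩, h5⟩ := hj
    rw [Nat.mul_div_cancel_left _ hd, Finset.mem_filter, Finset.mem_Icc]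
    have h6 : κ ≤ t := Nat.le_of_mul_le_mul_left h5 hd
    have h7 : t ≤ d * t := Nat.le_mul_of_pos_left _ hd
    refine ⟨⟨by omega, by omega⟩, by omega, h6⟩
  · intro k _
    exact Nat.mul_div_cancel_left _ hd
  · intro j hj
    rw [Finset.mem_filter] at hj
    exact Nat.mul_div_cancel' hj.2.1
  · intro k _
    rw [Nat.mul_div_cancel_left _ hd]

/-- `mem_of_per` with
`b p = ∑_(k ≥ k_p) L^(-(n+1) k) T^(d k) (series of bB (p+1))`, `k_p = ⌊w_0 (p+1) / W⌋ + 1`, that is
`b p = L^(-(n+1) k_p) T^(d k_p) g (series of bB (p+1))` with `g` the geometric series of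
`exists_geo` with the exponents `n + 1`, `d`; the period is `W`, `E = nu w`, `D = De w d N`. -/
theorem SB_mem {G : MvPolynomial (Fin (n + 1)) ℂ} {w : Fin (n + 1) → ℕ} {N d : ℕ} (hd : 0 < d)
    (H : Rs G w N) {s₀ : ℚ} (h1 : s₀ ≠ -1) (h2 : ((n + 1 : ℕ) : ℚ) + d * s₀ ≠ 0)
    (h3 : (nu w : ℚ) + (De w d N : ℕ) * s₀ ≠ 0) : SB G w N d ∈ regularAt s₀ := by
  obtain ⟨g, hg1, hg2, hg3⟩ := exists_geo hd h2
  have hW : 0 < Sq.Wt w := Sq.Wt_pos H.hw
  have hw0 := H.hw 0
  refine mem_of_per (W := Sq.Wt w) (D := De w d N) (E := nu w)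
    (b := fun p => PowerSeries.C (li ^ ((n + 1) * (w 0 * (p + 1) / Sq.Wt w + 1))) *
      PowerSeries.X ^ (d * (w 0 * (p + 1) / Sq.Wt w + 1)) * g *
      PowerSeries.mk (bB G w N (p + 1))) ?_ ?_ ?_ h3 ?_
  · intro p
    have h4 : w 0 * (p + Sq.Wt w + 1) / Sq.Wt w = w 0 * (p + 1) / Sq.Wt w + w 0 := by
      have h5 : w 0 * (p + Sq.Wt w + 1) = w 0 * (p + 1) + w 0 * Sq.Wt w := by ring
      rw [h5, Nat.add_mul_div_right _ _ hW]
    have h6 : PowerSeries.mk (bB G w N (p + Sq.Wt w + 1)) =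
        PowerSeries.C (li ^ (∑ j : Fin n, w j.succ)) * PowerSeries.X ^ N *
          PowerSeries.mk (bB G w N (p + 1)) := by
      ext i
      rw [mul_assoc, PowerSeries.coeff_C_mul, PowerSeries.coeff_X_pow_mul', PowerSeries.coeff_mk]
      have h7 : p + Sq.Wt w + 1 = p + 1 + Sq.Wt w := by ring
      rw [h7]
      by_cases h8 : N ≤ i
      · rw [if_pos h8, PowerSeries.coeff_mk]
        have h9 := bB_add H (p := p + 1) (by omega) (i - N)
        rw [Nat.sub_add_cancel h8] at h9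
        exact h9
      · rw [if_neg h8, mul_zero]
        exact bB_lt H (p + 1) (by omega)
    rw [h4, h6]
    have h7 : (li : Mot) ^ (nu w) = li ^ ((n + 1) * w 0) * li ^ (∑ j : Fin n, w j.succ) := by
      rw [← pow_add]; rfl
    have h8 : (li : Mot) ^ ((n + 1) * (w 0 * (p + 1) / Sq.Wt w + w 0 + 1)) =
        li ^ ((n + 1) * (w 0 * (p + 1) / Sq.Wt w + 1)) * li ^ ((n + 1) * w 0) := by
      rw [← pow_add]; congr 1; ring
    have h9 : (PowerSeries.X : PowerSeries Mot) ^ (d * (w 0 * (p + 1) / Sq.Wt w + w 0 + 1)) =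
        PowerSeries.X ^ (d * (w 0 * (p + 1) / Sq.Wt w + 1)) * PowerSeries.X ^ (d * w 0) := by
      rw [← pow_add]; congr 1; ring
    have h10 : (PowerSeries.X : PowerSeries Mot) ^ (De w d N) =
        PowerSeries.X ^ (d * w 0) * PowerSeries.X ^ N := by
      rw [← pow_add]; rfl
    rw [h7, h8, h9, h10, map_mul, map_mul]
    ring
  · intro m
    refine ⟨Sq.Wt w * m, fun P hP => ?_⟩
    have h4 : ∀ p, PowerSeries.coeff m (PowerSeries.C (li ^ ((n + 1) *
        (w 0 * (p + 1) / Sq.Wt w + 1))) * PowerSeries.X ^ (d * (w 0 * (p + 1) / Sq.Wt w + 1)) * g *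
          PowerSeries.mk (bB G w N (p + 1))) = ∑ k ∈ Finset.Icc 1 m, if d * k ≤ m then
        (if w 0 * (p + 1) < Sq.Wt w * k then li ^ ((n + 1) * k) * bB G w N (p + 1) (m - d * k)
          else 0) else 0 := by
      intro p
      rw [coeff_geo_mul hd (Nat.succ_pos _) hg3]
      refine Finset.sum_congr rfl fun k _ => ?_
      rw [if_congr (kB_le hW) rfl rfl]
    simp only [h4]
    rw [Finset.sum_comm]
    unfold SB
    rw [PowerSeries.coeff_mk]
    refine Finset.sum_congr rfl fun k hk => ?_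
    rw [Finset.mem_Icc] at hk
    by_cases h5 : d * k ≤ m
    · simp only [if_pos h5]
      refine Finset.sum_subset (Finset.range_subset_range.2 hP) fun p _ hp => ?_
      rw [Finset.mem_range, not_lt] at hp
      rw [if_neg]
      have h6 : Sq.Wt w * k ≤ Sq.Wt w * m := Nat.mul_le_mul_left _ hk.2
      have h7 : 1 * (p + 1) ≤ w 0 * (p + 1) := Nat.mul_le_mul_right _ hw0
      omega
    · simp only [if_neg h5, Finset.sum_const_zero]
  · have : 0 < d * w 0 := Nat.mul_pos hd hw0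
    unfold De
    omega
  · intro p _
    refine mul_mem (mul_mem (mul_mem (C_mem_regularAt s₀ _)
      (pow_mem (X_mem_regularAt s₀) _)) hg1) (bB_mem h1 G w N (p + 1))

end YV

end MPb07157
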