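import Pool.Agent.Lib.MP_b07157_agYV.Defs
import Pool.Agent.Lib.MP_b07157_agYG.SerG

/-!
# The coefficients of the series of a line
-/

noncomputable section

namespace MPb07157

open MvPolynomial

namespace YV

open SI YG

variable {n : ℕ}

/-- The coefficients of the series of a line. As `YG.lineSer_eq_ZX` (`agYG/SerG.lean`):
`SerG_AKm_eq_Mk`, and `KzGaux.AKm_congr` for the change of coordinates. -/
theorem coeff_lineSer {f : MvPolynomial (Fin (n + 1)) ℂ} {d : ℕ} (hd : 0 < d)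
    {q : Fin (n + 1) → ℂ} {j₀ : Fin (n + 1)} (hq : q j₀ = 1) {G : MvPolynomial (Fin (n + 1)) ℂ}
    (hG : UEqV (hg f d q j₀ : MvPowerSeries (Fin (n + 1)) ℂ) G) (m : ℕ) :
    PowerSeries.coeff m (lineSer f d q) = ∑ k ∈ Finset.Icc 1 m,
      if d * k ≤ m then li ^ (n * k) * AKm G m k (m - d * k) else 0 := by
  obtain ⟨E, u, v, h1, h2⟩ := hG
  have hli : li = ell := rfl
  unfold lineSer serK
  rw [PowerSeries.coeff_mk, hli]
  refine Finset.sum_congr rfl fun k hk => ?_
  rw [Finset.mem_Icc] at hk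
  by_cases hkm : d * k ≤ m
  · have h3 : k ≤ d * k := Nat.le_mul_of_pos_left _ hd
    rw [if_pos hkm, if_pos hkm, ← KzGaux.AKm_congr (N := m) (k := k) (i := m - d * k)
      (fun v' _ => by rw [h1]) h2 hk.2 (Nat.sub_le _ _),
      SerG_AKm_eq_Mk f (d := d) (k := k) hk.1 hq (N := m) (i := m - d * k) (by omega),
      ← mul_assoc, ← pow_add, Nat.add_mul, Nat.one_mul]
  · rw [if_neg hkm, if_neg hkm]

end YV

end MPb07157
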