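import Pool.Agent.Lib.MP_b07157_agYV.Mea
import Pool.Agent.Lib.MP_b07157_agYV.PoleA
import Pool.Agent.Lib.MP_b07157_agYV.PoleB
import Pool.Agent.Lib.MP_b07157_agYV.PoleC

/-!
# The poles at a semi-quasi-homogeneous point of the tangent cone
-/

noncomputable section

namespace MPb07157

open MvPolynomial

namespace YV

open SI YG

variable {n : ℕ}

/-- **The poles at a semi-quasi-homogeneous point**: `-1`, `-n/d`, and the number of the point. -/
theorem lineSer_mem {f : MvPolynomial (Fin (n + 1)) ℂ} {d : ℕ} (hd : 0 < d)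
    {q : Fin (n + 1) → ℂ} {j₀ : Fin (n + 1)} (hq : q j₀ = 1) {G : MvPolynomial (Fin (n + 1)) ℂ}
    (hG : UEqV (hg f d q j₀ : MvPowerSeries (Fin (n + 1)) ℂ) G) {w : Fin (n + 1) → ℕ} {N : ℕ}
    (H : Rs G w N) {s₀ : ℚ} (h1 : s₀ ≠ -1) (h2 : ((n + 1 : ℕ) : ℚ) + d * s₀ ≠ 0)
    (h3 : (nu w : ℚ) + (De w d N : ℕ) * s₀ ≠ 0) : lineSer f d q ∈ regularAt s₀ := by
  have key : lineSer f d q = SA G w N d + SB G w N d := by
    ext m
    rw [coeff_lineSer hd hq hG, map_add, SA, SB, PowerSeries.coeff_mk, PowerSeries.coeff_mk,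
      ← Finset.sum_add_distrib]
    refine Finset.sum_congr rfl fun k hk => ?_
    rw [Finset.mem_Icc] at hk
    by_cases hkm : d * k ≤ m
    · rw [if_pos hkm, if_pos hkm, if_pos hkm, AKm_eq H (P := Sq.Wt w * m) (by omega) hk.2
        (Nat.sub_le _ _) (Nat.mul_le_mul_left _ hk.2), mul_add, Finset.mul_sum]
      congr 1
      refine Finset.sum_congr rfl fun p _ => ?_
      by_cases hp : w 0 * (p + 1) < Sq.Wt w * k
      · rw [if_pos hp, if_pos hp, aB_eq H (Nat.succ_pos p) hp, ← mul_assoc, ← pow_add]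
        congr 2
        ring
      · rw [if_neg hp, if_neg hp, mul_zero]
    · rw [if_neg hkm, if_neg hkm, if_neg hkm, add_zero]
  rw [key]
  exact add_mem (SA_mem hd H h1 h3) (SB_mem hd H h1 h2 h3)

end YV

end MPb07157
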