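import Pool.Agent.Lib.MP_b07157_agYV.AlgV

/-!
# The form `g^s dT` is not exact
-/

noncomputable section

namespace MPb07157

open MvPolynomial

namespace YV

variable {n : ℕ}

/-- Descent on the weight. -/
theorem no_level {g : MvPolynomial (Fin n) ℂ} {w : Fin n → ℕ} {N : ℕ} (hw : ∀ i, 0 < w i)
    (hwN : ∀ i, w i < N) (hle : ∀ v ∈ g.support, MPb07157.wt w v ≤ N)
    (hiso : ∀ c : Fin n → ℂ, c ≠ 0 →
      ∃ j, eval c (pderiv j (weightedHomogeneousComponent w N g)) ≠ 0)
    {s : ℂ} (hs1 : s + 1 ≠ 0)
    (hnr : ∀ (i : Fin n) (m : ℕ), (m : ℂ) - w i + ∑ j, (w j : ℂ) + (s + 1) * N ≠ 0)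
    (e : Fin n → MvPolynomial (Fin n) ℂ) :
    g * ∑ i, pderiv i (e i) + C (s + 1) * ∑ i, e i * pderiv i g ≠ 1 := by
  classical
  -- all bounds
  have key : ∀ (b : ℕ) (e : Fin n → MvPolynomial (Fin n) ℂ),
      (∀ i, ∀ v ∈ (e i).support, MPb07157.wt w v + (N - w i) ≤ b) →
      g * ∑ i, pderiv i (e i) + C (s + 1) * ∑ i, e i * pderiv i g ≠ 1 := by
    intro b
    induction b with
    | zero =>
      intro e he heq
      have h0 : ∀ i, e i = 0 := by
        intro i
        rw [← support_eq_empty, Finset.eq_empty_iff_forall_notMem]
        intro v hv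
        have h1 := he i v hv
        have h2 := hwN i
        omega
      simp [h0] at heq
    | succ b ih =>
      intro e he heq
      by_cases hz : ∀ i, topE w N (b + 1) e i = 0
      · refine ih e (fun i v hv => ?_) heq
        have h1 := he i v hv
        by_contra hcon
        have h2 : MPb07157.wt w v + (N - w i) = b + 1 := by omega
        have h3 : coeff v (topE w N (b + 1) e i) = coeff v (e i) := by
          unfold topE
          rw [coeff_sum]
          simp only [coeff_monomial]
          rw [Finset.sum_ite_eq', if_pos (Finset.mem_filter.2 ⟨hv, h2⟩)]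
        rw [hz i, coeff_zero] at h3
        exact mem_support_iff.1 hv h3.symm
      · push Not at hz
        obtain ⟨i₀, hi₀⟩ := hz
        have hmem : ∀ i v, v ∈ (topE w N (b + 1) e i).support →
            MPb07157.wt w v + (N - w i) = b + 1 := by
          intro i v hv
          have h1 : topE w N (b + 1) e i = ∑ v ∈ (e i).support.filter
            (fun v => MPb07157.wt w v + (N - w i) = b + 1), monomial v (coeff v (e i)) := rfl
          rw [h1, mem_support_iff, coeff_sum] at hv
          simp only [coeff_monomial] at hv
          rw [Finset.sum_ite_eq'] at hv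
          by_cases h2 : v ∈ (e i).support.filter
            (fun v => MPb07157.wt w v + (N - w i) = b + 1)
          · exact (Finset.mem_filter.1 h2).2
          · rw [if_neg h2] at hv
            exact absurd rfl hv
        have hb : ((b + 1 : ℕ) : ℂ) - N + ∑ j, (w j : ℂ) + (s + 1) * N ≠ 0 := by
          obtain ⟨v, hv⟩ := MvPolynomial.support_nonempty.2 hi₀
          have h1 := hmem i₀ v hv
          have h2 := hnr i₀ (MPb07157.wt w v)
          have h3 := hwN i₀
          have h4 : ((b + 1 : ℕ) : ℂ) - N = (MPb07157.wt w v : ℕ) - (w i₀ : ℂ) := by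
            have h5 : b + 1 + w i₀ = MPb07157.wt w v + N := by omega
            have h6 := congrArg (fun x : ℕ => (x : ℂ)) h5
            push_cast at h6 ⊢
            linear_combination h6
          rw [h4]
          exact h2
        obtain ⟨e', he', he2⟩ := exists_triv hw hwN hle hiso hs1 hb (fun i v hv => hmem i v hv)
          (top_eq hw hwN hle (Nat.succ_pos b) he heq)
        refine ih (fun i => e i - e' i) (fun i v hv => ?_) ?_
        · -- the support
          by_contra hcon
          have h0 : coeff v (e i - e' i) ≠ 0 := mem_support_iff.1 hv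
          have h1 : coeff v (e' i - topE w N (b + 1) e i) = 0 := by
            by_contra h2
            have h3 := he2 i v (mem_support_iff.2 h2)
            omega
          rw [coeff_sub, sub_eq_zero] at h1
          have h2 : coeff v (topE w N (b + 1) e i) = coeff v (e i) := by
            unfold topE
            rw [coeff_sum]
            simp only [coeff_monomial]
            rw [Finset.sum_ite_eq']
            by_cases h4 : v ∈ (e i).support
            · have h5 := he i v h4
              rw [if_pos (Finset.mem_filter.2 ⟨h4, by omega⟩)]
            · rw [if_neg fun h5 => h4 (Finset.mem_filter.1 h5).1]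
              exact (notMem_support_iff.1 h4).symm
          apply h0
          rw [coeff_sub, h1, h2, sub_self]
        · rw [← heq]
          have h1 : ∑ i, pderiv i (e i - e' i) = ∑ i, pderiv i (e i) - ∑ i, pderiv i (e' i) := by
            rw [← Finset.sum_sub_distrib]
            exact Finset.sum_congr rfl fun i _ => map_sub _ _ _
          have h2 : ∑ i, (e i - e' i) * pderiv i g =
              ∑ i, e i * pderiv i g - ∑ i, e' i * pderiv i g := by
            rw [← Finset.sum_sub_distrib]
            exact Finset.sum_congr rfl fun i _ => sub_mul _ _ _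
          rw [h1, h2]
          linear_combination -he'
  refine key (∑ i, ∑ v ∈ (e i).support, (MPb07157.wt w v + (N - w i))) e fun i v hv => ?_
  refine le_trans (Finset.single_le_sum (f := fun v => MPb07157.wt w v + (N - w i))
    (fun _ _ => Nat.zero_le _) hv) ?_
  exact Finset.single_le_sum (f := fun i => ∑ v ∈ (e i).support, (MPb07157.wt w v + (N - w i)))
    (fun _ _ => Nat.zero_le _) (Finset.mem_univ i)

end YV

end MPb07157
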