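import Pool.Agent.Lib.MP_b07157_agM.CDefs
import Pool.Agent.Lib.MP_b07157_agI.SqR3

/-!
# Reduction of the order of the pole
-/

noncomputable section

namespace MPb07157

open MvPolynomial

namespace YV

variable {n : ℕ}

/-- One step of the reduction: from `g * G = g * ∑ ∂_i a_i + t * ∑ a_i ∂_i g` to
`G = g * ∑ ∂_i a'_i + (t + 1) * ∑ a'_i ∂_i g`. -/
theorem nonEx_step {g : MvPolynomial (Fin n) ℂ} (hg : g ≠ 0)
    {h : Fin n → MvPolynomial (Fin n) ℂ} {h0 : MvPolynomial (Fin n) ℂ}
    (hsm : ∑ b, h b * pderiv b g + h0 * g = 1) {t : ℂ} (ht : t ≠ 0) (ht1 : t + 1 ≠ 0)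
    {a : Fin n → MvPolynomial (Fin n) ℂ} {G : MvPolynomial (Fin n) ℂ}
    (ha : g * ∑ i, pderiv i (a i) + C t * ∑ i, a i * pderiv i g = g * G) :
    ∃ a' : Fin n → MvPolynomial (Fin n) ℂ,
      g * ∑ i, pderiv i (a' i) + C (t + 1) * ∑ i, a' i * pderiv i g = G := by
  classical
  set D : MvPolynomial (Fin n) ℂ := ∑ i, pderiv i (a i) with hD
  set A : MvPolynomial (Fin n) ℂ := ∑ i, a i * pderiv i g with hA
  set v : MvPolynomial (Fin n) ℂ := C t⁻¹ * (G - D) with hv
  have hCt : (C t : MvPolynomial (Fin n) ℂ) * C t⁻¹ = 1 := by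
    rw [← C_mul, mul_inv_cancel₀ ht, C_1]
  have hCt1 : (C (t + 1) : MvPolynomial (Fin n) ℂ) * C (t + 1)⁻¹ = 1 := by
    rw [← C_mul, mul_inv_cancel₀ ht1, C_1]
  have hGv : G = D + C t * v := by
    rw [hv]
    linear_combination (-(G - D)) * hCt
  have hAv : A = g * v := by
    rw [hv]
    linear_combination (-A) * hCt + C t⁻¹ * ha
  set w : Fin n → MvPolynomial (Fin n) ℂ := fun i => h i * v + h0 * a i with hw
  set κ : Fin n → Fin n → MvPolynomial (Fin n) ℂ := fun i b => h b * a i - h i * a b with hκ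
  set S : Fin n → MvPolynomial (Fin n) ℂ := fun b => ∑ i, pderiv i (κ i b) with hS
  have hanti : ∀ i b, κ i b = -κ b i := by
    intro i b
    simp only [hκ]
    ring
  -- the decomposition of `a`
  have hae : ∀ i, a i = ∑ b, κ i b * pderiv b g + g * w i := by
    intro i
    have h1 : ∑ b, κ i b * pderiv b g = a i * (∑ b, h b * pderiv b g) - h i * A := by
      rw [hA, Finset.mul_sum, Finset.mul_sum, ← Finset.sum_sub_distrib]
      refine Finset.sum_congr rfl fun b _ => ?_
      simp only [hκ]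
      ring
    rw [h1]
    simp only [hw]
    linear_combination (-a i) * hsm + h i * hAv
  -- the sum of the products with the derivatives of `g`
  have hvw : v = ∑ i, w i * pderiv i g := by
    refine mul_left_cancel₀ hg ?_
    rw [← hAv, hA]
    have h1 : ∀ i, a i * pderiv i g = ∑ b, κ i b * (pderiv i g * pderiv b g) +
        g * (w i * pderiv i g) := by
      intro i
      have h2 : ∑ b, κ i b * (pderiv i g * pderiv b g) = (∑ b, κ i b * pderiv b g) * pderiv i g := by
        rw [Finset.sum_mul]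
        refine Finset.sum_congr rfl fun b _ => ?_
        ring
      rw [h2]
      linear_combination (pderiv i g) * hae i
    rw [Finset.sum_congr rfl fun i _ => h1 i, Finset.sum_add_distrib,
      Sq.antisymm_sum hanti (fun i b => mul_comm _ _), zero_add, ← Finset.mul_sum]
  -- the divergence of `a`
  have hDw : D = ∑ b, S b * pderiv b g + (g * ∑ i, pderiv i (w i) + ∑ i, w i * pderiv i g) := by
    have h1 : ∀ i, pderiv i (a i) = ∑ b, pderiv i (κ i b) * pderiv b g +
        (∑ b, κ i b * pderiv i (pderiv b g) + (g * pderiv i (w i) + w i * pderiv i g)) := by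
      intro i
      have h2 := congrArg (pderiv i) (hae i)
      rw [map_add, map_sum, Derivation.leibniz, smul_eq_mul, smul_eq_mul] at h2
      rw [h2, Finset.sum_congr rfl fun b _ => Derivation.leibniz (pderiv i) (κ i b) (pderiv b g),
        Finset.sum_add_distrib]
      simp only [smul_eq_mul]
      rw [Finset.sum_congr rfl fun b _ => mul_comm (pderiv b g) (pderiv i (κ i b))]
      ring
    have h3 : ∑ b, S b * pderiv b g = ∑ i, ∑ b, pderiv i (κ i b) * pderiv b g := by
      rw [Finset.sum_comm]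
      refine Finset.sum_congr rfl fun b _ => ?_
      simp only [hS]
      rw [Finset.sum_mul]
    rw [hD, Finset.sum_congr rfl fun i _ => h1 i, Finset.sum_add_distrib, Finset.sum_add_distrib,
      Finset.sum_add_distrib,
      Sq.antisymm_sum hanti (fun i b => Sq.pderiv_comm i b g), zero_add, h3, Finset.mul_sum]
  have hSd : ∑ b, pderiv b (S b) = 0 := by
    have h1 : ∀ b, pderiv b (S b) = ∑ i, pderiv b (pderiv i (κ i b)) := by
      intro b
      simp only [hS]
      rw [map_sum]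
    have h2 : ∑ b, pderiv b (S b) = -∑ b, pderiv b (S b) := by
      conv_lhs => rw [Finset.sum_congr rfl fun b _ => h1 b, Finset.sum_comm]
      rw [← Finset.sum_neg_distrib]
      refine Finset.sum_congr rfl fun i _ => ?_
      rw [h1 i, ← Finset.sum_neg_distrib]
      refine Finset.sum_congr rfl fun b _ => ?_
      rw [Sq.pderiv_comm b i, hanti i b, map_neg, map_neg]
    have h4 : (2 : MvPolynomial (Fin n) ℂ) * ∑ b, pderiv b (S b) = 0 := by
      linear_combination h2
    exact (mul_eq_zero.1 h4).resolve_left two_ne_zero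
  refine ⟨fun i => w i + C (t + 1)⁻¹ * S i, ?_⟩
  have h5 : ∑ i, pderiv i (w i + C (t + 1)⁻¹ * S i) = ∑ i, pderiv i (w i) := by
    have h6 : ∀ i, pderiv i (w i + C (t + 1)⁻¹ * S i) =
        pderiv i (w i) + C (t + 1)⁻¹ * pderiv i (S i) := by
      intro i
      rw [map_add, pderiv_C_mul]
    rw [Finset.sum_congr rfl fun i _ => h6 i, Finset.sum_add_distrib, ← Finset.mul_sum, hSd,
      mul_zero, add_zero]
  have h7 : ∑ i, (w i + C (t + 1)⁻¹ * S i) * pderiv i g =
      ∑ i, w i * pderiv i g + C (t + 1)⁻¹ * ∑ i, S i * pderiv i g := by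
    rw [Finset.mul_sum, ← Finset.sum_add_distrib]
    refine Finset.sum_congr rfl fun i _ => ?_
    ring
  rw [h5, h7, hGv, hDw, ← hvw]
  have h8 : (C (t + 1) : MvPolynomial (Fin n) ℂ) = C t + 1 := by
    rw [C_add, C_1]
  rw [h8] at hCt1 ⊢
  linear_combination (∑ i, S i * pderiv i g) * hCt1

/-- If `g = 0` is smooth then `g^s` is a sum of derivatives in `ℂ[x][1/g] g^s` only if it is a sum of
derivatives of elements of `ℂ[x] g^(s+1)`. Let `1 = ∑ h_b ∂_b g + h g`. If `∑ R_a ∂_a g = g v` then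
`R_a = ∑_b κ_ab ∂_b g + g (h_a v + h R_a)`, `κ_ab = h_b R_a - h_a R_b`, and
`∑_a ∂_a ∑_b κ_ab ∂_b g = ∑_b (∑_a ∂_a κ_ab) ∂_b g`, where `S_b = ∑_a ∂_a κ_ab` satisfies
`∑_b ∂_b S_b = 0`. So from `g^(k+1) = ∑_a (g ∂_a R_a + (s - k) R_a ∂_a g)` one gets, dividing by `g`,
`g^k = ∑_a (g ∂_a R'_a + (s - k + 1) R'_a ∂_a g)` with
`R' = S / (s - k + 1) + (h_a v + h R_a)`; `s ≠ k`, `s ≠ k - 1`. Induction on `k`; the last step is
`k = 0`, with `s + 1 ≠ 0`. -/
theorem nonEx_of_level {g : MvPolynomial (Fin n) ℂ}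
    (hsm : ∃ (h : Fin n → MvPolynomial (Fin n) ℂ) (h0 : MvPolynomial (Fin n) ℂ),
      ∑ b, h b * pderiv b g + h0 * g = 1) {s : ℂ}
    (hs : ∀ m : ℕ, s ≠ m) (hs1 : s + 1 ≠ 0)
    (h : ∀ e : Fin n → MvPolynomial (Fin n) ℂ,
      g * ∑ i, pderiv i (e i) + C (s + 1) * ∑ i, e i * pderiv i g ≠ 1) : NonEx g (-s) := by
  obtain ⟨hb, h0, hsm⟩ := hsm
  have hg : g ≠ 0 := by
    intro hg
    rw [hg] at hsm
    simp at hsm
  -- the form of the conditions which is used in the induction
  have key : ∀ (m : ℕ) (a : Fin n → MvPolynomial (Fin n) ℂ),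
      g * ∑ i, pderiv i (a i) + C (s - m) * ∑ i, a i * pderiv i g ≠ g * g ^ m := by
    intro m
    induction m with
    | zero =>
      intro a ha
      have h1 : s - (0 : ℕ) ≠ 0 := sub_ne_zero.2 (hs 0)
      have h2 : s - (0 : ℕ) + 1 ≠ 0 := by
        rw [Nat.cast_zero, sub_zero]
        exact hs1
      obtain ⟨a', ha'⟩ := nonEx_step hg hsm h1 h2 ha
      rw [Nat.cast_zero, sub_zero, pow_zero] at ha'
      exact h a' ha'
    | succ m ih =>
      intro a ha
      have h1 : s - (m + 1 : ℕ) ≠ 0 := sub_ne_zero.2 (hs _)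
      have h3 : s - (m + 1 : ℕ) + 1 = s - m := by
        push_cast
        ring
      have h2 : s - (m + 1 : ℕ) + 1 ≠ 0 := by
        rw [h3]
        exact sub_ne_zero.2 (hs m)
      obtain ⟨a', ha'⟩ := nonEx_step hg hsm h1 h2 ha
      rw [h3, pow_succ'] at ha'
      exact ih a' ha'
  intro m a ha
  apply key m a
  rw [← pow_succ', ← ha, Finset.mul_sum, Finset.mul_sum, ← Finset.sum_add_distrib]
  refine Finset.sum_congr rfl fun i _ => ?_
  have h1 : (C (s - m) : MvPolynomial (Fin n) ℂ) = -C (-s + m) := by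
    rw [← C_neg]
    congr 1
    ring
  rw [h1]
  ring

end YV

end MPb07157
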