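import Pool.Agent.Lib.MP_b07157_agYV.Defs
import Pool.Agent.Lib.MP_b07157_agYG.LamB
import Pool.Agent.Lib.MP_b07157_agI.SqR1

/-!
# The ring `ℂ[T, 1/g]`
-/

noncomputable section

namespace MPb07157

open MvPolynomial

namespace YV

variable {n : ℕ}

namespace LamVaux

/-- `∂_a` commutes with the embedding of the polynomials in `T`. -/
theorem pderiv_some_rename (a : Fin n) (P : MvPolynomial (Fin n) ℂ) :
    pderiv (some a) (rename (some : Fin n → Option (Fin n)) P) = rename some (pderiv a P) := by
  induction P using MvPolynomial.induction_on with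
  | C c => rw [rename_C, pderiv_C, pderiv_C, map_zero]
  | add p q hp hq => rw [map_add, map_add, map_add, map_add, hp, hq]
  | mul_X p j hp =>
    rw [map_mul, rename_X, Derivation.leibniz, Derivation.leibniz, hp, map_add]
    have h : pderiv (some a) (X (some j) : MvPolynomial (Option (Fin n)) ℂ) =
        rename some (pderiv a (X j : MvPolynomial (Fin n) ℂ)) := by
      by_cases h : j = a
      · rw [h, pderiv_X_self, pderiv_X_self, map_one]
      · rw [pderiv_X_of_ne h, pderiv_X_of_ne, map_zero]
        intro h1
        exact h (Option.some_injective _ h1)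
    rw [h]
    simp only [smul_eq_mul, map_mul, rename_X]

theorem pderiv_none_rename (P : MvPolynomial (Fin n) ℂ) :
    pderiv none (rename (some : Fin n → Option (Fin n)) P) = 0 := by
  induction P using MvPolynomial.induction_on with
  | C c => rw [rename_C, pderiv_C]
  | add p q hp hq => rw [map_add, map_add, hp, hq, add_zero]
  | mul_X p j hp =>
    rw [map_mul, rename_X, Derivation.leibniz, hp, pderiv_X_of_ne (by simp), smul_zero, smul_zero,
      add_zero]

theorem pderiv_swap (i j : Fin n) (F : MvPolynomial (Fin n) ℂ) :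
    pderiv i (pderiv j F) = pderiv j (pderiv i F) := by
  classical
  induction F using MvPolynomial.induction_on with
  | C a => simp
  | add p r hp hr => simp only [map_add, hp, hr]
  | mul_X p l hp =>
    have hX : ∀ a b : Fin n, pderiv a (pderiv b (X l : MvPolynomial (Fin n) ℂ)) = 0 := by
      intro a b
      by_cases h : l = b
      · subst h
        rw [pderiv_X_self, pderiv_one]
      · rw [pderiv_X_of_ne h, map_zero]
    simp only [Derivation.leibniz, map_add, smul_eq_mul, hp, hX]
    ring

variable (g : MvPolynomial (Fin n) ℂ)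

/-- The relation `y g = 1`. -/
def rel : MvPolynomial (Option (Fin n)) ℂ := X none * rename some g - 1

/-- The derivations. -/
def DA (a : Fin n) :
    Derivation ℂ (MvPolynomial (Option (Fin n)) ℂ) (MvPolynomial (Option (Fin n)) ℂ) :=
  pderiv (some a) +
    (-(X none ^ 2 * rename some (pderiv a g)) : MvPolynomial (Option (Fin n)) ℂ) • pderiv none

theorem DA_rename (a : Fin n) (P : MvPolynomial (Fin n) ℂ) :
    DA g a (rename some P) = rename some (pderiv a P) := by
  rw [DA, Derivation.add_apply, Derivation.smul_apply, pderiv_none_rename, smul_zero, add_zero,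
    pderiv_some_rename]

theorem DA_some (a b : Fin n) : DA g a (X (some b)) = if a = b then 1 else 0 := by
  have h := DA_rename g a (X b)
  rw [rename_X] at h
  rw [h]
  split_ifs with h1
  · rw [h1, pderiv_X_self, map_one]
  · rw [pderiv_X_of_ne (Ne.symm h1), map_zero]

theorem DA_none (a : Fin n) :
    DA g a (X none) = -(X none ^ 2 * rename some (pderiv a g)) := by
  rw [DA, Derivation.add_apply, Derivation.smul_apply, pderiv_X_of_ne (by simp), pderiv_X_self,
    zero_add, smul_eq_mul, mul_one]

theorem DA_rel (a : Fin n) :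
    DA g a (rel g) = -(X none * rename some (pderiv a g)) * rel g := by
  rw [rel, map_sub, Derivation.map_one_eq_zero, Derivation.leibniz, DA_rename, DA_none,
    smul_eq_mul, smul_eq_mul]
  ring

theorem DA_mem (a : Fin n) (p : MvPolynomial (Option (Fin n)) ℂ)
    (hp : p ∈ Ideal.span {rel g}) : DA g a p ∈ Ideal.span {rel g} := by
  obtain ⟨c, rfl⟩ := Ideal.mem_span_singleton.1 hp
  rw [Derivation.leibniz, DA_rel, smul_eq_mul, smul_eq_mul, Ideal.mem_span_singleton]
  exact ⟨DA g a c + c * -(X none * rename some (pderiv a g)), by ring⟩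

theorem DA_comm (a b : Fin n) (p : MvPolynomial (Option (Fin n)) ℂ) :
    DA g a (DA g b p) = DA g b (DA g a p) := by
  have h : ⁅DA g a, DA g b⁆ = 0 := by
    apply MvPolynomial.derivation_ext
    intro i
    rw [Derivation.commutator_apply]
    rcases i with _ | c
    · rw [DA_none, DA_none, map_neg, map_neg, Derivation.leibniz, Derivation.leibniz,
        Derivation.leibniz_pow, Derivation.leibniz_pow, DA_rename, DA_rename, DA_none, DA_none,
        pderiv_swap a b g]
      simp only [smul_eq_mul, Derivation.coe_zero, Pi.zero_apply, nsmul_eq_mul]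
      ring
    · rw [DA_some, DA_some]
      have h3 : ∀ (a : Fin n) (P : Prop) [Decidable P],
          DA g a (if P then (1 : MvPolynomial (Option (Fin n)) ℂ) else 0) = 0 := by
        intro a P _
        split_ifs
        · exact Derivation.map_one_eq_zero _
        · exact map_zero _
      rw [h3, h3]
      simp
  have h1 := congrArg (fun D => D p) h
  simp only [Derivation.commutator_apply, Derivation.coe_zero, Pi.zero_apply] at h1
  exact sub_eq_zero.1 h1

/-- The map to the rational functions. -/
def ph : MvPolynomial (Option (Fin n)) ℂ →ₐ[ℂ] Sq.KF n :=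
  aeval fun i => Option.elim i (Sq.io n g)⁻¹ fun j => Sq.io n (X j)

theorem ph_none : ph g (X none) = (Sq.io n g)⁻¹ := by
  rw [ph, aeval_X]
  rfl

theorem ph_rename (P : MvPolynomial (Fin n) ℂ) : ph g (rename some P) = Sq.io n P := by
  induction P using MvPolynomial.induction_on with
  | C c =>
    rw [rename_C, ← algebraMap_eq, AlgHom.commutes]
    rfl
  | add p q hp hq => rw [map_add, map_add, map_add, hp, hq]
  | mul_X p j hp =>
    rw [map_mul, map_mul, map_mul, hp, rename_X]
    congr 1
    rw [ph, aeval_X]
    rfl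

theorem monomial_eq (m : Option (Fin n) →₀ ℕ) (c : ℂ) :
    (monomial m c : MvPolynomial (Option (Fin n)) ℂ) =
      rename some (monomial m.some c) * X none ^ m none := by
  have h : m = Finsupp.mapDomain some m.some + Finsupp.single none (m none) := by
    refine Finsupp.ext fun i => ?_
    rcases i with _ | i
    · rw [Finsupp.add_apply, Finsupp.single_eq_same, Finsupp.mapDomain_of_notMem_range, zero_add]
      rintro ⟨x, hx⟩
      exact Option.some_ne_none _ hx
    · rw [Finsupp.add_apply, Finsupp.mapDomain_apply (Option.some_injective _),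
        Finsupp.some_apply, Finsupp.single_eq_of_ne (by simp), add_zero]
  rw [rename_monomial, X_pow_eq_monomial, monomial_mul, mul_one, ← h]

theorem ph_DA (hg : g ≠ 0) (s : ℂ) (a : Fin n) (P : MvPolynomial (Fin n) ℂ) (m : ℕ) :
    ph g (DA g a (rename some P * X none ^ m) + C s * (X none * rename some (pderiv a g)) *
      (rename some P * X none ^ m)) =
      Sq.io n (Sq.ev g (-s) m a P) / Sq.io n g ^ (m + 1) := by
  have hG : Sq.io n g ≠ 0 := Sq.io_ne_zero hg
  have hC : ph g (C s) = Sq.io n (C s) := by
    have h := ph_rename g (C s)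
    rwa [rename_C] at h
  have h1 : DA g a (rename some P * X none ^ m) =
      rename some (pderiv a P) * X none ^ m -
        rename some P * (m : MvPolynomial (Option (Fin n)) ℂ) * X none ^ (m + 1) *
          rename some (pderiv a g) := by
    rw [Derivation.leibniz, DA_rename, Derivation.leibniz_pow, DA_none]
    simp only [smul_eq_mul, nsmul_eq_mul]
    rcases m with _ | m
    · simp
    · rw [Nat.add_sub_cancel]
      ring
  rw [h1]
  simp only [map_add, map_sub, map_mul, map_pow, ph_rename, ph_none, hC, map_natCast]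
  unfold Sq.ev
  rw [map_sub, map_mul, map_mul, map_mul]
  have h2 : Sq.io n (C (-s + (m : ℂ))) = (m : Sq.KF n) - Sq.io n (C s) := by
    rw [C_add, C_neg, map_add, map_neg]
    have h3 : (C (m : ℂ) : MvPolynomial (Fin n) ℂ) = (m : MvPolynomial (Fin n) ℂ) :=
      map_natCast C m
    rw [h3, map_natCast]
    ring
  rw [h2, eq_div_iff (pow_ne_zero _ hG)]
  have h4 : (Sq.io n g)⁻¹ ^ m * Sq.io n g ^ m = 1 := by
    rw [← mul_pow, inv_mul_cancel₀ hG, one_pow]
  have h5 : (Sq.io n g)⁻¹ * Sq.io n g = 1 := inv_mul_cancel₀ hG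
  generalize (Sq.io n g)⁻¹ = v at h4 h5 ⊢
  generalize Sq.io n g = u at h4 h5 ⊢
  generalize Sq.io n P = p
  generalize Sq.io n (pderiv a P) = p'
  generalize Sq.io n (pderiv a g) = u'
  generalize Sq.io n (C s) = c
  rw [pow_succ v m, pow_succ u m]
  linear_combination (p' * u + c * u' * p * (v * u) - p * m * u' * (v * u)) * h4 +
    (c * u' * p - p * m * u') * h5

end LamVaux

open LamVaux YG.LamBaux

/-- The ring `B = ℂ[T][1/g]` (for instance `ℂ[T, y] / (y g - 1)`, as in `agYG/LamB.lean`), its
derivations, and the functional of `Sq.exists_functional` (`agI/SqR1.lean`), composed with the map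
from `B` to the field of rational functions. -/
theorem exists_lamV {g : MvPolynomial (Fin n) ℂ} (hg : g ≠ 0) {s : ℂ} (h : NonEx g (-s)) :
    ∃ (B : Type) (_ : CommRing B) (_ : Algebra ℂ B) (δ' : Fin n → Derivation ℂ B B)
      (T : Fin n → B) (Q : Bˣ) (l : B →ₗ[ℂ] ℂ), (Q : B) = aeval T g ∧
      (∀ a b, δ' a (T b) = if a = b then 1 else 0) ∧
      (∀ a b x, δ' a (δ' b x) = δ' b (δ' a x)) ∧
      (∀ a x, l (δ' a x + algebraMap ℂ B s * (((Q⁻¹ : Bˣ) : B) * δ' a Q) * x) = 0) ∧ l 1 = 1 := by
  obtain ⟨Λ, hΛ1, hΛ⟩ := Sq.exists_functional hg h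
  have hG : Sq.io n g ≠ 0 := Sq.io_ne_zero hg
  choose D hD using fun a : Fin n => YG.LamBaux.exists_der (Ideal.span {LamVaux.rel g}) (LamVaux.DA g a)
    (LamVaux.DA_mem g a)
  have hL : ∀ p ∈ Ideal.span {LamVaux.rel g}, (Λ ∘ₗ (ph g).toLinearMap) p = 0 := by
    intro p hp
    obtain ⟨c, rfl⟩ := Ideal.mem_span_singleton'.1 hp
    have h1 : ph g (c * LamVaux.rel g) = 0 := by
      rw [map_mul, LamVaux.rel, map_sub, map_mul, ph_none, ph_rename, map_one,
        inv_mul_cancel₀ hG, sub_self, mul_zero]
    show Λ (ph g (c * LamVaux.rel g)) = 0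
    rw [h1, map_zero]
  obtain ⟨l, hl⟩ := exists_liftQ (Ideal.span {LamVaux.rel g}) (Λ ∘ₗ (ph g).toLinearMap) hL
  have hl' : ∀ p, l (Ideal.Quotient.mk _ p) = Λ (ph g p) := hl
  have hVQ : (Ideal.Quotient.mk (Ideal.span {LamVaux.rel g})) (X none * rename some g) = 1 := by
    rw [← map_one (Ideal.Quotient.mk (Ideal.span {LamVaux.rel g})),
      Ideal.Quotient.mk_eq_mk_iff_sub_mem]
    exact Ideal.mem_span_singleton_self _
  refine ⟨MvPolynomial (Option (Fin n)) ℂ ⧸ Ideal.span {LamVaux.rel g}, inferInstance,
    inferInstance, D, fun j => Ideal.Quotient.mk _ (X (some j)),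
    ⟨Ideal.Quotient.mk _ (rename some g), Ideal.Quotient.mk _ (X none),
      by rw [← map_mul, mul_comm, hVQ], by rw [← map_mul, hVQ]⟩, l, ?_, ?_, ?_, ?_, ?_⟩
  · show Ideal.Quotient.mk _ (rename some g) = _
    have h1 : ∀ P : MvPolynomial (Fin n) ℂ, Ideal.Quotient.mk (Ideal.span {LamVaux.rel g})
        (rename some P) = aeval (fun j => Ideal.Quotient.mk (Ideal.span {LamVaux.rel g})
          (X (some j))) P := by
      intro P
      induction P using MvPolynomial.induction_on with
      | C c =>
        rw [rename_C, aeval_C]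
        rfl
      | add p q hp hq => rw [map_add, map_add, map_add, hp, hq]
      | mul_X p j hp => rw [map_mul, map_mul, map_mul, hp, rename_X, aeval_X]
    exact h1 g
  · intro a b
    rw [hD, LamVaux.DA_some]
    split_ifs
    · exact map_one _
    · exact map_zero _
  · intro a b x
    obtain ⟨x, rfl⟩ := Ideal.Quotient.mk_surjective x
    rw [hD, hD, hD, hD, LamVaux.DA_comm]
  · intro a x
    obtain ⟨x, rfl⟩ := Ideal.Quotient.mk_surjective x
    show l (D a _ + algebraMap ℂ _ s * (Ideal.Quotient.mk _ (X none) *
      D a (Ideal.Quotient.mk _ (rename some g))) * _) = 0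
    rw [hD, hD, DA_rename]
    have h1 : algebraMap ℂ (MvPolynomial (Option (Fin n)) ℂ ⧸ Ideal.span {LamVaux.rel g}) s =
        Ideal.Quotient.mk _ (C s) := rfl
    rw [h1, ← map_mul, ← map_mul, ← map_mul, ← map_add, hl']
    induction x using MvPolynomial.induction_on' with
    | monomial m c =>
      rw [LamVaux.monomial_eq, ph_DA g hg]
      exact hΛ _ (Sq.ev_mem g (-s) _ a _)
    | add x y hx hy =>
      have h2 : LamVaux.DA g a (x + y) + C s * (X none * rename some (pderiv a g)) * (x + y) =
          (LamVaux.DA g a x + C s * (X none * rename some (pderiv a g)) * x) +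
            (LamVaux.DA g a y + C s * (X none * rename some (pderiv a g)) * y) := by
        rw [map_add]
        ring
      rw [h2, map_add, map_add, hx, hy, add_zero]
  · have h1 : (1 : MvPolynomial (Option (Fin n)) ℂ ⧸ Ideal.span {LamVaux.rel g}) =
        Ideal.Quotient.mk _ 1 := rfl
    rw [h1, hl', map_one]
    exact hΛ1

end YV

end MPb07157
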