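import Pool.Agent.Lib.MP_b07157_agYV.Defs

/-!
# The affine hypersurface `gT = 0`
-/

noncomputable section

namespace MPb07157

open MvPolynomial

namespace YV

variable {n : ℕ} {G : MvPolynomial (Fin (n + 1)) ℂ} {w : Fin (n + 1) → ℕ} {N : ℕ}

/-- The substitution `x_0 = z`, `x_(j+1) = X j`. -/
private def smS (z : MvPolynomial (Fin n) ℂ) :
    MvPolynomial (Fin (n + 1)) ℂ →ₐ[ℂ] MvPolynomial (Fin n) ℂ :=
  aeval (Fin.cons z X : Fin (n + 1) → MvPolynomial (Fin n) ℂ)

private theorem smS_zero (z : MvPolynomial (Fin n) ℂ) : smS z (X 0) = z := by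
  unfold smS
  rw [aeval_X, Fin.cons_zero]

private theorem smS_succ (z : MvPolynomial (Fin n) ℂ) (j : Fin n) : smS z (X j.succ) = X j := by
  unfold smS
  rw [aeval_X, Fin.cons_succ]

private theorem smS_pderiv {z : MvPolynomial (Fin n) ℂ} (hz : ∀ j, pderiv j z = 0) (b : Fin n)
    (p : MvPolynomial (Fin (n + 1)) ℂ) : pderiv b (smS z p) = smS z (pderiv b.succ p) := by
  induction p using MvPolynomial.induction_on with
  | C a =>
    rw [pderiv_C, map_zero]
    unfold smS
    rw [aeval_C]
    exact pderiv_C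
  | add p q hp hq => rw [map_add, map_add, hp, hq, map_add, map_add]
  | mul_X p i hp =>
    rw [map_mul, pderiv_mul, pderiv_mul, map_add, map_mul, map_mul, hp]
    congr 1
    refine Fin.cases ?_ (fun j => ?_) i
    · rw [smS_zero, hz, pderiv_X_of_ne (Fin.succ_ne_zero b).symm, map_zero]
    · rw [smS_succ]
      by_cases hjb : j = b
      · subst hjb
        rw [pderiv_X_self, pderiv_X_self, map_one]
      · rw [pderiv_X_of_ne hjb, pderiv_X_of_ne (fun h => hjb (Fin.succ_injective _ h)), map_zero]

private theorem smS_eval (z : MvPolynomial (Fin n) ℂ) (c : Fin n → ℂ)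
    (p : MvPolynomial (Fin (n + 1)) ℂ) :
    eval c (smS z p) = eval (Fin.cons (eval c z) c : Fin (n + 1) → ℂ) p := by
  induction p using MvPolynomial.induction_on with
  | C a =>
    unfold smS
    rw [aeval_C, eval_C]
    exact eval_C _
  | add p q hp hq => rw [map_add, map_add, hp, hq, map_add]
  | mul_X p i hp =>
    rw [map_mul, map_mul, map_mul, hp]
    congr 1
    refine Fin.cases ?_ (fun j => ?_) i
    · rw [smS_zero, eval_X, Fin.cons_zero]
    · rw [smS_succ, eval_X, eval_X, Fin.cons_succ]

private theorem smS_monomial (z : MvPolynomial (Fin n) ℂ) (v : Fin (n + 1) →₀ ℕ) (a : ℂ) :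
    smS z (monomial v a) = z ^ v 0 * monomial v.tail a := by
  unfold smS
  rw [aeval_monomial, Finsupp.prod_fintype _ _ (fun _ => pow_zero _), Fin.prod_univ_succ,
    Fin.cons_zero, monomial_eq (s := v.tail), Finsupp.prod_fintype _ _ (fun _ => pow_zero _)]
  simp only [Fin.cons_succ, Finsupp.tail_apply]
  rw [mul_left_comm]
  rfl

private theorem smS_inForm (z : MvPolynomial (Fin n) ℂ) :
    smS z (inForm G (face G w N)) =
      ∑ v ∈ face G w N, z ^ v 0 * monomial v.tail (coeff v G) := by
  unfold inForm
  rw [map_sum]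
  exact Finset.sum_congr rfl fun v _ => smS_monomial z v _

private theorem gT_eq : gT G w N = smS 1 (inForm G (face G w N)) := rfl

private theorem sm_hom : (inForm G (face G w N)).IsWeightedHomogeneous w N := by
  unfold inForm
  refine Submodule.sum_mem (weightedHomogeneousSubmodule ℂ w N) fun v hv => ?_
  rw [mem_weightedHomogeneousSubmodule]
  refine isWeightedHomogeneous_monomial w v _ ?_
  have h1 : MPb07157.wt w v = N := (Finset.mem_filter.1 hv).2
  rw [← h1, Finsupp.weight_apply, Finsupp.sum_fintype _ _ (fun i => by simp)]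
  unfold MPb07157.wt
  exact Finset.sum_congr rfl fun j _ => by rw [smul_eq_mul, mul_comm]

private theorem sm_wt (v : Fin (n + 1) →₀ ℕ) (hv : v ∈ face G w N) :
    w 0 * v 0 + MPb07157.wt (fun j : Fin n => w j.succ) v.tail = N := by
  have h1 : MPb07157.wt w v = N := (Finset.mem_filter.1 hv).2
  unfold MPb07157.wt at h1 ⊢
  rw [Fin.sum_univ_succ] at h1
  exact h1

/-- `gT = 0` is smooth: a common zero `c` of `gT` and its derivatives would give by Euler's identity
a critical point `(1, c)` of the part of weight `N` of `G`; Nullstellensatz. -/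
theorem smooth_gT (H : Rs G w N) :
    ∃ (h : Fin n → MvPolynomial (Fin n) ℂ) (h0 : MvPolynomial (Fin n) ℂ),
      ∑ b, h b * pderiv b (gT G w N) + h0 * gT G w N = 1 := by
  have hone : ∀ j : Fin n, pderiv j (1 : MvPolynomial (Fin n) ℂ) = 0 := fun j => pderiv_one
  let y : Option (Fin n) → MvPolynomial (Fin n) ℂ :=
    fun o => o.elim (gT G w N) fun b => pderiv b (gT G w N)
  have h1 : (1 : MvPolynomial (Fin n) ℂ) ∈ (Ideal.span (Set.range y)).radical := by
    rw [← vanishingIdeal_zeroLocus_eq_radical (K := ℂ), mem_vanishingIdeal_iff]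
    intro p hp
    exfalso
    have h2 : ∀ o, eval p (y o) = 0 := fun o => hp _ (Ideal.subset_span ⟨o, rfl⟩)
    have h3 : eval (Fin.cons 1 p : Fin (n + 1) → ℂ) (inForm G (face G w N)) = 0 := by
      have h4 := h2 none
      change eval p (gT G w N) = 0 at h4
      rw [gT_eq, smS_eval, map_one] at h4
      exact h4
    have h5 : ∀ b : Fin n, eval (Fin.cons 1 p : Fin (n + 1) → ℂ)
        (pderiv b.succ (inForm G (face G w N))) = 0 := by
      intro b
      have h4 := h2 (some b)
      change eval p (pderiv b (gT G w N)) = 0 at h4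
      rw [gT_eq, smS_pderiv hone, smS_eval, map_one] at h4
      exact h4
    have h6 := congrArg (eval (Fin.cons 1 p : Fin (n + 1) → ℂ))
      ((sm_hom (G := G) (w := w) (N := N)).sum_weight_X_mul_pderiv)
    rw [map_sum, Fin.sum_univ_succ] at h6
    simp only [map_nsmul, map_mul, eval_X, Fin.cons_zero, Fin.cons_succ, h5, h3, mul_zero,
      smul_zero, Finset.sum_const_zero, add_zero, one_mul] at h6
    have h7 : eval (Fin.cons 1 p : Fin (n + 1) → ℂ) (pderiv 0 (inForm G (face G w N))) = 0 := by
      rw [nsmul_eq_mul] at h6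
      rcases mul_eq_zero.1 h6 with h8 | h8
      · have := H.hw 0
        rw [Nat.cast_eq_zero] at h8
        omega
      · exact h8
    obtain ⟨j, hj⟩ := H.iso (Fin.cons 1 p) (fun h => by
      have := congrFun h 0
      rw [Fin.cons_zero] at this
      exact one_ne_zero this)
    revert hj
    refine Fin.cases (fun hj => hj h7) (fun j hj => hj (h5 j)) j
  have h2 : (1 : MvPolynomial (Fin n) ℂ) ∈ Ideal.span (Set.range y) := by
    obtain ⟨k, hk⟩ := h1
    rwa [one_pow] at hk
  obtain ⟨c, hc⟩ := (Ideal.mem_span_range_iff_exists_fun).1 h2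
  rw [Fintype.sum_option] at hc
  refine ⟨fun b => c (some b), c none, ?_⟩
  rw [add_comm]
  exact hc

theorem gT_ne_zero (H : Rs G w N) : gT G w N ≠ 0 := by
  intro h
  obtain ⟨a, a0, h1⟩ := smooth_gT H
  rw [h] at h1
  simp at h1

theorem gT_le (H : Rs G w N) :
    ∀ v ∈ (gT G w N).support, MPb07157.wt (fun j : Fin n => w j.succ) v ≤ N := by
  classical
  intro u hu
  rw [gT_eq, smS_inForm] at hu
  simp only [one_pow, one_mul] at hu
  obtain ⟨v, hv, hvu⟩ := Finset.mem_biUnion.1 (Finset.mem_of_subset (support_sum (s := face G w N)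
    (f := fun v => monomial v.tail (coeff v G))) hu)
  have h1 := Finset.mem_singleton.1 (Finset.mem_of_subset support_monomial_subset hvu)
  rw [h1]
  have := sm_wt v hv
  omega

/-- The part of weight `N` of `gT` is the restriction of the part of weight `N` of `G` to
`x_0 = 0`. -/
theorem gT_top (H : Rs G w N) (c : Fin n → ℂ) (hc : c ≠ 0) :
    ∃ j, eval c (pderiv j (weightedHomogeneousComponent (fun j : Fin n => w j.succ) N
      (gT G w N))) ≠ 0 := by
  classical
  have h1 : weightedHomogeneousComponent (fun j : Fin n => w j.succ) N (gT G w N) =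
      smS 0 (inForm G (face G w N)) := by
    rw [gT_eq, smS_inForm, smS_inForm, map_sum]
    refine Finset.sum_congr rfl fun v hv => ?_
    rw [one_pow, one_mul]
    have h2 := sm_wt v hv
    have h3 : (monomial v.tail (coeff v G)).IsWeightedHomogeneous (fun j : Fin n => w j.succ)
        (MPb07157.wt (fun j : Fin n => w j.succ) v.tail) := by
      refine isWeightedHomogeneous_monomial _ _ _ ?_
      rw [Finsupp.weight_apply, Finsupp.sum_fintype _ _ (fun i => by simp)]
      unfold MPb07157.wt
      exact Finset.sum_congr rfl fun j _ => by rw [smul_eq_mul, mul_comm]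
    rw [weightedHomogeneousComponent_of_mem h3]
    have hw0 := H.hw 0
    by_cases hv0 : v 0 = 0
    · rw [hv0, mul_zero, zero_add] at h2
      rw [if_pos h2.symm, hv0, pow_zero, one_mul]
    · have h4 : 0 < w 0 * v 0 := Nat.mul_pos hw0 (Nat.pos_of_ne_zero hv0)
      rw [if_neg (by omega), zero_pow hv0, zero_mul]
  obtain ⟨j, hj⟩ := H.rel (Fin.cons 0 c) (fun h => hc (by
    funext j
    have := congrFun h j.succ
    rw [Fin.cons_succ] at this
    exact this)) (Fin.cons_zero _ _)
  refine ⟨j, ?_⟩
  rw [h1, smS_pderiv (fun j => map_zero _), smS_eval, map_zero]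
  exact hj

end YV

end MPb07157
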