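import Pool.Agent.Lib.MP_b07157_agYA.Core
import Pool.Agent.Lib.MP_b07157_agYM.SqF
import Pool.Agent.Lib.MP_b07157_agYV.ChV
import Pool.Agent.Lib.MP_b07157_agYV.PoleV
import Pool.Agent.Lib.MP_b07157_agYV.RootV

/-!
# Tangent cones with semi-quasi-homogeneous points: the main theorems
-/

noncomputable section

namespace MPb07157

open MvPolynomial

namespace YV

open PC SU SI YL

/-- The numerical condition: there is no resonance. -/
def NumV {n : ℕ} (w : Fin (n + 1) → ℕ) (N d : ℕ) : Prop :=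
  ∀ j : Fin n, (n + 1) * w 0 * N + w j.succ * De w d N <
    d * w 0 * (∑ i : Fin n, w i.succ) + N * De w d N

/-- There is no resonance if `d` is at least the number of variables. -/
theorem numV_of_le {n : ℕ} {w : Fin (n + 1) → ℕ} {N d : ℕ} (hw0 : 0 < w 0)
    (hwN : ∀ j : Fin n, w j.succ < N) (hw : ∀ j : Fin n, 0 < w j.succ) (h : n + 1 ≤ d) :
    NumV w N d := by
  intro j
  have h1 : w j.succ ≤ ∑ i : Fin n, w i.succ :=
    Finset.single_le_sum (f := fun i : Fin n => w i.succ) (fun _ _ => Nat.zero_le _)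
      (Finset.mem_univ j)
  have h2 := hwN j
  have h3 : (n + 1) * w 0 * N ≤ d * w 0 * N :=
    Nat.mul_le_mul_right _ (Nat.mul_le_mul_right _ h)
  have h4 : d * w 0 * w j.succ ≤ d * w 0 * ∑ i : Fin n, w i.succ := Nat.mul_le_mul_left _ h1
  have h5 : w j.succ * N < N * N := Nat.mul_lt_mul_of_pos_right h2 (by omega)
  unfold De
  nlinarith

/-- The point `q` of the tangent cone is semi-quasi-homogeneous, relative to the exceptional
divisor. -/
def RelAt {n : ℕ} (f : MvPolynomial (Fin (n + 1)) ℂ) (d : ℕ) (q : Fin (n + 1) → ℂ) : Prop :=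
  ∃ (j₀ : Fin (n + 1)) (c : ℂ), c * q j₀ = 1 ∧
    ∃ (G : MvPolynomial (Fin (n + 1)) ℂ) (w : Fin (n + 1) → ℕ) (N : ℕ),
      UEqV (YG.hg f d (c • q) j₀ : MvPowerSeries (Fin (n + 1)) ℂ) G ∧ Rs G w N ∧ NumV w N d

theorem lineSer_smul {n : ℕ} (f : MvPolynomial (Fin (n + 1)) ℂ) (d : ℕ) (q : Fin (n + 1) → ℂ)
    {c : ℂ} (hc : c ≠ 0) : YG.lineSer f d (c • q) = YG.lineSer f d q := by
  have h : lineW (c • q) = lineW q := by
    ext x
    constructor
    · rintro ⟨a, ha, rfl⟩
      exact ⟨a * c, mul_ne_zero ha hc, by rw [mul_smul]⟩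
    · rintro ⟨a, ha, rfl⟩
      refine ⟨a * c⁻¹, mul_ne_zero ha (inv_ne_zero hc), ?_⟩
      rw [smul_smul, mul_assoc, inv_mul_cancel₀ hc, mul_one]
  unfold YG.lineSer
  rw [h]

/-- The semi-quasi-homogeneous points. -/
theorem relAt_case {n : ℕ} {f : MvPolynomial (Fin (n + 1)) ℂ} {d : ℕ} {q : Fin (n + 1) → ℂ}
    (hd : 0 < d) (hlow : ∀ j < d, homogeneousComponent j f = 0) (hrel : RelAt f d q) {s₀ : ℚ}
    (h : ((n + 1 : ℕ) : ℚ) + d * s₀ ≠ 0) (h1 : s₀ ≠ -1) (hreg : YG.lineSer f d q ∉ regularAt s₀)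
    {b : Polynomial ℂ} (hb : InPs (f : MvPowerSeries (Fin (n + 1)) ℂ) 1
      (b.map (MvPowerSeries.C (σ := Fin (n + 1)) (R := ℂ)))) : b.eval (s₀ : ℂ) = 0 := by
  obtain ⟨j₀, c, hc, G, w, N, hG, H, hnum⟩ := hrel
  have hc0 : c ≠ 0 := by
    rintro rfl
    rw [zero_mul] at hc
    exact zero_ne_one hc
  have hq : (c • q) j₀ = 1 := hc
  rw [← lineSer_smul f d q hc0] at hreg
  by_cases h3 : (nu w : ℚ) + (De w d N : ℕ) * s₀ = 0
  · obtain ⟨ξ, U, D, hch⟩ := exists_chartV hlow hG
    exact rootV hch H hnum h3 h1 hb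
  · exact absurd (lineSer_mem hd hq hG H h1 h h3) hreg

/-! ### Three variables -/

/-- As `YA.IsTC3`, with semi-quasi-homogeneous points. -/
structure IsTC3V (f : MvPolynomial (Fin 3) ℂ) (d e : ℕ) : Prop where
  low : ∀ j < d, homogeneousComponent j f = 0
  mid : ∀ j, 0 < j → j < e → homogeneousComponent (d + j) f = 0
  sqf : Squarefree (homogeneousComponent d f)
  sing : ∀ q : Fin 3 → ℂ, q ≠ 0 → (∀ j, eval q (pderiv j (homogeneousComponent d f)) = 0) →
    (eval q (homogeneousComponent (d + e) f) ≠ 0 ∨ NodeAt (homogeneousComponent d f) q ∨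
      (d ≤ 6 ∧ ∃ i j, eval q (pderiv i (pderiv j (homogeneousComponent d f))) ≠ 0)) ∨
      RelAt f d q

/-- **Surface germs with reduced tangent cones, double points.** -/
theorem smc_tc3V {f : MvPolynomial (Fin 3) ℂ} {d e : ℕ} (hd : 0 < d) (he : 0 < e)
    (hf : IsTC3V f d e) {s₀ : ℚ} (hlct : s₀ = -(3 / (d : ℚ)) → d = 3 ∨ Cond3 f d)
    (hp : IsPole (Zmot0 f) s₀) {b : Polynomial ℂ}
    (hb : InDnForm f 1 (b.map (MvPowerSeries.C (σ := Fin 3) (R := ℂ)))) :
    b.eval (s₀ : ℂ) = 0 := by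
  have hF0 : homogeneousComponent d f ≠ 0 := hf.sqf.ne_zero
  have hf0 : f ≠ 0 := by
    rintro rfl
    exact hF0 (map_zero _)
  have h00 : coeff 0 f = 0 := by
    have h1 := hf.low 0 hd
    rw [homogeneousComponent_zero] at h1
    exact C_eq_zero.1 h1
  by_cases hs1 : s₀ = -1
  · subst hs1
    exact neg_one_root hf0 (by rwa [notMem_support_iff]) b hb
  have hdQ : (0 : ℚ) < d := by exact_mod_cast hd
  have heQ : (0 : ℚ) < e := by exact_mod_cast he
  by_cases hs2 : s₀ = -(3 / (d : ℚ))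
  · rcases hlct hs2 with hd3 | hc | hc
    · exfalso
      apply hs1
      rw [hs2, hd3]
      norm_num
    · have h1 := Lct.root_order hd (by norm_num) hf0 hf.low (by exact_mod_cast hc) hb
      rw [hs2]
      exact_mod_cast h1
    · have h1 := SI.root_of_nonEx hd hf.low hF0 hc hb
      rw [hs2]
      push_cast
      exact h1
  have hcand : ((3 : ℕ) : ℚ) / d ≠ -s₀ := by
    intro h
    apply hs2
    push_cast at h
    rw [← neg_eq_iff_eq_neg, ← h]
  -- the singular point
  obtain ⟨q, j₀, hq, hsing, hFq, hreg⟩ := exists_pole_line hd hf.low hf.sqf hcand hs1 hp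
  have hq0 : q ≠ 0 := by
    rintro rfl
    simp at hq
  have hd2 : 2 ≤ d := by
    by_contra hcon
    have hd1 : d = 1 := by omega
    subst hd1
    exact hF0 (eq_zero_of_linear (homogeneousComponent_isHomogeneous 1 f) hsing)
  have hbps := inPs_of_form hb
  by_cases hrel : RelAt f d q
  · exact relAt_case (n := 2) hd hf.low hrel (by
      intro h
      apply hcand
      rw [div_eq_iff hdQ.ne']
      push_cast at h ⊢
      linarith) hs1 hreg hbps
  by_cases hh : hess2 (gch (homogeneousComponent d f) q j₀ : PC.P2) = 0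
  swap
  · exact root_or_regular_node hd2 hf.low hq hFq hsing hh hcand hs1 hreg hbps
  rcases (hf.sing q hq0 hsing).resolve_right hrel with hne | h | ⟨hd6, i, j, hij⟩
  · have hnode : ¬ PC.IsNode (gch (homogeneousComponent d f) q j₀ : PC.P2) := fun h =>
      hess2_of_isNode h hh
    have hiso := isoSing_gch (homogeneousComponent_isHomogeneous d f) hf.sqf hq
    have hg0 := ne_zero_of_isoSing hiso
    have hc : eval 0 (gch (homogeneousComponent d f) q j₀) = 0 := by
      rw [pole_eval_gch _ q j₀ hq]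
      exact hFq
    have hc' : MvPowerSeries.constantCoeff
        ((gch (homogeneousComponent d f) q j₀ : MvPolynomial (Fin 2) ℂ) : PC.P2) = 0 := by
      rw [← MvPowerSeries.coeff_zero_eq_constantCoeff_apply, MvPolynomial.coeff_coe,
        ← MvPolynomial.constantCoeff_eq, ← hc, MvPolynomial.eval_zero]
    obtain ⟨K, hK⟩ := exists_nat_gt (-s₀)
    have hK1 : 1 ≤ K + 1 := by omega
    have hK2 : -s₀ < ((K + 1 : ℕ) : ℚ) := by
      push_cast
      linarith
    rw [lineSer_eq_ZY hd he hf.mid hq hne hK1] at hreg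
    set s₁ : ℚ := (((d : ℚ) + e) * s₀ + 3) / e with hs₁
    have hP : YP.Par e d 3 s₀ s₁ := by
      refine ⟨he, hd, by norm_num, ?_, hs1, ?_⟩
      · rw [hs₁, mul_div_cancel₀ _ heQ.ne']
        push_cast
        ring
      · intro h
        apply hcand
        rw [div_eq_iff hdQ.ne']
        exact h
    by_cases hout : s₁ ≤ -1 ∨ 0 ≤ s₁
    · exact absurd (YP.first_out hg0 hc' hnode hP hout hK1 hK2) hreg
    push Not at hout
    obtain ⟨h1, h2⟩ := hout
    by_contra hb0
    have hex := ex_gch_e hd2 he hf.low hf.mid hq hne hs1 h1 h2 hbps hb0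
    exact hreg (YP.first hg0 hc' hP hex
      (fun θ h0 i B hJ hB0 hB => PC.axis_ne hiso h0 hJ hB0 hB h1.ne') hK1 hK2)
  · exact absurd hh (hess2_of_nodeAt (homogeneousComponent_isHomogeneous d f) hq hsing h)
  · exact YA.double_case hd hd6 hf.low hf.sqf hq hFq hsing hh hij hcand hs1 hreg hbps

/-! ### At least four variables -/

/-- As `YA.IsTCN`, with semi-quasi-homogeneous points. -/
structure IsTCNV {t : ℕ} (f : MvPolynomial (Fin (t + 3)) ℂ) (d : ℕ) : Prop where
  ht : 1 ≤ t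
  hd : 3 ≤ d
  low : ∀ j < d, homogeneousComponent j f = 0
  fin : YG.FinSing (homogeneousComponent d f)
  sing : ∀ q : Fin (t + 3) → ℂ, q ≠ 0 →
    (∀ j, eval q (pderiv j (homogeneousComponent d f)) = 0) →
    (YG.hessAt (homogeneousComponent d f) q).rank = t + 2 ∨
      ((t + 1) * d ≤ 2 * (t + 3) ∧ t + 1 ≤ (YG.hessAt (homogeneousComponent d f) q).rank) ∨
      RelAt f d q

variable {t : ℕ} {f : MvPolynomial (Fin (t + 3)) ℂ} {d : ℕ}

/-- **Hypersurface germs whose tangent cone has nodes or points of corank one.** -/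
theorem smc_tcNV (hf : IsTCNV f d) {s₀ : ℚ}
    (hlct : s₀ = -(((t : ℚ) + 3) / d) → Lct.HasLct f (((t : ℝ) + 3) / d) ∨
      NonEx (homogeneousComponent d f) (((t : ℂ) + 3) / d))
    (hp : IsPole (Zmot0 f) s₀) {b : Polynomial ℂ}
    (hb : InDnForm f 1 (b.map (MvPowerSeries.C (σ := Fin (t + 3)) (R := ℂ)))) :
    b.eval (s₀ : ℂ) = 0 := by
  have hd := hf.hd
  have hdQ : (0 : ℚ) < d := by exact_mod_cast (by omega : 0 < d)
  have hF0 : homogeneousComponent d f ≠ 0 := (YM.FinSing.squarefree (by omega) hf.fin).ne_zero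
  have hf0 : f ≠ 0 := by
    rintro rfl
    exact hF0 (map_zero _)
  have h00 : coeff 0 f = 0 := by
    have h1 := hf.low 0 (by omega)
    rw [homogeneousComponent_zero] at h1
    exact C_eq_zero.1 h1
  by_cases hs1 : s₀ = -1
  · subst hs1
    exact neg_one_root hf0 (by rwa [notMem_support_iff]) b hb
  by_cases hs2 : s₀ = -(((t : ℚ) + 3) / d)
  · rcases hlct hs2 with hc | hc
    · have h1 := Lct.root_order (n := t + 3) (by omega : 0 < d) (by omega) hf0 hf.low
        (by push_cast; exact hc) hb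
      rw [hs2]
      exact_mod_cast h1
    · have h1 := YG.root_of_nonExG (n := t + 3) (by omega) (by omega : 2 ≤ d) hf.low hF0
        (by push_cast; exact hc) hb
      rw [hs2]
      push_cast at h1 ⊢
      exact h1
  have hcand : ((t + 2 + 1 : ℕ) : ℚ) / d ≠ -s₀ := by
    intro h
    apply hs2
    rw [← neg_eq_iff_eq_neg, ← h]
    push_cast
    ring
  have hcand' : ((t : ℚ) + 3) + d * s₀ ≠ 0 := by
    intro h
    apply hs2
    rw [← neg_div, eq_div_iff hdQ.ne']
    linarith
  obtain ⟨q, j₀, hq, hsing, hFq, hreg⟩ := YG.exists_pole_line (by omega) hf.low hf.fin hcand hs1 hp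
  have hq0 : q ≠ 0 := by
    rintro rfl
    simp at hq
  have hbps := inPs_of_form hb
  rcases hf.sing q hq0 hsing with h | ⟨hd6, h⟩ | hrel
  · exact YA.node_case hd hf.low hq hFq hsing h hcand' hs1 hreg hbps
  · exact YA.corank_case hf.ht hd hd6 hf.low hf.fin hq hFq hsing h hcand' hs1 hreg hbps
  · exact relAt_case (n := t + 2) (by omega) hf.low hrel (by
      push_cast
      intro h
      apply hcand'
      linarith) hs1 hreg hbps

end YV

end MPb07157
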