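import Pool.Agent.Lib.MP_b07157_agYV.Defs
import Pool.Agent.Lib.MP_b07157_agU.Nd
import Pool.Agent.Lib.MP_b07157_agU.Split1
import Pool.Agent.Lib.MP_b07157_agR.Cor
import Pool.Agent.Lib.MP_b07157_agI.Pole

/-!
# Lê–Yomdin germs: the strict transform at a semi-quasi-homogeneous point `q`, `f_{d+e}(q) ≠ 0`
-/

noncomputable section

namespace MPb07157

open MvPolynomial

namespace YV

open SI YG

variable {n : ℕ}

/-! ### The extension of an automorphism by a multiple of the first variable -/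

/-- The inclusion of the power series in the variables `X_1, …, X_n`. -/
def lyR (n : ℕ) : MvPowerSeries (Fin n) ℂ →ₐ[ℂ] MvPowerSeries (Fin (n + 1)) ℂ :=
  MvPowerSeries.rename (Fin.succEmb n : Fin n ↪ Fin (n + 1))

theorem lyR_coe (p : MvPolynomial (Fin n) ℂ) :
    lyR n (p : MvPowerSeries (Fin n) ℂ) =
      ((rename Fin.succ p : MvPolynomial (Fin (n + 1)) ℂ) : MvPowerSeries (Fin (n + 1)) ℂ) := by
  unfold lyR
  have e2 : ((MvPowerSeries.rename (R := ℂ) (Fin.succEmb n : Fin n ↪ Fin (n + 1)) :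
      MvPowerSeries (Fin n) ℂ →ₐ[ℂ] MvPowerSeries (Fin (n + 1)) ℂ)).comp
        (MvPolynomial.coeToMvPowerSeries.algHom (R := ℂ) (σ := Fin n) ℂ) =
      (MvPolynomial.coeToMvPowerSeries.algHom (R := ℂ) (σ := Fin (n + 1)) ℂ).comp
        (rename Fin.succ) := by
    apply MvPolynomial.algHom_ext
    intro l
    rw [AlgHom.comp_apply, AlgHom.comp_apply, MvPolynomial.coeToMvPowerSeries.algHom_apply,
      MvPolynomial.coeToMvPowerSeries.algHom_apply]
    simp
  have h := congrArg (fun g => g p) e2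
  simp only [AlgHom.comp_apply, MvPolynomial.coeToMvPowerSeries.algHom_apply] at h
  simpa using h

theorem ly_ext (E : MvPowerSeries (Fin n) ℂ ≃ₐ[ℂ] MvPowerSeries (Fin n) ℂ)
    {r : MvPowerSeries (Fin (n + 1)) ℂ} (hr : MvPowerSeries.constantCoeff r ≠ 0) :
    ∃ F : MvPowerSeries (Fin (n + 1)) ℂ ≃ₐ[ℂ] MvPowerSeries (Fin (n + 1)) ℂ,
      (∀ p : MvPolynomial (Fin n) ℂ,
        F ((rename Fin.succ p : MvPolynomial (Fin (n + 1)) ℂ) :
          MvPowerSeries (Fin (n + 1)) ℂ) = lyR n (E (p : MvPowerSeries (Fin n) ℂ))) ∧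
      F (MvPowerSeries.X 0) = MvPowerSeries.X 0 * r := by
  classical
  let R : MvPowerSeries (Fin n) ℂ →ₐ[ℂ] MvPowerSeries (Fin (n + 1)) ℂ := lyR n
  let A : Fin (n + 1) → MvPowerSeries (Fin (n + 1)) ℂ :=
    Fin.cons (MvPowerSeries.X 0 * r) fun l => R (E (MvPowerSeries.X l))
  have hAc : ∀ l : Fin n, A l.succ = R (E (MvPowerSeries.X l)) := fun l => rfl
  have hAn : A 0 = MvPowerSeries.X 0 * r := rfl
  have hA0 : ∀ i, MvPowerSeries.constantCoeff (A i) = 0 := by
    intro i
    refine Fin.cases ?_ (fun l => ?_) i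
    · rw [hAn, map_mul, MvPowerSeries.constantCoeff_X, zero_mul]
    · rw [hAc]
      show MvPowerSeries.constantCoeff (MvPowerSeries.rename
        (Fin.succEmb n : Fin n ↪ Fin (n + 1)) (E (MvPowerSeries.X l))) = 0
      rw [MvPowerSeries.constantCoeff_rename, constantCoeff_equiv, MvPowerSeries.constantCoeff_X]
  have hA1 : (Matrix.of fun i j => MvPowerSeries.coeff (Finsupp.single j 1) (A i)).det ≠ 0 := by
    refine Str.det_ne_zero_of_injective fun v hv => ?_
    have h1 : v 0 = 0 := by
      have h2 := hv 0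
      simp only [Matrix.of_apply, hAn] at h2
      rw [Finset.sum_eq_single (0 : Fin (n + 1))] at h2
      · rw [coeff_single_ps, Derivation.leibniz, Spl.pderiv_X, if_pos rfl] at h2
        simp only [smul_eq_mul, map_add, map_mul, MvPowerSeries.constantCoeff_X, zero_mul,
          zero_add, mul_one] at h2
        exact (mul_eq_zero.1 h2).resolve_left hr
      · intro j _ hj
        rw [coeff_single_ps, Derivation.leibniz, Spl.pderiv_X, if_neg hj]
        simp
      · intro h
        exact absurd (Finset.mem_univ _) h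
    have h2 : (fun l : Fin n => v l.succ) = 0 := by
      by_contra hne
      have hdet := jac_det_ne_zero E
      apply hdet
      apply (Matrix.exists_mulVec_eq_zero_iff).1
      refine ⟨fun l => v l.succ, hne, ?_⟩
      funext i
      have h3 := hv i.succ
      simp only [Matrix.of_apply, hAc] at h3
      rw [Pi.zero_apply, ← h3]
      show ∑ l : Fin n, MvPowerSeries.coeff (Finsupp.single l 1) (E (MvPowerSeries.X i)) *
          v l.succ =
        ∑ j, MvPowerSeries.coeff (Finsupp.single j 1)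
          (MvPowerSeries.rename (Fin.succEmb n : Fin n ↪ Fin (n + 1))
            (E (MvPowerSeries.X i))) * v j
      simp only [coeff_single_rename]
      simp only [Finset.sum_mul]
      rw [Finset.sum_comm]
      refine Finset.sum_congr rfl fun l _ => ?_
      rw [Finset.sum_eq_single l.succ]
      · have hcl : (Fin.succEmb n : Fin n ↪ Fin (n + 1)) l = l.succ := rfl
        rw [if_pos hcl]
      · intro j _ hj
        have hcl : ¬ (Fin.succEmb n : Fin n ↪ Fin (n + 1)) l = j := fun h => hj h.symm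
        rw [if_neg hcl, zero_mul]
      · intro h
        exact absurd (Finset.mem_univ _) h
    funext i
    refine Fin.cases ?_ (fun l => ?_) i
    · exact h1
    · exact congrFun h2 l
  obtain ⟨F, hF⟩ := IFT.exists_equiv hA0 hA1
  refine ⟨F, fun p => ?_, ?_⟩
  · rw [hF, aeval_rename]
    have e1 : (A ∘ Fin.succ) = fun l => R (E (MvPowerSeries.X l)) := funext hAc
    rw [e1]
    have e2 : (aeval fun l => R (E (MvPowerSeries.X l))) =
        (R.comp (E : MvPowerSeries (Fin n) ℂ →ₐ[ℂ] MvPowerSeries (Fin n) ℂ)).comp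
          (MvPolynomial.coeToMvPowerSeries.algHom (R := ℂ) (σ := Fin n) ℂ) := by
      apply MvPolynomial.algHom_ext
      intro l
      rw [aeval_X, AlgHom.comp_apply, AlgHom.comp_apply,
        MvPolynomial.coeToMvPowerSeries.algHom_apply]
      simp
    rw [e2, AlgHom.comp_apply, AlgHom.comp_apply, MvPolynomial.coeToMvPowerSeries.algHom_apply]
    simp
    rfl
  · have h := hF (X 0)
    rw [MvPolynomial.coe_X, aeval_X, hAn] at h
    exact h

/-! ### The strict transform -/

/-- `hg = (gch f_d)(y) + x^e v(x, y)`. -/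
theorem hg_of_mid {f : MvPolynomial (Fin (n + 1)) ℂ} {d e : ℕ} (he : 0 < e)
    (hmid : ∀ j, 0 < j → j < e → homogeneousComponent (d + j) f = 0)
    {q : Fin (n + 1) → ℂ} {j₀ : Fin (n + 1)} (hq : q j₀ = 1)
    (hne : eval q (homogeneousComponent (d + e) f) ≠ 0) :
    ∃ V : MvPolynomial (Fin (n + 1)) ℂ, eval 0 V ≠ 0 ∧
      hg f d q j₀ = rename Fin.succ (gch (homogeneousComponent d f) q j₀) + X 0 ^ e * V := by
  have hle : e ≤ f.totalDegree := by
    by_contra hlt
    push Not at hlt
    rw [homogeneousComponent_eq_zero _ _ (by omega), map_zero] at hne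
    exact hne rfl
  refine ⟨∑ j ∈ Finset.range (f.totalDegree + 1), if e ≤ j then
    X 0 ^ (j - e) * rename Fin.succ (gch (homogeneousComponent (d + j) f) q j₀) else 0, ?_, ?_⟩
  · rw [map_sum, Finset.sum_eq_single e]
    · rw [if_pos le_rfl, Nat.sub_self, pow_zero, one_mul, eval_rename]
      have e1 : (0 : Fin (n + 1) → ℂ) ∘ Fin.succ = 0 := rfl
      rw [e1, pole_eval_gch _ q j₀ hq]
      exact hne
    · intro j _ hj
      split_ifs with h
      · rw [map_mul, map_pow, eval_X, Pi.zero_apply, zero_pow (by omega), zero_mul]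
      · exact map_zero _
    · intro h
      exact absurd (Finset.mem_range.2 (by omega)) h
  · unfold hg
    have h0 : rename Fin.succ (gch (homogeneousComponent d f) q j₀) =
        ∑ j ∈ Finset.range (f.totalDegree + 1), if j = 0 then
          rename Fin.succ (gch (homogeneousComponent d f) q j₀) else 0 := by
      rw [Finset.sum_ite_eq', if_pos (Finset.mem_range.2 (Nat.succ_pos _))]
    rw [h0, Finset.mul_sum, ← Finset.sum_add_distrib]
    refine Finset.sum_congr rfl fun j _ => ?_
    rcases Nat.eq_zero_or_pos j with rfl | hj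
    · rw [if_pos rfl, if_neg (by omega), mul_zero, add_zero, pow_zero, one_mul, add_zero]
    · rw [if_neg hj.ne', zero_add]
      split_ifs with h
      · rw [← mul_assoc, ← pow_add]
        congr 2
        omega
      · rw [hmid j hj (by omega)]
        have e1 : gch (0 : MvPolynomial (Fin (n + 1)) ℂ) q j₀ = 0 := by
          unfold gch
          exact map_zero _
        rw [e1, map_zero, mul_zero, mul_zero]

/-- `hg = (gch f_d)(y) + x^e v(x, y)`, `v(0) = f_{d+e}(q) ≠ 0`. If `gch f_d = u E(G)`, then in the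
coordinates `E(y)`, `x (v/u)^(1/e)` it is `u (G + x^e)`. The extension of automorphisms and
`SU.Spl.exists_equiv'`: `agU/Split1.lean`, `agU/Nd.lean` (`NdH.exists_ext`). -/
theorem ueqV_of_ly {f : MvPolynomial (Fin (n + 1)) ℂ} {d e : ℕ} (he : 0 < e)
    (hmid : ∀ j, 0 < j → j < e → homogeneousComponent (d + j) f = 0)
    {q : Fin (n + 1) → ℂ} {j₀ : Fin (n + 1)} (hq : q j₀ = 1)
    (hne : eval q (homogeneousComponent (d + e) f) ≠ 0) {G : MvPolynomial (Fin n) ℂ}
    (hG : ∃ (E : MvPowerSeries (Fin n) ℂ ≃ₐ[ℂ] MvPowerSeries (Fin n) ℂ)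
      (u : (MvPowerSeries (Fin n) ℂ)ˣ),
      (gch (homogeneousComponent d f) q j₀ : MvPowerSeries (Fin n) ℂ) =
        u * E (G : MvPowerSeries (Fin n) ℂ)) :
    UEqV (hg f d q j₀ : MvPowerSeries (Fin (n + 1)) ℂ) (rename Fin.succ G + X 0 ^ e) := by
  obtain ⟨E, u, hu⟩ := hG
  obtain ⟨V, hV0, hV⟩ := hg_of_mid he hmid hq hne
  have hVu : MvPowerSeries.constantCoeff (V : MvPowerSeries (Fin (n + 1)) ℂ) ≠ 0 := by
    have e1 : MvPowerSeries.constantCoeff (V : MvPowerSeries (Fin (n + 1)) ℂ) = eval 0 V := by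
      rw [← MvPowerSeries.coeff_zero_eq_constantCoeff_apply, MvPolynomial.coeff_coe,
        eval_zero, constantCoeff_eq]
    rw [e1]
    exact hV0
  set U : (MvPowerSeries (Fin (n + 1)) ℂ)ˣ := Units.map (lyR n : MvPowerSeries (Fin n) ℂ →*
    MvPowerSeries (Fin (n + 1)) ℂ) u with hU
  have hUv : (U : MvPowerSeries (Fin (n + 1)) ℂ) = lyR n (u : MvPowerSeries (Fin n) ℂ) := rfl
  set W : MvPowerSeries (Fin (n + 1)) ℂ := (V : MvPowerSeries (Fin (n + 1)) ℂ) *
    ((U⁻¹ : (MvPowerSeries (Fin (n + 1)) ℂ)ˣ) : MvPowerSeries (Fin (n + 1)) ℂ) with hW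
  have hW0 : MvPowerSeries.constantCoeff W ≠ 0 := by
    rw [hW, map_mul]
    refine mul_ne_zero hVu ?_
    have h1 : IsUnit ((U⁻¹ : (MvPowerSeries (Fin (n + 1)) ℂ)ˣ) : MvPowerSeries (Fin (n + 1)) ℂ) :=
      Units.isUnit _
    rw [MvPowerSeries.isUnit_iff_constantCoeff] at h1
    exact h1.ne_zero
  obtain ⟨c, hc⟩ := IsAlgClosed.exists_pow_nat_eq (MvPowerSeries.constantCoeff W) he
  obtain ⟨H, hH1, hH2⟩ := ARL.exists_root (R := ℂ) (N := e) he
    (U := W * MvPowerSeries.C (MvPowerSeries.constantCoeff W)⁻¹) (by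
      rw [map_mul, MvPowerSeries.constantCoeff_C, mul_inv_cancel₀ hW0])
  have hc0 : c ≠ 0 := by
    rintro rfl
    rw [zero_pow he.ne'] at hc
    exact hW0 hc.symm
  set r : MvPowerSeries (Fin (n + 1)) ℂ := MvPowerSeries.C c * H with hr
  have hr0 : MvPowerSeries.constantCoeff r ≠ 0 := by
    rw [hr, map_mul, MvPowerSeries.constantCoeff_C, hH1, mul_one]
    exact hc0
  have hre : r ^ e = W := by
    rw [hr, mul_pow, hH2, ← map_pow, hc, mul_left_comm, ← map_mul, mul_inv_cancel₀ hW0, map_one,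
      mul_one]
  obtain ⟨F, hF1, hF2⟩ := ly_ext E hr0
  have hru : IsUnit r := by
    rw [MvPowerSeries.isUnit_iff_constantCoeff]
    exact isUnit_iff_ne_zero.2 hr0
  refine ⟨F, U, hru.unit, ?_, ?_⟩
  · have h1 : ((rename Fin.succ G + X 0 ^ e : MvPolynomial (Fin (n + 1)) ℂ) :
        MvPowerSeries (Fin (n + 1)) ℂ) =
        ((rename Fin.succ G : MvPolynomial (Fin (n + 1)) ℂ) : MvPowerSeries (Fin (n + 1)) ℂ) +
          MvPowerSeries.X 0 ^ e := by
      rw [MvPolynomial.coe_add, MvPolynomial.coe_pow, MvPolynomial.coe_X]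
    have h2 : ((rename Fin.succ (gch (homogeneousComponent d f) q j₀) + X 0 ^ e * V :
        MvPolynomial (Fin (n + 1)) ℂ) : MvPowerSeries (Fin (n + 1)) ℂ) =
        ((rename Fin.succ (gch (homogeneousComponent d f) q j₀) :
          MvPolynomial (Fin (n + 1)) ℂ) : MvPowerSeries (Fin (n + 1)) ℂ) +
          MvPowerSeries.X 0 ^ e * (V : MvPowerSeries (Fin (n + 1)) ℂ) := by
      rw [MvPolynomial.coe_add, MvPolynomial.coe_mul, MvPolynomial.coe_pow, MvPolynomial.coe_X]
    rw [hV, h1, h2, map_add, map_pow, hF1, hF2, ← lyR_coe, hu, map_mul, ← hUv, mul_add, mul_pow,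
      hre, hW]
    congr 1
    have h3 : (U : MvPowerSeries (Fin (n + 1)) ℂ) *
        ((U⁻¹ : (MvPowerSeries (Fin (n + 1)) ℂ)ˣ) : MvPowerSeries (Fin (n + 1)) ℂ) = 1 :=
      Units.mul_inv U
    linear_combination (-(MvPowerSeries.X 0 ^ e * (V : MvPowerSeries (Fin (n + 1)) ℂ))) * h3
  · rw [hF2, IsUnit.unit_spec]

/-! ### The weights -/

theorem ly_inForm_face {m : ℕ} (G : MvPolynomial (Fin m) ℂ) (w : Fin m → ℕ) (N : ℕ) :
    inForm G (face G w N) = weightedHomogeneousComponent w N G := by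
  classical
  ext v
  have hwt : Finsupp.weight w v = MPb07157.wt w v := by
    unfold MPb07157.wt
    rw [Finsupp.weight_apply, Finsupp.sum_fintype _ _ fun _ => by simp]
    exact Finset.sum_congr rfl fun i _ => by rw [smul_eq_mul, mul_comm]
  rw [coeff_weightedHomogeneousComponent, hwt]
  unfold inForm
  rw [coeff_sum]
  simp only [coeff_monomial]
  rw [Finset.sum_ite_eq' (face G w N) v]
  have hm : v ∈ face G w N ↔ v ∈ G.support ∧ MPb07157.wt w v = N := Finset.mem_filter
  by_cases h1 : MPb07157.wt w v = N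
  · rw [if_pos h1]
    by_cases h2 : v ∈ G.support
    · rw [if_pos (hm.2 ⟨h2, h1⟩)]
    · rw [if_neg (fun h3 : v ∈ face G w N => h2 (hm.1 h3).1)]
      exact (notMem_support_iff.1 h2).symm
  · rw [if_neg h1, if_neg (fun h3 : v ∈ face G w N => h1 (hm.1 h3).2)]

theorem ly_wt (w : Fin n → ℕ) (N e : ℕ) (v : Fin n →₀ ℕ) :
    MPb07157.wt (Fin.cons N fun j => e * w j : Fin (n + 1) → ℕ) (v.mapDomain Fin.succ) =
      e * MPb07157.wt w v := by
  unfold MPb07157.wt
  rw [Fin.sum_univ_succ]
  have e1 : (v.mapDomain Fin.succ) (0 : Fin (n + 1)) = 0 :=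
    Finsupp.mapDomain_of_notMem_range _ _ (by
      rintro ⟨x, hx⟩
      exact Fin.succ_ne_zero x hx)
  have e2 : ∀ i : Fin n, (v.mapDomain Fin.succ) i.succ = v i := fun i =>
    Finsupp.mapDomain_apply (Fin.succ_injective n) v i
  rw [e1, mul_zero, zero_add, Finset.mul_sum]
  refine Finset.sum_congr rfl fun i _ => ?_
  rw [e2, Fin.cons_succ, mul_assoc]

theorem ly_weight (w : Fin n → ℕ) (v : Fin n →₀ ℕ) : Finsupp.weight w v = MPb07157.wt w v := by
  unfold MPb07157.wt
  rw [Finsupp.weight_apply, Finsupp.sum_fintype _ _ fun _ => by simp]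
  exact Finset.sum_congr rfl fun i _ => by rw [smul_eq_mul, mul_comm]

theorem ly_whc {w : Fin n → ℕ} {N e : ℕ} (he : 0 < e) (G : MvPolynomial (Fin n) ℂ) :
    weightedHomogeneousComponent (Fin.cons N fun j => e * w j : Fin (n + 1) → ℕ) (e * N)
      (rename Fin.succ G) = rename Fin.succ (weightedHomogeneousComponent w N G) := by
  induction G using MvPolynomial.induction_on' with
  | add p q hp hq => rw [map_add, map_add, hp, hq, map_add, map_add]
  | monomial v a =>
    rw [rename_monomial]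
    have h1 : IsWeightedHomogeneous (Fin.cons N fun j => e * w j : Fin (n + 1) → ℕ)
        (monomial (v.mapDomain Fin.succ) a) (e * MPb07157.wt w v) :=
      isWeightedHomogeneous_monomial _ _ _ (by rw [ly_weight, ly_wt])
    have h2 : IsWeightedHomogeneous w (monomial v a) (MPb07157.wt w v) :=
      isWeightedHomogeneous_monomial _ _ _ (ly_weight w v)
    by_cases h : MPb07157.wt w v = N
    · rw [h] at h1 h2
      rw [h1.weightedHomogeneousComponent_same, h2.weightedHomogeneousComponent_same,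
        rename_monomial]
    · rw [h1.weightedHomogeneousComponent_ne (e * N) (fun h3 => h
        (Nat.eq_of_mul_eq_mul_left he h3.symm)), h2.weightedHomogeneousComponent_ne N
        (fun h3 => h h3.symm), map_zero]

theorem ly_pderiv_zero (P : MvPolynomial (Fin n) ℂ) :
    pderiv (0 : Fin (n + 1)) (rename Fin.succ P) = 0 := by
  induction P using MvPolynomial.induction_on with
  | C a => rw [rename_C, pderiv_C]
  | add p q hp hq => rw [map_add, map_add, hp, hq, add_zero]
  | mul_X p i hp =>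
    rw [map_mul, rename_X, pderiv_mul, hp, zero_mul, zero_add,
      pderiv_X_of_ne (Fin.succ_ne_zero i), mul_zero]

/-- `G(y) + x^e` is semi-quasi-homogeneous of level `e N` for the weights `N`, `e w_j`. -/
theorem rs_of_ly {G : MvPolynomial (Fin n) ℂ} {w : Fin n → ℕ} {N e : ℕ} (he : 0 < e)
    (hw : ∀ i, 0 < w i) (hwN : ∀ i, w i < N) (hN : 0 < N)
    (hge : ∀ v ∈ G.support, N ≤ MPb07157.wt w v)
    (hiso : ∀ c : Fin n → ℂ, c ≠ 0 →
      ∃ j, eval c (pderiv j (weightedHomogeneousComponent w N G)) ≠ 0) :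
    Rs (rename Fin.succ G + X 0 ^ e) (Fin.cons N fun j => e * w j) (e * N) := by
  have hX : IsWeightedHomogeneous (Fin.cons N fun j => e * w j : Fin (n + 1) → ℕ)
      (X 0 ^ e : MvPolynomial (Fin (n + 1)) ℂ) (e * N) := by
    have h1 : IsWeightedHomogeneous (Fin.cons N fun j => e * w j : Fin (n + 1) → ℕ)
        (X 0 : MvPolynomial (Fin (n + 1)) ℂ) N := isWeightedHomogeneous_X ℂ _ 0
    have h2 := h1.pow e
    rwa [smul_eq_mul] at h2
  have hI : inForm (rename Fin.succ G + X 0 ^ e) (face (rename Fin.succ G + X 0 ^ e)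
      (Fin.cons N fun j => e * w j) (e * N)) =
      rename Fin.succ (weightedHomogeneousComponent w N G) + X 0 ^ e := by
    rw [ly_inForm_face, map_add, ly_whc he, hX.weightedHomogeneousComponent_same]
  have hsucc : ∀ (c : Fin (n + 1) → ℂ), (fun l : Fin n => c l.succ) ≠ 0 → ∃ j : Fin n,
      eval c (pderiv j.succ (rename Fin.succ (weightedHomogeneousComponent w N G) +
        X 0 ^ e)) ≠ 0 := by
    intro c hc
    obtain ⟨j, hj⟩ := hiso _ hc
    refine ⟨j, ?_⟩
    rw [map_add, pderiv_rename (Fin.succ_injective n), pderiv_pow,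
      pderiv_X_of_ne (Fin.succ_ne_zero j).symm, mul_zero, add_zero, eval_rename]
    exact hj
  refine ⟨fun j => ?_, ?_, fun j => ?_, fun v hv => ?_, fun c hc => ?_, fun c hc h0 => ?_⟩
  · refine Fin.cases ?_ (fun l => ?_) j
    · exact hN
    · exact Nat.mul_pos he (hw l)
  · exact Nat.le_mul_of_pos_left N he
  · exact Nat.mul_lt_mul_of_pos_left (hwN j) he
  · classical
    rcases Finset.mem_union.1 (MvPolynomial.support_add hv) with h | h
    · rw [support_rename_of_injective (Fin.succ_injective n), Finset.mem_image] at h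
      obtain ⟨v', hv', rfl⟩ := h
      rw [ly_wt]
      exact Nat.mul_le_mul_left e (hge v' hv')
    · have h1 := hX (mem_support_iff.1 h)
      rw [ly_weight] at h1
      exact h1.ge
  · rw [hI]
    by_cases h : (fun l : Fin n => c l.succ) = 0
    · refine ⟨0, ?_⟩
      have hc0 : c 0 ≠ 0 := by
        intro h0
        apply hc
        funext i
        refine Fin.cases ?_ (fun l => ?_) i
        · exact h0
        · exact congrFun h l
      rw [map_add, ly_pderiv_zero, zero_add, pderiv_pow, pderiv_X_self, mul_one, map_mul,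
        map_pow, eval_X, map_natCast]
      exact mul_ne_zero (Nat.cast_ne_zero.2 he.ne') (pow_ne_zero _ hc0)
    · obtain ⟨j, hj⟩ := hsucc c h
      exact ⟨j.succ, hj⟩
  · rw [hI]
    refine hsucc c fun h => hc ?_
    funext i
    refine Fin.cases ?_ (fun l => ?_) i
    · exact h0
    · exact congrFun h l

end YV

end MPb07157
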