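import Pool.Agent.Lib.MP_b07157_agM.VDefs
import Pool.Agent.Lib.MP_b07157_agYV.Core
import Pool.Agent.Lib.MP_b07157_agYV.LY

/-!
# From the definitions of the class to the definitions of the proofs
-/

noncomputable section

namespace MPb07157

open MvPolynomial

namespace YV

variable {n : ℕ}

/-- The weighted homogeneous components as initial forms. -/
theorem inForm_face (G : MvPolynomial (Fin n) ℂ) (w : Fin n → ℕ) (N : ℕ) :
    inForm G (face G w N) = weightedHomogeneousComponent w N G := by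
  classical
  ext v
  have hwt : Finsupp.weight w v = MPb07157.wt w v := by
    unfold MPb07157.wt
    rw [Finsupp.weight_apply, Finsupp.sum_fintype _ _ fun _ => by simp]
    exact Finset.sum_congr rfl fun i _ => by rw [smul_eq_mul, mul_comm]
  rw [coeff_weightedHomogeneousComponent, hwt]
  unfold inForm
  rw [coeff_sum]
  simp only [coeff_monomial]
  rw [Finset.sum_ite_eq' (face G w N) v]
  have hm : v ∈ face G w N ↔ v ∈ G.support ∧ MPb07157.wt w v = N := Finset.mem_filter
  by_cases h1 : MPb07157.wt w v = N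
  · rw [if_pos h1]
    by_cases h2 : v ∈ G.support
    · rw [if_pos (hm.2 ⟨h2, h1⟩)]
    · rw [if_neg (fun h3 : v ∈ face G w N => h2 (hm.1 h3).1)]
      exact (notMem_support_iff.1 h2).symm
  · rw [if_neg h1, if_neg (fun h3 : v ∈ face G w N => h1 (hm.1 h3).2)]

theorem rs_of_relSqG {G : MvPolynomial (Fin (n + 1)) ℂ} {w : Fin (n + 1) → ℕ} {N : ℕ}
    (H : RelSqG G w N) : Rs G w N := by
  refine ⟨H.hw, H.hw0, H.hwN, H.ge, fun c hc => ?_, fun c hc h0 => ?_⟩
  · rw [inForm_face]
    exact H.iso c hc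
  · rw [inForm_face]
    exact H.rel c hc h0

theorem relAt_of_relSqPt {f : MvPolynomial (Fin (n + 1)) ℂ} {d : ℕ} {q : Fin (n + 1) → ℂ}
    (hlow : ∀ j < d, homogeneousComponent j f = 0) (h : RelSqPt f d q) : RelAt f d q := by
  obtain ⟨j₀, c, hc, h, G, w, N, E, u, v, h1, h2, h3, h4, h5⟩ := h
  have e1 : YG.hg f d (c • q) j₀ = h := by
    have h6 := YG.ChGaux.aeval_chP hlow (c • q) j₀
    have h7 : YG.chP (c • q) j₀ = fun i => X 0 *
        j₀.insertNth (α := fun _ => MvPolynomial (Fin (n + 1)) ℂ) 1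
        (fun l : Fin n => X l.succ + C (c * q (j₀.succAbove l))) i := rfl
    rw [h7, h1] at h6
    exact (mul_left_cancel₀ (pow_ne_zero d (X_ne_zero 0)) h6).symm
  refine ⟨j₀, c, hc, G, w, N, ?_, rs_of_relSqG h2, ?_⟩
  · rw [e1]
    exact ⟨E, u, v, h3, h4⟩
  · rcases h5 with h5 | h5
    · exact numV_of_le (h2.hw 0) h2.hwN (fun j => h2.hw j.succ) h5
    · exact h5

theorem relAt_of_sqPt {f : MvPolynomial (Fin (n + 1)) ℂ} {d e : ℕ} {q : Fin (n + 1) → ℂ}
    (hn : 0 < n) (he : 0 < e) (hmid : ∀ j, 0 < j → j < e → homogeneousComponent (d + j) f = 0)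
    (h : SqPt f d e q) : RelAt f d q := by
  obtain ⟨hne, j₀, c, hc, G, w, N, E, u, H, h1, h2⟩ := h
  have hc0 : c ≠ 0 := by
    rintro rfl
    rw [zero_mul] at hc
    exact zero_ne_one hc
  have hN : 0 < N := lt_of_le_of_lt (Nat.zero_le _) (H.hwN ⟨0, hn⟩)
  have hne' : eval (c • q) (homogeneousComponent (d + e) f) ≠ 0 := by
    rw [eval_smul_of_homog (homogeneousComponent_isHomogeneous (d + e) f)]
    exact mul_ne_zero (pow_ne_zero _ hc0) hne
  have H' := rs_of_ly (e := e) he H.hw H.hwN hN H.ge H.iso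
  refine ⟨j₀, c, hc, _, _, _, ueqV_of_ly he hmid hc hne' ⟨E, u, h1⟩, H', ?_⟩
  rcases h2 with h2 | h2
  · exact numV_of_le (H'.hw 0) H'.hwN (fun j => H'.hw j.succ) h2
  · intro j
    have h3 := h2 j
    have e1 : (Fin.cons N fun j => e * w j : Fin (n + 1) → ℕ) 0 = N := rfl
    have e2 : ∀ j : Fin n, (Fin.cons N fun j => e * w j : Fin (n + 1) → ℕ) j.succ = e * w j :=
      fun _ => rfl
    unfold De
    simp only [e1, e2]
    rw [← Finset.mul_sum]
    have h4 : 0 < N * e := Nat.mul_pos hN he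
    have h5 := Nat.mul_lt_mul_of_pos_left h3 h4
    calc (n + 1) * N * (e * N) + e * w j * (d * N + e * N)
        = N * e * ((n + 1) * N + (d + e) * w j) := by ring
      _ < N * e * (d * ∑ j, w j + (d + e) * N) := h5
      _ = _ := by ring

end YV

end MPb07157
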