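import Pool.Agent.Lib.MP_b07157_agYV.Defs
import Pool.Agent.Lib.MP_b07157_agYG.ResN

/-!
# The residue lemma at a semi-quasi-homogeneous point of the tangent cone
-/

noncomputable section

namespace MPb07157

open MvPolynomial TensorProduct

namespace YV

open PC SU SI YL

namespace ResVA

open YG.ResNA (ps ps_X cc_ps det_ps)

variable {B : Type} [CommRing B] [Algebra ℂ B]

/-- The images of the variables. -/
def im {n : ℕ} (w : Fin (n + 1) → ℕ) (T : Fin n → B) : Fin (n + 1) → MvPowerSeries Unit B :=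
  Fin.cons (MvPowerSeries.X () ^ w 0) fun j => MvPowerSeries.C (T j) *
    MvPowerSeries.X () ^ w j.succ

omit [Algebra ℂ B] in
theorem im_zero {n : ℕ} {w : Fin (n + 1) → ℕ} (hw : ∀ j, 0 < w j) (T : Fin n → B)
    (j : Fin (n + 1)) : MvPowerSeries.constantCoeff (im w T j) = 0 := by
  refine Fin.cases ?_ (fun j => ?_) j
  · show MvPowerSeries.constantCoeff (MvPowerSeries.X () ^ w 0 : MvPowerSeries Unit B) = 0
    rw [map_pow, MvPowerSeries.constantCoeff_X, zero_pow (hw 0).ne']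
  · show MvPowerSeries.constantCoeff (MvPowerSeries.C (T j) * MvPowerSeries.X () ^ w j.succ :
      MvPowerSeries Unit B) = 0
    rw [map_mul, map_pow, MvPowerSeries.constantCoeff_X, zero_pow (hw _).ne', mul_zero]

/-- The coefficient of a monomial. -/
def cv {n : ℕ} (G : MvPolynomial (Fin (n + 1)) ℂ) (T : Fin n → B) (v : Fin (n + 1) →₀ ℕ) : B :=
  algebraMap ℂ B (coeff v G) * ∏ j : Fin n, T j ^ v j.succ

/-- The image of `G`, divided by `t^N`. -/
def F1 {n : ℕ} (G : MvPolynomial (Fin (n + 1)) ℂ) (w : Fin (n + 1) → ℕ) (N : ℕ) (T : Fin n → B) :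
    MvPowerSeries Unit B :=
  ∑ v ∈ G.support, MvPowerSeries.X () ^ (MPb07157.wt w v - N) * MvPowerSeries.C (cv G T v)

theorem ps_G {n : ℕ} {w : Fin (n + 1) → ℕ} (hw : ∀ j, 0 < w j) (T : Fin n → B)
    {G : MvPolynomial (Fin (n + 1)) ℂ} {N : ℕ} (hge : ∀ v ∈ G.support, N ≤ MPb07157.wt w v) :
    ps (im_zero hw T) (G : MvPowerSeries (Fin (n + 1)) ℂ) =
      MvPowerSeries.X () ^ N * F1 G w N T := by
  have h1 : ps (im_zero hw T) (G : MvPowerSeries (Fin (n + 1)) ℂ) = aeval (im w T) G := by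
    unfold ps
    rw [MvPowerSeries.coe_substAlgHom, MvPowerSeries.subst_coe]
  rw [h1, aeval_def, eval₂_eq', F1, Finset.mul_sum]
  refine Finset.sum_congr rfl fun v hv => ?_
  have h2 : MPb07157.wt w v = w 0 * v 0 + ∑ j : Fin n, w j.succ * v j.succ := by
    unfold MPb07157.wt
    rw [Fin.sum_univ_succ]
  have h3 : (∏ i, im w T i ^ v i) = MvPowerSeries.X () ^ MPb07157.wt w v *
      MvPowerSeries.C (∏ j : Fin n, T j ^ v j.succ) := by
    rw [Fin.prod_univ_succ, h2, pow_add, pow_mul, ← Finset.prod_pow_eq_pow_sum, map_prod,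
      mul_assoc, ← Finset.prod_mul_distrib]
    congr 1
    refine Finset.prod_congr rfl fun j _ => ?_
    show (MvPowerSeries.C (T j) * MvPowerSeries.X () ^ w j.succ) ^ v j.succ = _
    rw [mul_pow, ← pow_mul, map_pow, mul_comm]
  have h4 : (algebraMap ℂ (MvPowerSeries Unit B)) (coeff v G) =
      MvPowerSeries.C (algebraMap ℂ B (coeff v G)) := by
    rw [MvPowerSeries.algebraMap_apply]
  rw [h3, h4, cv, map_mul, ← mul_assoc (MvPowerSeries.X () ^ N), ← pow_add,
    Nat.add_sub_cancel' (hge v hv)]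
  ring

theorem cc_F1 {n : ℕ} {w : Fin (n + 1) → ℕ} (T : Fin n → B)
    {G : MvPolynomial (Fin (n + 1)) ℂ} {N : ℕ} (hge : ∀ v ∈ G.support, N ≤ MPb07157.wt w v) :
    MvPowerSeries.constantCoeff (F1 G w N T) = aeval T (gT G w N) := by
  have h0 : aeval T (gT G w N) = aeval (Fin.cons 1 T : Fin (n + 1) → B)
      (inForm G (face G w N)) := by
    unfold gT
    rw [← AlgHom.comp_apply, comp_aeval]
    congr 2
    funext i
    refine Fin.cases ?_ (fun j => ?_) i
    · simp
    · simp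
  rw [h0, inForm, map_sum, F1, map_sum]
  have h1 : ∀ v ∈ G.support, MvPowerSeries.constantCoeff
      (MvPowerSeries.X () ^ (MPb07157.wt w v - N) * MvPowerSeries.C (cv G T v)) =
      if MPb07157.wt w v = N then cv G T v else 0 := by
    intro v hv
    rw [map_mul, map_pow, MvPowerSeries.constantCoeff_X, MvPowerSeries.constantCoeff_C]
    split_ifs with h
    · rw [h, Nat.sub_self, pow_zero, one_mul]
    · have := hge v hv
      rw [zero_pow (by omega), zero_mul]
  rw [Finset.sum_congr rfl h1, ← Finset.sum_filter]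
  refine Finset.sum_congr rfl fun v _ => ?_
  rw [aeval_monomial, cv, Finsupp.prod_fintype _ _ (fun i => pow_zero _), Fin.prod_univ_succ,
    Fin.cons_zero, one_pow, one_mul]
  rfl

/-- The matrix of the derivatives of the images. -/
theorem det_im {n : ℕ} {w : Fin (n + 1) → ℕ} {T : Fin n → B} {δ' : Fin n → Derivation ℂ B B}
    (hT : ∀ a b, δ' a (T b) = if a = b then 1 else 0) :
    (Matrix.of fun a j : Fin (n + 1) => ARL.rowD δ'
      ((Fin.cons (Sum.inl ()) Sum.inr : Fin (n + 1) → Unit ⊕ Fin n) a)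
        (im w T j)).det =
      (w 0 : MvPowerSeries Unit B) * MvPowerSeries.X () ^ w 0 *
        MvPowerSeries.X () ^ (∑ j : Fin n, w j.succ) := by
  classical
  set M := Matrix.of fun a j : Fin (n + 1) => ARL.rowD δ'
      ((Fin.cons (Sum.inl ()) Sum.inr : Fin (n + 1) → Unit ⊕ Fin n) a)
        (im w T j) with hM
  have e00 : M 0 0 = (w 0 : MvPowerSeries Unit B) * MvPowerSeries.X () ^ w 0 := by
    show ARL.lg () (MvPowerSeries.X () ^ w 0 : MvPowerSeries Unit B) = _
    rw [MvPowerSeries.X_pow_eq, ARL.lg_monomial, Finsupp.single_eq_same]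
  have ei0 : ∀ i : Fin n, M i.succ 0 = 0 := by
    intro i
    show ARL.cw (δ' i) (MvPowerSeries.X () ^ w 0 : MvPowerSeries Unit B) = _
    rw [MvPowerSeries.X_pow_eq, ARL.cw_monomial]
  have eij : ∀ i j : Fin n, M i.succ j.succ = if i = j then MvPowerSeries.X () ^ w j.succ
      else 0 := by
    intro i j
    show ARL.cw (δ' i) (MvPowerSeries.C (T j) * MvPowerSeries.X () ^ w j.succ :
      MvPowerSeries Unit B) = _
    have h0 : ARL.cw (δ' i) (MvPowerSeries.X () ^ w j.succ : MvPowerSeries Unit B) = 0 := by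
      rw [MvPowerSeries.X_pow_eq, ARL.cw_monomial]
    rw [Derivation.leibniz, ARL.cw_C, h0, smul_zero, zero_add, smul_eq_mul, hT]
    split_ifs with h
    · rw [(MvPowerSeries.C : B →+* MvPowerSeries Unit B).map_one, mul_one]
    · rw [(MvPowerSeries.C : B →+* MvPowerSeries Unit B).map_zero, mul_zero]
  have hup : M.BlockTriangular id := by
    intro i j hij
    revert hij
    refine Fin.cases ?_ (fun i => ?_) i
    · intro hij
      exact absurd hij (Fin.not_lt_zero _)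
    · refine Fin.cases ?_ (fun j => ?_) j
      · intro _
        exact ei0 i
      · intro hij
        rw [eij, if_neg]
        rintro rfl
        exact lt_irrefl _ hij
  rw [Matrix.det_of_isUpperTriangular hup, Fin.prod_univ_succ, e00,
    ← Finset.prod_pow_eq_pow_sum]
  congr 1
  refine Finset.prod_congr rfl fun i _ => ?_
  rw [eij, if_pos rfl]

end ResVA

variable {n : ℕ}

open ResVA YG.ResNA in
/-- **The residue lemma.** `x_0 = t^(w_0)`, `x_j = t^(w_j) T_j`; then `G = t^N (gT(T) + O(t))`,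
`f = t^(d w_0 + N) (U(0) gT(T) + O(t))`, and the Jacobian determinant (in `log t`) is
`± t^((n + 1) w_0 + ∑ w_j) (w_0 D(0) + O(t))`. As `YG.residue_nodeG` (`agYG/ResN.lean`). -/
theorem residueV {f : MvPolynomial (Fin (n + 1)) ℂ} {d : ℕ} {G : MvPolynomial (Fin (n + 1)) ℂ}
    {ξ : Fin (n + 1) → MvPowerSeries (Fin (n + 1)) ℂ} {U D : MvPowerSeries (Fin (n + 1)) ℂ}
    (hc : IsChartV f d G ξ U D) {w : Fin (n + 1) → ℕ} {N : ℕ} (hw : ∀ j, 0 < w j)
    (hge : ∀ v ∈ G.support, N ≤ MPb07157.wt w v) (hDN : 0 < De w d N) {s : ℂ}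
    (hs : s * ((De w d N : ℕ) : ℂ) = -((nu w : ℕ) : ℂ)) {b : Polynomial ℂ}
    (hb : InPs (f : MvPowerSeries (Fin (n + 1)) ℂ) 1
      (b.map (MvPowerSeries.C (σ := Fin (n + 1)) (R := ℂ)))) (hb0 : b.eval s ≠ 0)
    {B : Type} [CommRing B] [Algebra ℂ B]
    (δ' : Fin n → Derivation ℂ B B) {T : Fin n → B}
    {Q : Bˣ} (hQ : (Q : B) = aeval T (gT G w N)) (hT : ∀ a b, δ' a (T b) = if a = b then 1 else 0)
    (hδ' : ∀ a b x, δ' a (δ' b x) = δ' b (δ' a x)) :
    ∃ r : Fin n → B, (1 : B) =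
      ∑ a, (δ' a (r a) + algebraMap ℂ B s * (((Q⁻¹ : Bˣ) : B) * δ' a Q) * r a) := by
  classical
  have hz := ResVA.im_zero hw T
  set X' : MvPowerSeries Unit B := MvPowerSeries.X () with hX'
  have hps0 : ps hz (MvPowerSeries.X 0) = X' ^ w 0 := ps_X hz 0
  have hX0 : ∀ l, MvPowerSeries.constantCoeff (ps hz (MvPowerSeries.X 0 * ξ l)) = 0 :=
    fun l => by
      rw [cc_ps, map_mul, MvPowerSeries.constantCoeff_X, zero_mul, map_zero]
  -- the substitution
  have hθX : ∀ l, ps hX0 (MvPowerSeries.X l) = ps hz (MvPowerSeries.X 0 * ξ l) := ps_X hX0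
  have hθf : ps hX0 (f : MvPowerSeries (Fin (n + 1)) ℂ) =
      ps hz (MvPowerSeries.subst (fun i => MvPowerSeries.X 0 * ξ i)
        (f : MvPowerSeries (Fin (n + 1)) ℂ)) := by
    have h1 : ps hX0 (f : MvPowerSeries (Fin (n + 1)) ℂ) =
        aeval (fun l => ps hz (MvPowerSeries.X 0 * ξ l)) f := by
      unfold ps
      rw [MvPowerSeries.coe_substAlgHom, MvPowerSeries.subst_coe]
    rw [h1, MvPowerSeries.subst_coe]
    have h2 := comp_aeval (R := ℂ) (fun i => MvPowerSeries.X 0 * ξ i) (ps hz)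
    exact (DFunLike.congr_fun h2 f).symm
  have hVf : ps hX0 (f : MvPowerSeries (Fin (n + 1)) ℂ) =
      MvPowerSeries.monomial (Finsupp.single () (De w d N)) 1 *
        (F1 G w N T * ps hz U) := by
    rw [hθf, hc.hf, map_mul, map_mul, map_pow, hps0, ps_G hw T hge, ← MvPowerSeries.X_pow_eq,
      ← hX', De, pow_add, ← pow_mul, mul_comm (w 0) d]
    ring
  -- the unit
  set cU : ℂ := MvPowerSeries.constantCoeff U with hcU
  set cD : ℂ := MvPowerSeries.constantCoeff D with hcD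
  have hcU0 : cU ≠ 0 := hc.hU
  have hcD0 : cD ≠ 0 := hc.hD
  let φ₀ : Bˣ := Units.map (algebraMap ℂ B).toMonoidHom (Units.mk0 cU hcU0)
  let φ : Bˣ := Q * φ₀
  have hφ1 : (φ : B) = Q * algebraMap ℂ B cU := rfl
  have hφ : MvPowerSeries.constantCoeff (F1 G w N T * ps hz U) = (φ : B) := by
    rw [map_mul, cc_F1 T hge, ← hQ, cc_ps, hφ1]
  have hlog : ∀ a, ((φ⁻¹ : Bˣ) : B) * δ' a φ = ((Q⁻¹ : Bˣ) : B) * δ' a Q := by
    intro a
    have h1 : ((φ⁻¹ : Bˣ) : B) = ((Q⁻¹ : Bˣ) : B) * ((φ₀⁻¹ : Bˣ) : B) := by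
      have h5 : φ⁻¹ = Q⁻¹ * φ₀⁻¹ := _root_.mul_inv Q φ₀
      rw [h5, Units.val_mul]
    have h2 : ((φ₀⁻¹ : Bˣ) : B) * algebraMap ℂ B cU = 1 := Units.inv_mul φ₀
    rw [hφ1, Derivation.leibniz, Derivation.map_algebraMap, smul_zero, zero_add, smul_eq_mul, h1]
    linear_combination (((Q⁻¹ : Bˣ) : B) * δ' a Q) * h2
  -- the Jacobian
  have hdet : (ARL.jm (fun l => ARL.rowD δ'
      ((Fin.cons (Sum.inl ()) Sum.inr : Fin (n + 1) → Unit ⊕ Fin n) l))
        fun l => ps hX0 (MvPowerSeries.X l)).det =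
      MvPowerSeries.monomial (Finsupp.single () (nu w)) 1 *
        ((w 0 : MvPowerSeries Unit B) * ps hz D) := by
    rw [funext hθX, det_ps hz, ResVA.det_im hT, hc.hdet, map_mul, map_pow, hps0,
      ← MvPowerSeries.X_pow_eq, ← hX', nu]
    ring
  have hDC : ((De w d N : ℕ) : ℂ) ≠ 0 := by exact_mod_cast hDN.ne'
  have hs1 : s = -(((nu w : ℕ) : ℂ) / ((De w d N : ℕ) : ℂ)) := by
    rw [← neg_div, eq_div_iff hDC]
    exact hs
  obtain ⟨r, hr⟩ := ARL.residue_corner (τ := Unit) (β := Fin n)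
    (Fin.cons (Sum.inl ()) Sum.inr : Fin (n + 1) → Unit ⊕ Fin n) hδ' (θ := ps hX0)
    (fun l => by rw [hθX]; exact hX0 l) hVf hφ (ν := nu w)
    (D := De w d N) hDN hs1 (Mon := ∅) (M := fun _ => 0) (by simp)
    (l := fun _ => 0) hdet (fun j => by
      rw [Finsupp.single_apply, Finsupp.single_apply, if_pos (Subsingleton.elim _ _),
        if_pos (Subsingleton.elim _ _), Finset.sum_empty, add_zero]
      linear_combination hs) (j₀ := ()) (by
      rw [Finsupp.single_eq_same]; exact hDN) (by simp) hb hb0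
  -- the constant coefficient
  have hw0 : (w 0 : ℂ) ≠ 0 := Nat.cast_ne_zero.2 (hw 0).ne'
  have hleft : algebraMap ℂ B ((w 0 * cD)⁻¹) *
      MvPowerSeries.constantCoeff ((w 0 : MvPowerSeries Unit B) * ps hz D :
        MvPowerSeries Unit B) = 1 := by
    have h3 : ((w 0 : MvPowerSeries Unit B) * ps hz D : MvPowerSeries Unit B) =
        ps hz ((w 0 : MvPowerSeries (Fin (n + 1)) ℂ) * D) := by
      rw [map_mul, map_natCast]
    rw [h3, cc_ps, map_mul, map_natCast, ← hcD, ← map_mul,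
      inv_mul_cancel₀ (mul_ne_zero hw0 hcD0), map_one]
  refine ⟨fun a => algebraMap ℂ B ((w 0 * cD)⁻¹) * r a, ?_⟩
  rw [← hleft, hr, Finset.mul_sum]
  refine Finset.sum_congr rfl fun a _ => ?_
  rw [Derivation.leibniz, Derivation.map_algebraMap, smul_zero, add_zero, smul_eq_mul, hlog]
  ring

end YV

end MPb07157
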