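import Pool.Agent.Lib.MP_b07157_agYA.Tc
import Pool.Agent.Lib.MP_b07157_agYV.Conv

/-!
# Germs whose tangent cone has double points or semi-quasi-homogeneous points
-/

noncomputable section

namespace MPb07157

open MvPolynomial

/-- **Germs whose tangent cone has double points or semi-quasi-homogeneous points.** -/
theorem SmcLoc.of_tanConeV {k : ℕ} {f : MvPolynomial (Fin (k + 1)) ℂ} {d e : ℕ}
    (hf : TanConeV f d e) (hc : TRoot f d) : SmcLoc f := by
  obtain ⟨t, rfl⟩ := Nat.exists_eq_add_of_le' hf.hk
  have hd := hf.hd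
  have hsq := YM.FinSing.squarefree (by omega) hf.fin
  have hF0 := hsq.ne_zero
  have hf0 : f ≠ 0 := by
    rintro rfl
    exact hF0 (map_zero _)
  have h00 : coeff 0 f = 0 := by
    have h1 := hf.low 0 (by omega)
    rw [homogeneousComponent_zero] at h1
    exact C_eq_zero.1 h1
  have hroot := YM.tRoot hd hf.fin hc
  have hrel : ∀ q, SqPt f d e q ∨ RelSqPt f d q → YV.RelAt f d q := by
    rintro q (h | h)
    · exact YV.relAt_of_sqPt (by omega) hf.he hf.mid h
    · exact YV.relAt_of_relSqPt hf.low h
  rcases Nat.eq_zero_or_pos t with ht | ht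
  · subst ht
    have hf2 : YV.IsTC3V f d e := by
      refine ⟨hf.low, hf.mid, hsq, fun q hq hs => ?_⟩
      rcases hf.sing q ⟨hq, hs⟩ with h | ⟨h1, h2⟩ | ⟨_, h⟩ | h
      · exact Or.inl (Or.inr (Or.inl h))
      · refine Or.inl (Or.inr (Or.inr ⟨by omega, ?_⟩))
        by_contra hcon
        push Not at hcon
        have h3 : YG.hessAt (homogeneousComponent d f) q = 0 := by
          ext i j
          exact hcon i j
        rw [h3, Matrix.rank_zero] at h2
        omega
      · exact Or.inl (Or.inl h)
      · exact Or.inr (hrel q h)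
    refine fun _ _ hp _ hb => YV.smc_tc3V (by omega) hf.he hf2 (fun _ => ?_) hp hb
    rcases hroot with h | h | h
    · exact Or.inl h
    · refine Or.inr (Or.inl ?_)
      simpa using h
    · refine Or.inr (Or.inr ?_)
      simpa using h
  · have hfG : YV.IsTCNV f d := by
      refine ⟨ht, hd, hf.low, hf.fin, fun q hq hs => ?_⟩
      rcases hf.sing q ⟨hq, hs⟩ with h | ⟨h1, h2⟩ | ⟨h, _⟩ | h
      · exact Or.inl h
      · exact Or.inr (Or.inl ⟨h1, h2⟩)
      · omega
      · exact Or.inr (Or.inr (hrel q h))
    intro s₀ _ hp b hb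
    by_cases hs1 : s₀ = -1
    · subst hs1
      exact neg_one_root hf0 (by rwa [notMem_support_iff]) b hb
    refine YV.smc_tcNV hfG (fun hs => ?_) hp hb
    rcases hroot with h | h | h
    · exfalso
      apply hs1
      have h7 : ((t : ℚ) + 3) ≠ 0 := by positivity
      rw [hs, h]
      push_cast
      rw [div_self h7]
    · exact Or.inl h
    · exact Or.inr h

end MPb07157
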