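import Pool.Agent.Lib.MP_b07157_ag.NewtDefs
import Pool.Agent.Lib.MP_b07157_agI.KosB

/-!
# Homogeneous Koszul relations
-/

noncomputable section

namespace MPb07157

open MvPolynomial

namespace YV

variable {n : ℕ}

/-- The part of `c` with exponents satisfying `P`. -/
def KhV.cut (P : (Fin n →₀ ℕ) → Prop) [DecidablePred P] (c : MvPolynomial (Fin n) ℂ) :
    MvPolynomial (Fin n) ℂ :=
  ∑ v ∈ c.support.filter P, monomial v (coeff v c)

theorem KhV.coeff_cut (P : (Fin n →₀ ℕ) → Prop) [DecidablePred P] (c : MvPolynomial (Fin n) ℂ)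
    (p : Fin n →₀ ℕ) : coeff p (KhV.cut P c) = if P p then coeff p c else 0 := by
  classical
  unfold KhV.cut
  rw [coeff_sum]
  simp only [coeff_monomial]
  rw [Finset.sum_ite_eq']
  by_cases hp : P p
  · by_cases hc : coeff p c = 0
    · rw [hc]
      split_ifs <;> rfl
    · rw [if_pos (Finset.mem_filter.2 ⟨mem_support_iff.2 hc, hp⟩), if_pos hp]
  · rw [if_neg fun h => hp (Finset.mem_filter.1 h).2, if_neg hp]

theorem KhV.weight_eq (w : Fin n → ℕ) (v : Fin n →₀ ℕ) : Finsupp.weight w v = MPb07157.wt w v := by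
  rw [Finsupp.weight_apply, Finsupp.sum_fintype _ _ fun _ => by simp]
  exact Finset.sum_congr rfl fun i _ => by simp [mul_comm]

theorem KhV.wt_add (w : Fin n → ℕ) (u v : Fin n →₀ ℕ) :
    MPb07157.wt w (u + v) = MPb07157.wt w u + MPb07157.wt w v := by
  rw [← KhV.weight_eq, ← KhV.weight_eq, ← KhV.weight_eq, map_add]

/-- The relations between the partial derivatives of an isolated weighted homogeneous singularity are
Koszul relations, with homogeneous coefficients: `MPb07157I.exists_power`,
`MPb07157I.koszul_of_powers` (as in `nonEx_of_isolated`, `agI/SqR3.lean`), then the homogeneous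
components of the coefficients (zero if the weight is negative). -/
theorem koszul_hom {w : Fin n → ℕ} {N : ℕ} (hw : ∀ i, 0 < w i) (hwN : ∀ i, w i < N)
    {H : MvPolynomial (Fin n) ℂ} (hH : H.IsWeightedHomogeneous w N)
    (hiso : ∀ c : Fin n → ℂ, c ≠ 0 → ∃ j, eval c (pderiv j H) ≠ 0)
    {R : Fin n → MvPolynomial (Fin n) ℂ} {b : ℕ}
    (hR : ∀ i, ∀ v ∈ (R i).support, MPb07157.wt w v + (N - w i) = b)
    (h : ∑ i, R i * pderiv i H = 0) :
    ∃ κ : Fin n → Fin n → MvPolynomial (Fin n) ℂ, (∀ i j, κ i j = -κ j i) ∧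
      (∀ i j, ∀ v ∈ (κ i j).support, MPb07157.wt w v + (N - w i) + (N - w j) = b) ∧
      ∀ i, R i = ∑ j, κ i j * pderiv j H := by
  classical
  have hy : ∀ j, ∀ v, coeff v (pderiv j H) ≠ 0 → MPb07157.wt w v = N - w j := by
    intro j v hv
    have h1 : (pderiv j H).IsWeightedHomogeneous w (N - w j) := by
      refine IsWeightedHomogeneous.pderiv hH ?_
      have := hwN j
      omega
    have h2 := h1 hv
    rw [KhV.weight_eq] at h2
    exact h2
  obtain ⟨M, hM⟩ := MPb07157I.exists_power (y := fun i => pderiv i H) (by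
    intro p hp
    by_contra hne
    obtain ⟨j, hj⟩ := hiso p hne
    exact hj (hp j))
  obtain ⟨κ, hκ, -, hκ2⟩ := MPb07157I.koszul_of_powers hM h
  refine ⟨fun i j => KhV.cut (fun v => MPb07157.wt w v + (N - w i) + (N - w j) = b) (κ i j),
    ?_, ?_, ?_⟩
  · intro i j
    ext v
    rw [coeff_neg, KhV.coeff_cut, KhV.coeff_cut, hκ i j, coeff_neg]
    by_cases hv : MPb07157.wt w v + (N - w i) + (N - w j) = b
    · rw [if_pos hv, if_pos (by omega)]
    · rw [if_neg hv, if_neg (by omega), neg_zero]
  · intro i j v hv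
    by_contra hne
    rw [mem_support_iff, KhV.coeff_cut, if_neg hne] at hv
    exact hv rfl
  · intro i
    ext v
    by_cases hv : MPb07157.wt w v + (N - w i) = b
    · rw [hκ2 i, coeff_sum, coeff_sum]
      refine Finset.sum_congr rfl fun j _ => ?_
      rw [coeff_mul, coeff_mul]
      refine Finset.sum_congr rfl fun p hp => ?_
      by_cases h0 : coeff p.2 (pderiv j H) = 0
      · rw [h0, mul_zero, mul_zero]
      · have h2 : p.1 + p.2 = v := Finset.HasAntidiagonal.mem_antidiagonal.1 hp
        have h3 := hy j p.2 h0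
        have h4 := KhV.wt_add w p.1 p.2
        rw [h2, h3] at h4
        rw [KhV.coeff_cut, if_pos (by omega)]
    · have h1 : coeff v (R i) = 0 := by
        by_contra hne
        exact hv (hR i v (mem_support_iff.2 hne))
      rw [h1, coeff_sum]
      symm
      refine Finset.sum_eq_zero fun j _ => ?_
      rw [coeff_mul]
      refine Finset.sum_eq_zero fun p hp => ?_
      by_cases h0 : coeff p.2 (pderiv j H) = 0
      · rw [h0, mul_zero]
      · have h2 : p.1 + p.2 = v := Finset.HasAntidiagonal.mem_antidiagonal.1 hp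
        have h3 := hy j p.2 h0
        have h4 := KhV.wt_add w p.1 p.2
        rw [h2, h3] at h4
        rw [KhV.coeff_cut, if_neg (by omega), zero_mul]

end YV

end MPb07157
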