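import Pool.Agent.Lib.MP_b07157_agYV.TopV
import Pool.Agent.Lib.MP_b07157_agYV.KhV
import Pool.Agent.Lib.MP_b07157_agI.SqR3

/-!
# The top parts come from trivial solutions
-/

noncomputable section

namespace MPb07157

open MvPolynomial

namespace YV

variable {n : ℕ}

/-! ### Sums over antisymmetric families -/

private theorem dd_zero {c : Fin n → Fin n → MvPolynomial (Fin n) ℂ} (hc : ∀ i j, c i j = -c j i) :
    ∑ i, ∑ j, pderiv i (pderiv j (c i j)) = 0 := by
  have h4 : ∑ i, ∑ j, pderiv i (pderiv j (c i j)) = -∑ i, ∑ j, pderiv i (pderiv j (c i j)) := by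
    conv_lhs => rw [Finset.sum_comm]
    rw [← Finset.sum_neg_distrib]
    refine Finset.sum_congr rfl fun j _ => ?_
    rw [← Finset.sum_neg_distrib]
    refine Finset.sum_congr rfl fun i _ => ?_
    rw [hc i j, map_neg, map_neg, Sq.pderiv_comm i j]
  have h5 : (2 : MvPolynomial (Fin n) ℂ) * ∑ i, ∑ j, pderiv i (pderiv j (c i j)) = 0 := by
    linear_combination h4
  exact (mul_eq_zero.1 h5).resolve_left two_ne_zero

private theorem cross_neg {c : Fin n → Fin n → MvPolynomial (Fin n) ℂ}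
    (hc : ∀ i j, c i j = -c j i) (g : MvPolynomial (Fin n) ℂ) :
    ∑ i, ∑ j, pderiv i (c i j) * pderiv j g = -∑ i, ∑ j, pderiv j (c i j) * pderiv i g := by
  conv_lhs => rw [Finset.sum_comm]
  rw [← Finset.sum_neg_distrib]
  refine Finset.sum_congr rfl fun j _ => ?_
  rw [← Finset.sum_neg_distrib]
  refine Finset.sum_congr rfl fun i _ => ?_
  rw [hc i j, map_neg]
  ring

private theorem sum_dd_g {c : Fin n → Fin n → MvPolynomial (Fin n) ℂ}
    (hc : ∀ i j, c i j = -c j i) (g : MvPolynomial (Fin n) ℂ) :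
    ∑ i, ∑ j, c i j * pderiv i (pderiv j g) = 0 :=
  Sq.antisymm_sum hc fun i j => Sq.pderiv_comm i j g

private theorem sum_gg {c : Fin n → Fin n → MvPolynomial (Fin n) ℂ}
    (hc : ∀ i j, c i j = -c j i) (g : MvPolynomial (Fin n) ℂ) :
    ∑ i, ∑ j, c i j * (pderiv j g * pderiv i g) = 0 :=
  Sq.antisymm_sum hc fun i j => mul_comm _ _

/-- The trivial solutions of `g div e + (s + 1) e · ∂g = 0`. -/
theorem triv_one {g : MvPolynomial (Fin n) ℂ} {s : ℂ} {c : Fin n → Fin n → MvPolynomial (Fin n) ℂ}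
    (hc : ∀ i j, c i j = -c j i) :
    g * ∑ i, pderiv i (∑ j, (g * pderiv j (c i j) + C (s + 2) * c i j * pderiv j g)) +
      C (s + 1) * ∑ i, (∑ j, (g * pderiv j (c i j) + C (s + 2) * c i j * pderiv j g)) *
        pderiv i g = 0 := by
  have h1 : ∑ i, pderiv i (∑ j, (g * pderiv j (c i j) + C (s + 2) * c i j * pderiv j g)) =
      g * ∑ i, ∑ j, pderiv i (pderiv j (c i j)) + ∑ i, ∑ j, pderiv j (c i j) * pderiv i g +
        C (s + 2) * (∑ i, ∑ j, c i j * pderiv i (pderiv j g) +
          ∑ i, ∑ j, pderiv i (c i j) * pderiv j g) := by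
    rw [Finset.mul_sum, ← Finset.sum_add_distrib, ← Finset.sum_add_distrib, Finset.mul_sum,
      ← Finset.sum_add_distrib]
    refine Finset.sum_congr rfl fun i _ => ?_
    rw [map_sum, Finset.mul_sum, ← Finset.sum_add_distrib, ← Finset.sum_add_distrib,
      Finset.mul_sum, ← Finset.sum_add_distrib]
    refine Finset.sum_congr rfl fun j _ => ?_
    rw [map_add, pderiv_mul, mul_assoc, pderiv_C_mul, pderiv_mul]
    ring
  have h2 : ∑ i, (∑ j, (g * pderiv j (c i j) + C (s + 2) * c i j * pderiv j g)) * pderiv i g =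
      g * ∑ i, ∑ j, pderiv j (c i j) * pderiv i g +
        C (s + 2) * ∑ i, ∑ j, c i j * (pderiv j g * pderiv i g) := by
    rw [Finset.mul_sum, Finset.mul_sum, ← Finset.sum_add_distrib]
    refine Finset.sum_congr rfl fun i _ => ?_
    rw [Finset.sum_mul, Finset.mul_sum, Finset.mul_sum, ← Finset.sum_add_distrib]
    exact Finset.sum_congr rfl fun j _ => by ring
  rw [h1, h2, dd_zero hc, sum_dd_g hc, cross_neg hc, sum_gg hc]
  have h3 : (C (s + 2) : MvPolynomial (Fin n) ℂ) = C (s + 1) + 1 := by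
    rw [← C_1, ← C_add]
    congr 1
    ring
  rw [h3]
  ring

/-- The trivial solutions `e_a = ∑_b μ_ab ∂_b g`, `∑_b ∂_b μ_ab = 0`. -/
theorem triv_two {g : MvPolynomial (Fin n) ℂ} {μ : Fin n → Fin n → MvPolynomial (Fin n) ℂ}
    (hμ : ∀ i j, μ i j = -μ j i) (hμ2 : ∀ i, ∑ j, pderiv j (μ i j) = 0) :
    ∑ i, pderiv i (∑ j, μ i j * pderiv j g) = 0 ∧
      ∑ i, (∑ j, μ i j * pderiv j g) * pderiv i g = 0 := by
  constructor
  · have h1 : ∑ i, pderiv i (∑ j, μ i j * pderiv j g) =
        ∑ i, ∑ j, μ i j * pderiv i (pderiv j g) + ∑ i, ∑ j, pderiv i (μ i j) * pderiv j g := by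
      rw [← Finset.sum_add_distrib]
      refine Finset.sum_congr rfl fun i _ => ?_
      rw [map_sum, ← Finset.sum_add_distrib]
      refine Finset.sum_congr rfl fun j _ => ?_
      rw [pderiv_mul]
      ring
    have h2 : ∑ i, ∑ j, pderiv j (μ i j) * pderiv i g = 0 := by
      refine Finset.sum_eq_zero fun i _ => ?_
      rw [← Finset.sum_mul, hμ2 i, zero_mul]
    rw [h1, sum_dd_g hμ, cross_neg hμ, h2]
    ring
  · have h1 : ∑ i, (∑ j, μ i j * pderiv j g) * pderiv i g =
        ∑ i, ∑ j, μ i j * (pderiv j g * pderiv i g) := by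
      refine Finset.sum_congr rfl fun i _ => ?_
      rw [Finset.sum_mul]
      exact Finset.sum_congr rfl fun j _ => by ring
    rw [h1, sum_gg hμ]

/-! ### Weights -/

private theorem wt_add (w : Fin n → ℕ) (u v : Fin n →₀ ℕ) :
    MPb07157.wt w (u + v) = MPb07157.wt w u + MPb07157.wt w v := by
  unfold MPb07157.wt
  rw [← Finset.sum_add_distrib]
  exact Finset.sum_congr rfl fun j _ => by rw [Finsupp.add_apply, mul_add]

private theorem wt_single (w : Fin n → ℕ) (i : Fin n) :
    MPb07157.wt w (Finsupp.single i 1) = w i := by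
  classical
  unfold MPb07157.wt
  rw [Finset.sum_eq_single i]
  · rw [Finsupp.single_eq_same, mul_one]
  · intro j _ hj
    rw [Finsupp.single_eq_of_ne hj, mul_zero]
  · intro h
    exact absurd (Finset.mem_univ i) h

private theorem weight_eq (w : Fin n → ℕ) (v : Fin n →₀ ℕ) :
    Finsupp.weight w v = MPb07157.wt w v := by
  rw [Finsupp.weight_apply, Finsupp.sum_fintype v (fun i c => c • w i) (by simp)]
  unfold MPb07157.wt
  exact Finset.sum_congr rfl fun i _ => by rw [smul_eq_mul, mul_comm]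

/-- All monomials have weight `b - a`. -/
private def SW (w : Fin n → ℕ) (a b : ℕ) (P : MvPolynomial (Fin n) ℂ) : Prop :=
  ∀ v ∈ P.support, MPb07157.wt w v + a = b

/-- All monomials have weight less than `b - a`. -/
private def SL (w : Fin n → ℕ) (a b : ℕ) (P : MvPolynomial (Fin n) ℂ) : Prop :=
  ∀ v ∈ P.support, MPb07157.wt w v + a < b

variable {w : Fin n → ℕ} {a b a' b' : ℕ} {P Q : MvPolynomial (Fin n) ℂ}

private theorem SW.add (h : SW w a b P) (h' : SW w a b Q) : SW w a b (P + Q) := by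
  classical
  intro v hv
  rcases Finset.mem_union.1 (support_add hv) with h1 | h1
  · exact h v h1
  · exact h' v h1

private theorem SW.C_mul (h : SW w a b P) (c : ℂ) : SW w a b (C c * P) := by
  intro v hv
  apply h v
  rw [mem_support_iff] at hv ⊢
  intro h0
  rw [coeff_C_mul, h0, mul_zero] at hv
  exact hv rfl

private theorem SW.neg (h : SW w a b P) : SW w a b (-P) := by
  intro v hv
  apply h v
  rwa [support_neg] at hv

private theorem SW.sub (h : SW w a b P) (h' : SW w a b Q) : SW w a b (P - Q) := by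
  rw [sub_eq_add_neg]
  exact h.add h'.neg

private theorem SW.sum {ι : Type} {s : Finset ι} {u : ι → MvPolynomial (Fin n) ℂ}
    (h : ∀ i ∈ s, SW w a b (u i)) : SW w a b (∑ i ∈ s, u i) := by
  classical
  intro v hv
  obtain ⟨i, hi, hvi⟩ := Finset.mem_biUnion.1 (support_sum hv)
  exact h i hi v hvi

private theorem SW.pderiv (h : SW w a b P) (i : Fin n) : SW w (a + w i) b (pderiv i P) := by
  classical
  intro v hv
  have h1 : v + Finsupp.single i 1 ∈ P.support := by
    rw [mem_support_iff] at hv ⊢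
    intro h0
    rw [coeff_pderiv, h0, zero_mul] at hv
    exact hv rfl
  have h2 := h _ h1
  rw [wt_add, wt_single] at h2
  omega

private theorem SW.X_mul {i : Fin n} (h : SW w (a + w i) b P) : SW w a b (X i * P) := by
  classical
  intro v hv
  rw [mem_support_iff, mul_comm, coeff_mul_X'] at hv
  split_ifs at hv with h1
  · have h2 := h _ (mem_support_iff.2 hv)
    have h3 : v = (v - Finsupp.single i 1) + Finsupp.single i 1 := by
      rw [tsub_add_cancel_of_le]
      rw [Finsupp.single_le_iff]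
      exact Nat.pos_of_ne_zero (Finsupp.mem_support_iff.1 h1)
    rw [h3, wt_add, wt_single]
    omega
  · exact absurd rfl hv

private theorem SL.add (h : SL w a b P) (h' : SL w a b Q) : SL w a b (P + Q) := by
  classical
  intro v hv
  rcases Finset.mem_union.1 (support_add hv) with h1 | h1
  · exact h v h1
  · exact h' v h1

private theorem SL.C_mul (h : SL w a b P) (c : ℂ) : SL w a b (C c * P) := by
  intro v hv
  apply h v
  rw [mem_support_iff] at hv ⊢
  intro h0
  rw [coeff_C_mul, h0, mul_zero] at hv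
  exact hv rfl

private theorem SL.neg (h : SL w a b P) : SL w a b (-P) := by
  intro v hv
  apply h v
  rwa [support_neg] at hv

private theorem SL.sub (h : SL w a b P) (h' : SL w a b Q) : SL w a b (P - Q) := by
  rw [sub_eq_add_neg]
  exact h.add h'.neg

private theorem SL.sum {ι : Type} {s : Finset ι} {u : ι → MvPolynomial (Fin n) ℂ}
    (h : ∀ i ∈ s, SL w a b (u i)) : SL w a b (∑ i ∈ s, u i) := by
  classical
  intro v hv
  obtain ⟨i, hi, hvi⟩ := Finset.mem_biUnion.1 (support_sum hv)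
  exact h i hi v hvi

private theorem SL.pderiv (h : SL w a b P) (i : Fin n) : SL w (a + w i) b (pderiv i P) := by
  classical
  intro v hv
  have h1 : v + Finsupp.single i 1 ∈ P.support := by
    rw [mem_support_iff] at hv ⊢
    intro h0
    rw [coeff_pderiv, h0, zero_mul] at hv
    exact hv rfl
  have h2 := h _ h1
  rw [wt_add, wt_single] at h2
  omega

private theorem SL.mul (h : SL w a b P) (h' : SW w a' b' Q) : SL w (a + a') (b + b') (P * Q) := by
  classical
  intro v hv
  obtain ⟨u, hu, u', hu', rfl⟩ := Finset.mem_add.1 (support_mul P Q hv)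
  have h1 := h u hu
  have h2 := h' u' hu'
  rw [wt_add]
  omega

private theorem SL.conv (h : SL w a b P) {k : ℕ} (ha : a = a' + k) (hb : b = b' + k) :
    SL w a' b' P := by
  intro v hv
  have := h v hv
  omega

/-- Euler's identity for a complex weight (the polynomial is zero if this is not a weight). -/
private theorem euler_c {β : ℂ} (h : ∀ v ∈ P.support, (MPb07157.wt w v : ℂ) = β) :
    ∑ i, C (w i : ℂ) * (X i * pderiv i P) = C β * P := by
  by_cases hP : P = 0
  · simp [hP]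
  obtain ⟨v, hv⟩ := support_nonempty.2 hP
  have h1 : P.IsWeightedHomogeneous w (MPb07157.wt w v) := by
    intro u hu
    rw [weight_eq]
    have h2 : (MPb07157.wt w u : ℂ) = (MPb07157.wt w v : ℂ) :=
      (h u (mem_support_iff.2 hu)).trans (h v hv).symm
    exact_mod_cast h2
  rw [Sq.euler_w h1, h v hv]

/-- **The top parts come from trivial solutions.** Let `E` be homogeneous with
`H div E + (s + 1) E · ∂H = 0`, `H` the part of weight `N` of `g`. Put `D = div E` (weight `b - N`).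
By Euler's identity `∑_a (N (s + 1) E_a + w_a x_a D) ∂_a H = 0`, so
`N (s + 1) E_a + w_a x_a D = ∑_b κ_ab ∂_b H` (`koszul_hom`). Let `ρ_b = ∑_a ∂_a κ_ab`; it has weight
`b - 2 N + w_b`, and `∑_b ∂_b ρ_b = 0`. The divergence gives `c D = ∑_b ρ_b ∂_b H`,
`c = ∑ w_j + b - N + (s + 1) N ≠ 0`. Let `η_ab = w_a x_a ρ_b - w_b x_b ρ_a`. Then
`∑_b ∂_b κ_ab = -ρ_a`, `∑_b ∂_b η_ab = -(∑ w_j + b - 2 N) ρ_a`,
`∑_b η_ab ∂_b H = c w_a x_a D - N H ρ_a`.
If `s + 2 ≠ 0` let `c_ab = x κ_ab + y η_ab`, `x = 1 / ((s + 2) (s + 1) N)`, `y = -x / c`; then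
`∑_b (H ∂_b c_ab + (s + 2) c_ab ∂_b H) = E_a`, and `e_a = ∑_b (g ∂_b c_ab + (s + 2) c_ab ∂_b g)` is
a solution by `triv_one`. If `s = -2` let `μ_ab = κ_ab - η_ab / c`; then `∑_b ∂_b μ_ab = 0`,
`E_a = H ρ_a / c - ∑_b μ_ab ∂_b H / N`, and `e_a = g ρ_a / c - ∑_b μ_ab ∂_b g / N` is a solution. -/
theorem exists_triv {g : MvPolynomial (Fin n) ℂ} {w : Fin n → ℕ} {N : ℕ} (hw : ∀ i, 0 < w i)
    (hwN : ∀ i, w i < N) (hle : ∀ v ∈ g.support, MPb07157.wt w v ≤ N)
    (hiso : ∀ c : Fin n → ℂ, c ≠ 0 →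
      ∃ j, eval c (pderiv j (weightedHomogeneousComponent w N g)) ≠ 0)
    {s : ℂ} (hs1 : s + 1 ≠ 0) {b : ℕ} (hnr : (b : ℂ) - N + ∑ j, (w j : ℂ) + (s + 1) * N ≠ 0)
    {E : Fin n → MvPolynomial (Fin n) ℂ}
    (hE : ∀ i, ∀ v ∈ (E i).support, MPb07157.wt w v + (N - w i) = b)
    (heq : weightedHomogeneousComponent w N g * ∑ i, pderiv i (E i) +
      C (s + 1) * ∑ i, E i * pderiv i (weightedHomogeneousComponent w N g) = 0) :
    ∃ e : Fin n → MvPolynomial (Fin n) ℂ,
      g * ∑ i, pderiv i (e i) + C (s + 1) * ∑ i, e i * pderiv i g = 0 ∧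
      ∀ i, ∀ v ∈ (e i - E i).support, MPb07157.wt w v + (N - w i) < b := by
  classical
  rcases Nat.eq_zero_or_pos n with hn | hn
  · subst hn
    exact ⟨E, by simp, fun i => i.elim0⟩
  have hN : 0 < N := lt_of_le_of_lt (Nat.zero_le _) (hwN ⟨0, hn⟩)
  have hNc : (N : ℂ) ≠ 0 := by exact_mod_cast hN.ne'
  obtain ⟨H, hHdef⟩ : ∃ H, H = weightedHomogeneousComponent w N g := ⟨_, rfl⟩
  simp only [← hHdef] at heq hiso
  have hHw : H.IsWeightedHomogeneous w N := by
    rw [hHdef]
    exact weightedHomogeneousComponent_isWeightedHomogeneous N g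
  have hgH : SL w 0 N (g - H) := by
    intro v hv
    rw [mem_support_iff, coeff_sub, hHdef, coeff_weightedHomogeneousComponent, weight_eq] at hv
    split_ifs at hv with h1
    · exact absurd (sub_self _) hv
    · have h2 : coeff v g ≠ 0 := by
        intro h0
        rw [h0, sub_zero] at hv
        exact hv rfl
      have h3 := hle v (mem_support_iff.2 h2)
      omega
  obtain ⟨D, hD⟩ : ∃ D, D = ∑ i, pderiv i (E i) := ⟨_, rfl⟩
  rw [← hD] at heq
  have hE' : ∀ i, SW w (N - w i) b (E i) := hE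
  have hDw : SW w N b D := by
    rw [hD]
    refine SW.sum fun i _ => ?_
    have := (hE' i).pderiv i
    rwa [Nat.sub_add_cancel (hwN i).le] at this
  have hDe : ∑ i, C (w i : ℂ) * (X i * pderiv i D) = C ((b : ℂ) - N) * D := by
    refine euler_c fun v hv => ?_
    have h1 : (MPb07157.wt w v : ℂ) + N = b := by exact_mod_cast hDw v hv
    rw [← h1]
    ring
  have hHe := Sq.euler_w hHw
  obtain ⟨W, hW⟩ : ∃ W : ℂ, W = ∑ j, (w j : ℂ) := ⟨_, rfl⟩
  have hWC : ∑ j, (C (w j : ℂ) : MvPolynomial (Fin n) ℂ) = C W := by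
    rw [hW, map_sum]
  rw [← hW] at hnr
  -- the field `R`
  obtain ⟨R, hR⟩ : ∃ R : Fin n → MvPolynomial (Fin n) ℂ,
      ∀ i, R i = C (N * (s + 1)) * E i + C (w i : ℂ) * (X i * D) := ⟨_, fun _ => rfl⟩
  have hRw : ∀ i, SW w (N - w i) b (R i) := by
    intro i
    rw [hR]
    refine ((hE' i).C_mul _).add (SW.C_mul (SW.X_mul ?_) _)
    rwa [Nat.sub_add_cancel (hwN i).le]
  have hR0 : ∑ i, R i * pderiv i H = 0 := by
    have h1 : ∑ i, R i * pderiv i H = C (N * (s + 1)) * ∑ i, E i * pderiv i H +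
        D * ∑ i, C (w i : ℂ) * (X i * pderiv i H) := by
      rw [Finset.mul_sum, Finset.mul_sum, ← Finset.sum_add_distrib]
      exact Finset.sum_congr rfl fun i _ => by rw [hR]; ring
    rw [h1, hHe, C_mul]
    linear_combination (C (N : ℂ)) * heq
  obtain ⟨κ, hκ, hκw, hκR⟩ := koszul_hom hw hwN hHw hiso hRw hR0
  have hκw' : ∀ i j, SW w ((N - w i) + (N - w j)) b (κ i j) := by
    intro i j v hv
    have := hκw i j v hv
    omega
  obtain ⟨ρ, hρ⟩ : ∃ ρ : Fin n → MvPolynomial (Fin n) ℂ, ∀ j, ρ j = ∑ i, pderiv i (κ i j) :=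
    ⟨_, fun _ => rfl⟩
  have hρw : ∀ j, SW w (N + (N - w j)) b (ρ j) := by
    intro j
    rw [hρ]
    refine SW.sum fun i _ => ?_
    have h1 := (hκw' i j).pderiv i
    have h2 := hwN i
    have h3 : N - w i + (N - w j) + w i = N + (N - w j) := by omega
    rwa [h3] at h1
  have e1 : ∀ i, ∑ j, pderiv j (κ i j) = -ρ i := by
    intro i
    rw [hρ, ← Finset.sum_neg_distrib]
    exact Finset.sum_congr rfl fun j _ => by rw [hκ i j, map_neg]
  have e2 : ∑ j, pderiv j (ρ j) = 0 := by
    have h1 : ∑ j, pderiv j (ρ j) = ∑ i, ∑ j, pderiv i (pderiv j (κ i j)) := by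
      rw [Finset.sum_comm]
      refine Finset.sum_congr rfl fun j _ => ?_
      rw [hρ, map_sum]
      exact Finset.sum_congr rfl fun i _ => Sq.pderiv_comm _ _ _
    rw [h1, dd_zero hκ]
  obtain ⟨cc, hcc⟩ : ∃ cc : ℂ, cc = (b : ℂ) - N + W + (s + 1) * N := ⟨_, rfl⟩
  rw [← hcc] at hnr
  have hccC : (C cc : MvPolynomial (Fin n) ℂ) = C (b : ℂ) - C (N : ℂ) + C W +
      (C s + 1) * C (N : ℂ) := by
    rw [hcc, C_add, C_add, C_sub, C_mul, C_add, C_1]
  have e3 : C cc * D = ∑ j, ρ j * pderiv j H := by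
    have h1 : ∑ i, pderiv i (R i) = C cc * D := by
      have h2 : ∑ i, pderiv i (R i) = C (N * (s + 1)) * ∑ i, pderiv i (E i) +
          ((∑ i, C (w i : ℂ)) * D + ∑ i, C (w i : ℂ) * (X i * pderiv i D)) := by
        rw [Finset.mul_sum, Finset.sum_mul, ← Finset.sum_add_distrib, ← Finset.sum_add_distrib]
        refine Finset.sum_congr rfl fun i _ => ?_
        rw [hR, map_add, pderiv_C_mul, pderiv_C_mul, pderiv_mul, pderiv_X_self]
        ring
      rw [h2, hDe, ← hD, hWC, hccC, C_mul, C_add, C_sub, C_1]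
      ring
    have h3 : ∑ i, pderiv i (R i) = ∑ i, ∑ j, κ i j * pderiv i (pderiv j H) +
        ∑ i, ∑ j, pderiv i (κ i j) * pderiv j H := by
      rw [← Finset.sum_add_distrib]
      refine Finset.sum_congr rfl fun i _ => ?_
      rw [hκR, map_sum, ← Finset.sum_add_distrib]
      refine Finset.sum_congr rfl fun j _ => ?_
      rw [pderiv_mul]
      ring
    rw [← h1, h3, sum_dd_g hκ, zero_add, Finset.sum_comm]
    refine Finset.sum_congr rfl fun j _ => ?_
    rw [hρ, Finset.sum_mul]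
  -- the family `η`
  obtain ⟨η, hη⟩ : ∃ η : Fin n → Fin n → MvPolynomial (Fin n) ℂ,
      ∀ i j, η i j = C (w i : ℂ) * (X i * ρ j) - C (w j : ℂ) * (X j * ρ i) := ⟨_, fun _ _ => rfl⟩
  have hηa : ∀ i j, η i j = -η j i := by
    intro i j
    rw [hη, hη]
    ring
  have hηw : ∀ i j, SW w ((N - w i) + (N - w j)) b (η i j) := by
    intro i j
    have hi := hwN i
    have hj := hwN j
    rw [hη]
    refine (SW.C_mul (SW.X_mul ?_) _).sub (SW.C_mul (SW.X_mul ?_) _)
    · have h1 := hρw j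
      have h2 : N + (N - w j) = N - w i + (N - w j) + w i := by omega
      rwa [h2] at h1
    · have h1 := hρw i
      have h2 : N + (N - w i) = N - w i + (N - w j) + w j := by omega
      rwa [h2] at h1
  have e4 : ∀ i, ∑ j, pderiv j (η i j) = -(C (W + b - 2 * N) * ρ i) := by
    intro i
    have h1 : ∑ j, pderiv j (η i j) = C (w i : ℂ) * (X i * ∑ j, pderiv j (ρ j) +
        ∑ j, ρ j * pderiv j (X i)) - (∑ j, C (w j : ℂ) * (X j * pderiv j (ρ i)) +
          (∑ j, C (w j : ℂ)) * ρ i) := by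
      rw [Finset.mul_sum, Finset.sum_mul, ← Finset.sum_add_distrib, ← Finset.sum_add_distrib,
        Finset.mul_sum, ← Finset.sum_sub_distrib]
      refine Finset.sum_congr rfl fun j _ => ?_
      rw [hη, map_sub, pderiv_C_mul, pderiv_C_mul, pderiv_mul, pderiv_mul, pderiv_X_self]
      ring
    have h2 : ∑ j, ρ j * pderiv j (X i) = ρ i := by
      rw [Finset.sum_eq_single i]
      · rw [pderiv_X_self, mul_one]
      · intro j _ hj
        rw [pderiv_X_of_ne hj.symm, mul_zero]
      · intro h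
        exact absurd (Finset.mem_univ i) h
    have h3 : ∑ j, C (w j : ℂ) * (X j * pderiv j (ρ i)) = C ((b : ℂ) - 2 * N + w i) * ρ i := by
      refine euler_c fun v hv => ?_
      have h4 := hρw i v hv
      have h5 := hwN i
      have h6 : MPb07157.wt w v + 2 * N = b + w i := by omega
      have h7 : (MPb07157.wt w v : ℂ) + 2 * N = b + w i := by exact_mod_cast h6
      linear_combination h7
    rw [h1, h2, h3, e2, hWC]
    simp only [C_add, C_sub, C_mul]
    ring
  have e5 : ∀ i, ∑ j, η i j * pderiv j H = C (w i : ℂ) * (X i * (C cc * D)) -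
      C (N : ℂ) * (H * ρ i) := by
    intro i
    have h1 : ∑ j, η i j * pderiv j H = C (w i : ℂ) * (X i * ∑ j, ρ j * pderiv j H) -
        ρ i * ∑ j, C (w j : ℂ) * (X j * pderiv j H) := by
      rw [Finset.mul_sum, Finset.mul_sum, Finset.mul_sum, ← Finset.sum_sub_distrib]
      exact Finset.sum_congr rfl fun j _ => by rw [hη]; ring
    rw [h1, ← e3, hHe]
    ring
  have hκR' : ∀ i, ∑ j, κ i j * pderiv j H = C (N : ℂ) * ((C s + 1) * E i) +
      C (w i : ℂ) * (X i * D) := by
    intro i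
    rw [← hκR, hR, C_mul, C_add, C_1]
    ring
  by_cases hs2 : s + 2 = 0
  · -- `s = -2`
    have hs : s = -2 := by linear_combination hs2
    obtain ⟨μ, hμ⟩ : ∃ μ : Fin n → Fin n → MvPolynomial (Fin n) ℂ,
        ∀ i j, μ i j = κ i j - C cc⁻¹ * η i j := ⟨_, fun _ _ => rfl⟩
    have hμa : ∀ i j, μ i j = -μ j i := by
      intro i j
      rw [hμ, hμ, hκ i j, hηa i j]
      ring
    have hμw : ∀ i j, SW w ((N - w i) + (N - w j)) b (μ i j) := by
      intro i j
      rw [hμ]
      exact (hκw' i j).sub ((hηw i j).C_mul _)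
    have hc1 : (C cc⁻¹ : MvPolynomial (Fin n) ℂ) * C cc = 1 := by
      rw [← C_mul, inv_mul_cancel₀ hnr, C_1]
    have hN1 : (C (N : ℂ)⁻¹ : MvPolynomial (Fin n) ℂ) * C (N : ℂ) = 1 := by
      rw [← C_mul, inv_mul_cancel₀ hNc, C_1]
    have hccw : cc = W + b - 2 * N := by
      rw [hcc, hs]
      ring
    have hμ2 : ∀ i, ∑ j, pderiv j (μ i j) = 0 := by
      intro i
      have h1 : ∑ j, pderiv j (μ i j) = ∑ j, pderiv j (κ i j) - C cc⁻¹ * ∑ j, pderiv j (η i j) := by
        rw [Finset.mul_sum, ← Finset.sum_sub_distrib]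
        exact Finset.sum_congr rfl fun j _ => by rw [hμ, map_sub, pderiv_C_mul]
      rw [h1, e1, e4, ← hccw]
      linear_combination (ρ i) * hc1
    obtain ⟨t1, t2⟩ := triv_two (g := g) hμa hμ2
    have hEi : ∀ i, E i = H * (C cc⁻¹ * ρ i) - C (N : ℂ)⁻¹ * ∑ j, μ i j * pderiv j H := by
      intro i
      have h1 : ∑ j, μ i j * pderiv j H = ∑ j, κ i j * pderiv j H -
          C cc⁻¹ * ∑ j, η i j * pderiv j H := by
        rw [Finset.mul_sum, ← Finset.sum_sub_distrib]
        exact Finset.sum_congr rfl fun j _ => by rw [hμ]; ring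
      have h2 : (C s : MvPolynomial (Fin n) ℂ) + 1 = -1 := by
        rw [hs, ← C_1, ← C_add, ← C_neg]
        congr 1
        norm_num
      rw [h1, hκR', e5, h2]
      linear_combination (-(E i) + C cc⁻¹ * (H * ρ i)) * hN1 -
        (C (N : ℂ)⁻¹ * (C (w i : ℂ) * (X i * D))) * hc1
    refine ⟨fun i => g * (C cc⁻¹ * ρ i) - C (N : ℂ)⁻¹ * ∑ j, μ i j * pderiv j g, ?_, ?_⟩
    · have h1 : ∑ i, pderiv i (g * (C cc⁻¹ * ρ i) - C (N : ℂ)⁻¹ * ∑ j, μ i j * pderiv j g) =
          C cc⁻¹ * (g * ∑ i, pderiv i (ρ i) + ∑ i, ρ i * pderiv i g) -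
            C (N : ℂ)⁻¹ * ∑ i, pderiv i (∑ j, μ i j * pderiv j g) := by
        rw [Finset.mul_sum, Finset.mul_sum, ← Finset.sum_add_distrib, Finset.mul_sum,
          ← Finset.sum_sub_distrib]
        refine Finset.sum_congr rfl fun i _ => ?_
        rw [map_sub, pderiv_mul, pderiv_C_mul, pderiv_C_mul]
        ring
      have h2 : ∑ i, (g * (C cc⁻¹ * ρ i) - C (N : ℂ)⁻¹ * ∑ j, μ i j * pderiv j g) * pderiv i g =
          g * (C cc⁻¹ * ∑ i, ρ i * pderiv i g) -
            C (N : ℂ)⁻¹ * ∑ i, (∑ j, μ i j * pderiv j g) * pderiv i g := by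
        rw [Finset.mul_sum, Finset.mul_sum, Finset.mul_sum, ← Finset.sum_sub_distrib]
        exact Finset.sum_congr rfl fun i _ => by ring
      have h3 : (C (s + 1) : MvPolynomial (Fin n) ℂ) = -1 := by
        rw [hs, ← C_1, ← C_neg]
        congr 1
        norm_num
      rw [h1, h2, t1, t2, e2, h3]
      ring
    · intro i
      have h1 : g * (C cc⁻¹ * ρ i) - C (N : ℂ)⁻¹ * ∑ j, μ i j * pderiv j g - E i =
          C cc⁻¹ * ((g - H) * ρ i) - C (N : ℂ)⁻¹ * ∑ j, pderiv j (g - H) * μ i j := by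
        have h2 : ∑ j, pderiv j (g - H) * μ i j =
            ∑ j, μ i j * pderiv j g - ∑ j, μ i j * pderiv j H := by
          rw [← Finset.sum_sub_distrib]
          exact Finset.sum_congr rfl fun j _ => by rw [map_sub]; ring
        rw [h2, hEi i]
        ring
      have h3 : SL w (N - w i) b (C cc⁻¹ * ((g - H) * ρ i) -
          C (N : ℂ)⁻¹ * ∑ j, pderiv j (g - H) * μ i j) := by
        have hi := hwN i
        refine (SL.C_mul ?_ _).sub (SL.C_mul (SL.sum fun j _ => ?_) _)
        · exact (hgH.mul (hρw i)).conv (k := N) (by omega) (by omega)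
        · have hj := hwN j
          exact ((hgH.pderiv j).mul (hμw i j)).conv (k := N) (by omega) (by omega)
      intro v hv
      rw [h1] at hv
      exact h3 v hv
  · obtain ⟨x, hx⟩ : ∃ x : ℂ, x = 1 / ((s + 2) * (s + 1) * N) := ⟨_, rfl⟩
    have hx1 : (s + 2) * (s + 1) * N * x = 1 := by
      rw [hx, mul_one_div_cancel]
      exact mul_ne_zero (mul_ne_zero hs2 hs1) hNc
    obtain ⟨y, hy⟩ : ∃ y : ℂ, y = -x / cc := ⟨_, rfl⟩
    have hy1 : x + y * cc = 0 := by
      rw [hy, div_mul_cancel₀ _ hnr]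
      ring
    have hxC : ((C s : MvPolynomial (Fin n) ℂ) + 2) * (C s + 1) * C (N : ℂ) * C x = 1 := by
      have h0 := congrArg (C : ℂ → MvPolynomial (Fin n) ℂ) hx1
      simpa only [C_mul, C_add, C_1, map_ofNat] using h0
    have hyC : (C x : MvPolynomial (Fin n) ℂ) + C y * C cc = 0 := by
      rw [← C_mul, ← C_add, hy1, C_0]
    have hs2C : (C (s + 2) : MvPolynomial (Fin n) ℂ) = C s + 2 := by
      simp only [C_add, map_ofNat]
    obtain ⟨q, hq⟩ : ∃ q : Fin n → Fin n → MvPolynomial (Fin n) ℂ,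
        ∀ i j, q i j = C x * κ i j + C y * η i j := ⟨_, fun _ _ => rfl⟩
    have hqa : ∀ i j, q i j = -q j i := by
      intro i j
      rw [hq, hq, hκ i j, hηa i j]
      ring
    have hqw : ∀ i j, SW w ((N - w i) + (N - w j)) b (q i j) := by
      intro i j
      rw [hq]
      exact ((hκw' i j).C_mul _).add ((hηw i j).C_mul _)
    have hEi : ∀ i, E i = ∑ j, (H * pderiv j (q i j) + C (s + 2) * q i j * pderiv j H) := by
      intro i
      have h1 : ∑ j, (H * pderiv j (q i j) + C (s + 2) * q i j * pderiv j H) =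
          H * (C x * ∑ j, pderiv j (κ i j) + C y * ∑ j, pderiv j (η i j)) +
            C (s + 2) * (C x * ∑ j, κ i j * pderiv j H + C y * ∑ j, η i j * pderiv j H) := by
        rw [Finset.mul_sum, Finset.mul_sum, ← Finset.sum_add_distrib, Finset.mul_sum,
          Finset.mul_sum, Finset.mul_sum, ← Finset.sum_add_distrib, Finset.mul_sum,
          ← Finset.sum_add_distrib]
        refine Finset.sum_congr rfl fun j _ => ?_
        rw [hq, map_add, pderiv_C_mul, pderiv_C_mul]
        ring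
      have h2 : (C (W + b - 2 * N) : MvPolynomial (Fin n) ℂ) = C W + C (b : ℂ) - 2 * C (N : ℂ) := by
        simp only [C_add, C_sub, C_mul, map_ofNat]
      rw [h1, e1, e4, hκR', e5, hs2C, h2]
      rw [hccC] at hyC ⊢
      linear_combination (H * ρ i - (C s + 2) * (C (w i : ℂ) * (X i * D))) * hyC - (E i) * hxC
    refine ⟨fun i => ∑ j, (g * pderiv j (q i j) + C (s + 2) * q i j * pderiv j g),
      triv_one hqa, ?_⟩
    intro i
    have h1 : ∑ j, (g * pderiv j (q i j) + C (s + 2) * q i j * pderiv j g) - E i =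
        ∑ j, (g - H) * pderiv j (q i j) + C (s + 2) * ∑ j, pderiv j (g - H) * q i j := by
      rw [hEi i, ← Finset.sum_sub_distrib, Finset.mul_sum, ← Finset.sum_add_distrib]
      exact Finset.sum_congr rfl fun j _ => by rw [map_sub]; ring
    have h3 : SL w (N - w i) b (∑ j, (g - H) * pderiv j (q i j) +
        C (s + 2) * ∑ j, pderiv j (g - H) * q i j) := by
      have hi := hwN i
      refine (SL.sum fun j _ => ?_).add (SL.C_mul (SL.sum fun j _ => ?_) _)
      · have hj := hwN j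
        exact (hgH.mul ((hqw i j).pderiv j)).conv (k := N) (by omega) (by omega)
      · have hj := hwN j
        exact ((hgH.pderiv j).mul (hqw i j)).conv (k := N) (by omega) (by omega)
    intro v hv
    rw [h1] at hv
    exact h3 v hv

end YV

end MPb07157
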