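import Pool.Agent.Lib.MP_b07157_agYG.Defs
import Pool.Agent.Lib.MP_b07157_agI.SqP3

/-!
# Semi-quasi-homogeneous points of the tangent cone: definitions

`n + 1` is the number of variables; the variable `X 0` is the equation of the exceptional divisor.
-/

noncomputable section

namespace MPb07157

open MvPolynomial

namespace YV

open SI

/-- `G` is semi-quasi-homogeneous of level `N` for the weights `w`, relative to the hyperplane
`x_0 = 0`: the part of weight `N` of `G` and its restriction to `x_0 = 0` have no critical points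
outside the origin. -/
structure Rs {n : ℕ} (G : MvPolynomial (Fin (n + 1)) ℂ) (w : Fin (n + 1) → ℕ) (N : ℕ) : Prop where
  hw : ∀ j, 0 < w j
  hw0 : w 0 ≤ N
  hwN : ∀ j : Fin n, w j.succ < N
  ge : ∀ v ∈ G.support, N ≤ MPb07157.wt w v
  iso : ∀ c : Fin (n + 1) → ℂ, c ≠ 0 → ∃ j, eval c (pderiv j (inForm G (face G w N))) ≠ 0
  rel : ∀ c : Fin (n + 1) → ℂ, c ≠ 0 → c 0 = 0 →
    ∃ j : Fin n, eval c (pderiv j.succ (inForm G (face G w N))) ≠ 0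

/-- `h` is `G`, up to a unit and a formal change of coordinates which preserves the hyperplane
`x_0 = 0`. -/
def UEqV {n : ℕ} (h : MvPowerSeries (Fin (n + 1)) ℂ) (G : MvPolynomial (Fin (n + 1)) ℂ) : Prop :=
  ∃ (E : MvPowerSeries (Fin (n + 1)) ℂ ≃ₐ[ℂ] MvPowerSeries (Fin (n + 1)) ℂ)
    (u v : (MvPowerSeries (Fin (n + 1)) ℂ)ˣ),
    h = u * E (G : MvPowerSeries (Fin (n + 1)) ℂ) ∧ E (MvPowerSeries.X 0) = MvPowerSeries.X 0 *
      (v : MvPowerSeries (Fin (n + 1)) ℂ)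

/-- The numerator of the candidate pole at the point: `(n + 1) w_0 + ∑_{j ≥ 1} w_j`. -/
def nu {n : ℕ} (w : Fin (n + 1) → ℕ) : ℕ := (n + 1) * w 0 + ∑ j : Fin n, w j.succ

/-- The denominator: `d w_0 + N`. -/
def De {n : ℕ} (w : Fin (n + 1) → ℕ) (d N : ℕ) : ℕ := d * w 0 + N

/-- `1/L`. -/
def li : Mot := ↑(LU⁻¹)

/-! ### The arcs with `ord x_0 = k` and maximal weighted order -/

/-- `⌈w_j k / w_0⌉`. -/
def rA {n : ℕ} (w : Fin (n + 1) → ℕ) (k : ℕ) (j : Fin (n + 1)) : ℕ := Sq.cei (w 0) (w j * k)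

/-- `w_0 r_j - w_j k`. -/
def dA {n : ℕ} (w : Fin (n + 1) → ℕ) (k : ℕ) (j : Fin (n + 1)) : ℕ := w 0 * rA w k j - w j * k

/-- `⌈k N / w_0⌉`. -/
def MA {n : ℕ} (w : Fin (n + 1) → ℕ) (N k : ℕ) : ℕ := Sq.cei (w 0) (k * N)

/-- `w_0 M - k N`. -/
def KA {n : ℕ} (w : Fin (n + 1) → ℕ) (N k : ℕ) : ℕ := w 0 * MA w N k - k * N

/-- `c_0 ≠ 0`. -/
def UA (n : ℕ) : Set (Fin (n + 1) → ℂ) := {c | c 0 ≠ 0}

/-- The series of these arcs. -/
def aA {n : ℕ} (G : MvPolynomial (Fin (n + 1)) ℂ) (w : Fin (n + 1) → ℕ) (N k i : ℕ) : Mot :=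
  Sq.aP G (rA w k) (MA w N k) (UA n) i

/-! ### The arcs with `ord x_0 = k` and smaller weighted order -/

/-- The orders: `k`, and `⌈w_j p / W⌉` for `j ≥ 1`, `W = ∏ w_j`. -/
def rB {n : ℕ} (w : Fin (n + 1) → ℕ) (k p : ℕ) : Fin (n + 1) → ℕ :=
  Fin.cons k fun j : Fin n => Sq.rP w p j.succ

/-- `W r_j - w_j p`. -/
def dB {n : ℕ} (w : Fin (n + 1) → ℕ) (k p : ℕ) (j : Fin (n + 1)) : ℕ :=
  Sq.Wt w * rB w k p j - w j * p

/-- `c_0 ≠ 0`, and there is a `j ≥ 1` with `W ∣ w_j p` and `c_j ≠ 0`. -/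
def UB {n : ℕ} (w : Fin (n + 1) → ℕ) (p : ℕ) : Set (Fin (n + 1) → ℂ) :=
  {c | c 0 ≠ 0 ∧ ∃ j : Fin n, Sq.dP w p j.succ = 0 ∧ c j.succ ≠ 0}

/-- The series of these arcs. -/
def aB {n : ℕ} (G : MvPolynomial (Fin (n + 1)) ℂ) (w : Fin (n + 1) → ℕ) (N k p i : ℕ) : Mot :=
  Sq.aP G (rB w k p) (Sq.MP w N p) (UB w p) i

/-- The part which does not depend on `k`. -/
def bB {n : ℕ} (G : MvPolynomial (Fin (n + 1)) ℂ) (w : Fin (n + 1) → ℕ) (N p i : ℕ) : Mot :=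
  (LU : Mot) ^ (w 0 * p + 1) * aB G w N (w 0 * p + 1) p i

/-! ### Charts -/

/-- A chart `x ↦ x_0 ξ(x)` in which `f = x_0^d G U`. -/
structure IsChartV {n : ℕ} (f : MvPolynomial (Fin (n + 1)) ℂ) (d : ℕ)
    (G : MvPolynomial (Fin (n + 1)) ℂ)
    (ξ : Fin (n + 1) → MvPowerSeries (Fin (n + 1)) ℂ) (U D : MvPowerSeries (Fin (n + 1)) ℂ) :
    Prop where
  hU : MvPowerSeries.constantCoeff U ≠ 0
  hD : MvPowerSeries.constantCoeff D ≠ 0
  hf : (MvPowerSeries.subst (fun i => MvPowerSeries.X 0 * ξ i)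
    (f : MvPowerSeries (Fin (n + 1)) ℂ) : MvPowerSeries (Fin (n + 1)) ℂ) =
      MvPowerSeries.X 0 ^ d * ((G : MvPowerSeries (Fin (n + 1)) ℂ) * U)
  hdet : (Matrix.of fun i j : Fin (n + 1) => MvPowerSeries.pderiv ℂ j
    (MvPowerSeries.X 0 * ξ i : MvPowerSeries (Fin (n + 1)) ℂ)).det =
      MvPowerSeries.X 0 ^ n * D

/-- The restriction of the part of weight `N` of `G` to `x_0 = 1`. -/
def gT {n : ℕ} (G : MvPolynomial (Fin (n + 1)) ℂ) (w : Fin (n + 1) → ℕ) (N : ℕ) :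
    MvPolynomial (Fin n) ℂ :=
  aeval (Fin.cons 1 X : Fin (n + 1) → MvPolynomial (Fin n) ℂ) (inForm G (face G w N))

end YV

end MPb07157
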