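import Pool.Agent.Lib.MP_b07157_agYV.MeaN

/-!
# The measure of the arcs with `ord x_0 = k`
-/

noncomputable section

namespace MPb07157

open MvPolynomial

namespace YV

variable {n : ℕ} {G : MvPolynomial (Fin (n + 1)) ℂ} {w : Fin (n + 1) → ℕ} {N : ℕ}

namespace MeaAux

/-- The measure of the arcs with given leading coefficients. -/
theorem measure_gu {m : ℕ} {f : MvPolynomial (Fin m) ℂ} {w : Fin m → ℕ} {N W p : ℕ}
    {r d : Fin m → ℕ} {M K : ℕ} {S : Finset (Fin m)} {U : Set (Fin m → ℂ)}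
    (h : NumR w N W p r d M K S) (hge : ∀ v ∈ f.support, N ≤ MPb07157.wt w v)
    (hU : Gu f w N d S U) {L i : ℕ} (hiL : i ≤ L) (hr : M ≤ i → ∀ j, r j < L + 1) :
    ↑((LU ^ (m * (L + 1)))⁻¹) * clsM (arcs f (L + 1) i ∩ Sq.LA (L + 1) r U) =
      Sq.aP f r M U i := by
  by_cases hne : U.Nonempty
  · have hmin := h.isMinWt hge hU hne
    by_cases hm : i < M
    · have h1 : arcs f (L + 1) i ∩ Sq.LA (L + 1) r U = ∅ := by
        rw [Set.eq_empty_iff_forall_notMem]
        rintro γ ⟨h2, h3, -⟩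
        rw [mem_arcs_iff] at h2
        exact h2.1 (coeff_Fv_of_lt hmin h3 hm)
      rw [h1]
      unfold Sq.aP clsM
      rw [cls_empty, map_zero, mul_zero, if_pos hm, mul_zero]
    · exact Sq.measure_LA hmin (hr (not_lt.1 hm)) hU.con (fun c hc _ => h.nd hge hU hc)
        (Nat.lt_succ_of_le hiL)
  · have h0 : U = ∅ := Set.not_nonempty_iff_eq_empty.1 hne
    have h1 : arcs f (L + 1) i ∩ Sq.LA (L + 1) r U = ∅ := by
      rw [Set.eq_empty_iff_forall_notMem]
      rintro γ ⟨h2, h3, h4⟩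
      rw [h0] at h4
      exact h4
    have h2 : Sq.YU f r M (∅ : Set (Fin m → ℂ)) = ∅ := by
      rw [Set.eq_empty_iff_forall_notMem]
      rintro c ⟨h, -⟩
      exact h
    have h3 : Sq.XU f r M (∅ : Set (Fin m → ℂ)) = ∅ := by
      rw [Set.eq_empty_iff_forall_notMem]
      rintro c ⟨h, -⟩
      exact h
    unfold Sq.aP
    rw [h1, h0, h2, h3]
    unfold clsM
    simp only [cls_empty, map_zero, mul_zero, zero_mul, ite_self]

theorem rA_zero (hw0 : 0 < w 0) (k : ℕ) : rA w k 0 = k := by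
  unfold rA
  exact Sq.cei_eq hw0 le_rfl (by omega)

theorem lt_cei {W x l : ℕ} (hW : 0 < W) : l < Sq.cei W x ↔ W * l < x := by
  have h := Sq.cei_spec hW x
  constructor
  · intro h1
    have h2 : W * (l + 1) ≤ W * Sq.cei W x := Nat.mul_le_mul_left _ h1
    rw [Nat.mul_add, mul_one] at h2
    omega
  · intro h1
    by_contra h2
    have h3 : W * Sq.cei W x ≤ W * l := Nat.mul_le_mul_left _ (not_lt.1 h2)
    omega

theorem mem_A {L k : ℕ} (hw0 : 0 < w 0) (hkL : k ≤ L) {γ : Fin (n + 1) × Fin (L + 1) → ℂ} :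
    γ ∈ Sq.LA (L + 1) (rA w k) (UA n) ↔
      (∀ q ∈ Finset.univ.filter (fun q : Fin (n + 1) × Fin (L + 1) => w 0 * (q.2 : ℕ) < w q.1 * k),
        γ q = 0) ∧ γ (0, ⟨k, Nat.lt_succ_of_le hkL⟩) ≠ 0 := by
  have h0 : lead0 (rA w k) γ 0 = γ (0, ⟨k, Nat.lt_succ_of_le hkL⟩) := by
    unfold lead0
    have h1 : rA w k 0 < L + 1 := by rw [rA_zero hw0]; omega
    rw [dif_pos h1]
    congr 2
    exact Fin.ext (rA_zero hw0 k)
  unfold Sq.LA UA Vn
  simp only [Set.mem_ofPred_eq, h0, Finset.mem_filter, Finset.mem_univ, true_and, Prod.forall]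
  refine and_congr_left fun _ => forall_congr' fun j => forall_congr' fun l => ?_
  unfold rA
  rw [lt_cei hw0]

theorem rB_zero (w : Fin (n + 1) → ℕ) (k p : ℕ) : rB w k p 0 = k := rfl

theorem rB_succ (w : Fin (n + 1) → ℕ) (k p : ℕ) (j : Fin n) :
    rB w k p j.succ = Sq.rP w p j.succ := rfl

theorem mem_B {L k p : ℕ} (hw : ∀ j, 0 < w j) (hkL : k ≤ L)
    {γ : Fin (n + 1) × Fin (L + 1) → ℂ} :
    γ ∈ Sq.LA (L + 1) (rB w k p) (UB w p) ↔
      (∀ q ∈ Finset.univ.filter (fun q : Fin (n + 1) × Fin (L + 1) =>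
        (q.1 = 0 ∧ (q.2 : ℕ) < k) ∨ (q.1 ≠ 0 ∧ Sq.Wt w * (q.2 : ℕ) < w q.1 * p)),
        γ q = 0) ∧ γ (0, ⟨k, Nat.lt_succ_of_le hkL⟩) ≠ 0 ∧
      ∃ q ∈ Finset.univ.filter (fun q : Fin (n + 1) × Fin (L + 1) =>
        q.1 ≠ 0 ∧ Sq.Wt w * (q.2 : ℕ) = w q.1 * p), γ q ≠ 0 := by
  have hW := Sq.Wt_pos hw
  have h0 : lead0 (rB w k p) γ 0 = γ (0, ⟨k, Nat.lt_succ_of_le hkL⟩) := by
    unfold lead0
    have h1 : rB w k p 0 < L + 1 := by rw [rB_zero]; omega
    rw [dif_pos h1]
    rfl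
  unfold Sq.LA UB Vn
  simp only [Set.mem_ofPred_eq, h0, Finset.mem_filter, Finset.mem_univ, true_and]
  refine and_congr ?_ (and_congr_right fun _ => ?_)
  · constructor
    · rintro h ⟨j, l⟩ hq
      rcases hq with ⟨h1, h2⟩ | ⟨h1, h2⟩
      · simp only at h1 h2
        subst h1
        exact h 0 l h2
      · simp only at h1 h2
        obtain ⟨j', rfl⟩ := Fin.exists_succ_eq.2 h1
        apply h j'.succ l
        rw [rB_succ]
        unfold Sq.rP
        rw [lt_cei hW]
        exact h2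
    · intro h j l hl
      refine Fin.cases (motive := fun j => (l : ℕ) < rB w k p j → γ (j, l) = 0) ?_ ?_ j hl
      · intro h1
        exact h (0, l) (Or.inl ⟨rfl, h1⟩)
      · intro j' h1
        refine h (j'.succ, l) (Or.inr ⟨Fin.succ_ne_zero j', ?_⟩)
        rw [rB_succ] at h1
        unfold Sq.rP at h1
        rw [lt_cei hW] at h1
        exact h1
  · constructor
    · rintro ⟨j, h1, h2⟩
      unfold lead0 at h2
      split_ifs at h2 with h3
      · rw [rB_succ] at h3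
        refine ⟨(j.succ, ⟨rB w k p j.succ, h3⟩), ⟨Fin.succ_ne_zero j, ?_⟩, h2⟩
        have h4 := Sq.cei_spec hW (w j.succ * p)
        unfold Sq.dP Sq.rP at h1
        simp only [rB_succ]
        unfold Sq.rP
        omega
      · exact absurd rfl h2
    · rintro ⟨⟨j, l⟩, ⟨h1, h2⟩, h3⟩
      simp only at h1 h2
      obtain ⟨j', rfl⟩ := Fin.exists_succ_eq.2 h1
      have h4 : Sq.rP w p j'.succ = l := by
        unfold Sq.rP
        exact Sq.cei_eq hW (by omega) (by omega)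
      refine ⟨j', ?_, ?_⟩
      · unfold Sq.dP
        rw [h4]
        omega
      · unfold lead0
        have h5 : rB w k p j'.succ < L + 1 := by rw [rB_succ, h4]; exact l.2
        rw [dif_pos h5]
        have h6 : (⟨rB w k p j'.succ, h5⟩ : Fin (L + 1)) = l := Fin.ext h4
        rw [h6]
        exact h3

theorem isConstr_coord {σ : Type} [Fintype σ] (q : σ) : IsConstr {γ : σ → ℂ | γ q = 0} := by
  have := isConstr_eq_zero (X q : MvPolynomial σ ℂ)
  simpa using this

theorem isConstr_coord' {σ : Type} [Fintype σ] (q : σ) : IsConstr {γ : σ → ℂ | γ q ≠ 0} := by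
  have := isConstr_ne_zero (X q : MvPolynomial σ ℂ)
  simpa using this

theorem isConstr_A {L k : ℕ} (hw0 : 0 < w 0) (hkL : k ≤ L) :
    IsConstr (Sq.LA (L + 1) (rA w k) (UA n)) := by
  have h : Sq.LA (L + 1) (rA w k) (UA n) = {γ | (∀ q ∈ Finset.univ.filter
      (fun q : Fin (n + 1) × Fin (L + 1) => w 0 * (q.2 : ℕ) < w q.1 * k),
        γ q = 0) ∧ γ (0, ⟨k, Nat.lt_succ_of_le hkL⟩) ≠ 0} := by
    ext γ
    exact mem_A hw0 hkL
  rw [h]
  exact isConstr_setOf_and (isConstr_forall_mem _ _ fun q _ => isConstr_coord q)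
    (isConstr_coord' _)

theorem isConstr_B {L k p : ℕ} (hw : ∀ j, 0 < w j) (hkL : k ≤ L) :
    IsConstr (Sq.LA (L + 1) (rB w k p) (UB w p)) := by
  have h : Sq.LA (L + 1) (rB w k p) (UB w p) = {γ |
      (∀ q ∈ Finset.univ.filter (fun q : Fin (n + 1) × Fin (L + 1) =>
        (q.1 = 0 ∧ (q.2 : ℕ) < k) ∨ (q.1 ≠ 0 ∧ Sq.Wt w * (q.2 : ℕ) < w q.1 * p)),
        γ q = 0) ∧ γ (0, ⟨k, Nat.lt_succ_of_le hkL⟩) ≠ 0 ∧
      ∃ q ∈ Finset.univ.filter (fun q : Fin (n + 1) × Fin (L + 1) =>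
        q.1 ≠ 0 ∧ Sq.Wt w * (q.2 : ℕ) = w q.1 * p), γ q ≠ 0} := by
    ext γ
    exact mem_B hw hkL
  rw [h]
  exact isConstr_setOf_and (isConstr_forall_mem _ _ fun q _ => isConstr_coord q)
    (isConstr_setOf_and (isConstr_coord' _)
      (isConstr_exists_mem _ _ fun q _ => isConstr_coord' q))

theorem order_arc {n N : ℕ} (γ : Fin n × Fin N → ℂ) (i : Fin n) {k : ℕ} (hk : k < N) :
    (arc γ i).order = (k : ℕ∞) ↔
      (∀ j : Fin N, (j : ℕ) < k → γ (i, j) = 0) ∧ γ (i, ⟨k, hk⟩) ≠ 0 := by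
  rw [PowerSeries.order_eq_nat, coeff_arc, dif_pos hk, and_comm]
  refine and_congr_left fun _ => ⟨fun h j hj => ?_, fun h j hj => ?_⟩
  · have h1 := h j hj
    rwa [coeff_arc, dif_pos j.2] at h1
  · rw [coeff_arc, dif_pos (hj.trans hk)]
    exact h ⟨j, hj.trans hk⟩ hj

/-- The set of the arcs of smaller weighted order. -/
def SB (G : MvPolynomial (Fin (n + 1)) ℂ) (w : Fin (n + 1) → ℕ) (k i L p : ℕ) :
    Set (Fin (n + 1) × Fin (L + 1) → ℂ) :=
  if w 0 * (p + 1) < Sq.Wt w * k then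
    arcs G (L + 1) i ∩ Sq.LA (L + 1) (rB w k (p + 1)) (UB w (p + 1)) else ∅

theorem AK_eq (hw : ∀ j, 0 < w j) {k i L P : ℕ} (hk : 0 < k) (hkL : k ≤ L)
    (hP : Sq.Wt w * k ≤ P) : YG.AK G L k i =
      (arcs G (L + 1) i ∩ Sq.LA (L + 1) (rA w k) (UA n)) ∪ ⋃ p ∈ Finset.range P,
        SB G w k i L p := by
  classical
  have hW := Sq.Wt_pos hw
  ext γ
  simp only [Set.mem_union, Set.mem_inter_iff, Set.mem_iUnion, Finset.mem_range, exists_prop]
  constructor
  · rintro ⟨h1, h2, h3⟩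
    rw [order_arc γ 0 (Nat.lt_succ_of_le hkL)] at h2
    obtain ⟨h2, h4⟩ := h2
    by_cases hA : ∀ (j : Fin (n + 1)) (l : Fin (L + 1)), j ≠ 0 → γ (j, l) ≠ 0 →
        w j * k ≤ w 0 * l
    · left
      refine ⟨h3, (mem_A (hw 0) hkL).2 ⟨?_, h4⟩⟩
      rintro ⟨j, l⟩ hq
      rw [Finset.mem_filter] at hq
      have hq := hq.2
      simp only at hq
      by_contra hne
      by_cases hj : j = 0
      · subst hj
        have h5 : (l : ℕ) < k := Nat.lt_of_mul_lt_mul_left hq
        exact hne (h2 l h5)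
      · have := hA j l hj hne
        omega
    · right
      push Not at hA
      obtain ⟨j1, l1, hj1, hne1, hlt1⟩ := hA
      have hdvd : ∀ j, w j ∣ Sq.Wt w := fun j => Finset.dvd_prod_of_mem w (Finset.mem_univ j)
      choose c hc using hdvd
      have hc0 : ∀ j, 0 < c j := by
        intro j
        rcases Nat.eq_zero_or_pos (c j) with h | h
        · rw [hc j, h, mul_zero] at hW
          exact absurd hW (lt_irrefl _)
        · exact h
      set T := Finset.univ.filter fun q : Fin (n + 1) × Fin (L + 1) => q.1 ≠ 0 ∧ γ q ≠ 0 with hT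
      have hne : T.Nonempty := ⟨(j1, l1), by rw [hT, Finset.mem_filter]; exact ⟨Finset.mem_univ _, hj1, hne1⟩⟩
      obtain ⟨⟨j, l⟩, hq, hmin⟩ := T.exists_min_image (fun q => c q.1 * (q.2 : ℕ)) hne
      rw [hT, Finset.mem_filter] at hq
      obtain ⟨-, hj, hjl⟩ := hq
      simp only at hj
      have hl : (l : ℕ) ≠ 0 := by
        intro h
        have : l = 0 := Fin.ext h
        rw [this] at hjl
        exact hjl (h1 j)
      have hp0 : 0 < c j * l := Nat.mul_pos (hc0 j) (Nat.pos_of_ne_zero hl)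
      have hlt : w 0 * (c j * l) < Sq.Wt w * k := by
        have h5 := hmin (j1, l1) (by rw [hT, Finset.mem_filter]; exact ⟨Finset.mem_univ _, hj1, hne1⟩)
        simp only at h5
        calc w 0 * (c j * l) ≤ w 0 * (c j1 * l1) := Nat.mul_le_mul_left _ h5
          _ = c j1 * (w 0 * l1) := by ring
          _ < c j1 * (w j1 * k) := Nat.mul_lt_mul_of_pos_left hlt1 (hc0 j1)
          _ = Sq.Wt w * k := by rw [hc j1]; ring
      obtain ⟨p, hp⟩ : ∃ p, c j * (l : ℕ) = p + 1 := ⟨c j * l - 1, by omega⟩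
      rw [hp] at hlt
      refine ⟨p, ?_, ?_⟩
      · have h6 : 1 * (p + 1) ≤ w 0 * (p + 1) := Nat.mul_le_mul_right _ (hw 0)
        omega
      · unfold SB
        rw [if_pos hlt]
        refine ⟨h3, (mem_B hw hkL).2 ⟨?_, h4, (j, l), ?_, hjl⟩⟩
        · rintro ⟨a, b⟩ hq
          rw [Finset.mem_filter] at hq
          rcases hq.2 with ⟨h5, h6⟩ | ⟨h5, h6⟩
          · simp only at h5 h6
            subst h5
            exact h2 b h6
          · simp only at h5 h6
            by_contra hne'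
            have h7 := hmin (a, b) (by rw [hT, Finset.mem_filter]; exact ⟨Finset.mem_univ _, h5, hne'⟩)
            simp only at h7
            rw [hp] at h7
            have h8 : w a * (p + 1) ≤ w a * (c a * b) := Nat.mul_le_mul_left _ h7
            rw [← mul_assoc, ← hc a] at h8
            omega
        · rw [Finset.mem_filter]
          refine ⟨Finset.mem_univ _, hj, ?_⟩
          simp only
          rw [← hp, hc j]
          ring
  · rintro (⟨h1, h2⟩ | ⟨p, hpP, h1⟩)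
    · rw [mem_A (hw 0) hkL] at h2
      obtain ⟨h2, h3⟩ := h2
      have h4 : ∀ (j : Fin (n + 1)) (l : Fin (L + 1)), w 0 * (l : ℕ) < w j * k → γ (j, l) = 0 :=
        fun j l h => h2 (j, l) (by rw [Finset.mem_filter]; exact ⟨Finset.mem_univ _, h⟩)
      refine ⟨fun j => h4 j 0 ?_, ?_, h1⟩
      · rw [Fin.val_zero, mul_zero]
        exact Nat.mul_pos (hw j) hk
      · rw [order_arc γ 0 (Nat.lt_succ_of_le hkL)]
        exact ⟨fun l hl => h4 0 l (Nat.mul_lt_mul_of_pos_left hl (hw 0)), h3⟩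
    · unfold SB at h1
      split_ifs at h1 with hlt
      · obtain ⟨h1, h2⟩ := h1
        rw [mem_B hw hkL] at h2
        obtain ⟨h2, h3, -⟩ := h2
        refine ⟨fun j => ?_, ?_, h1⟩
        · apply h2
          rw [Finset.mem_filter]
          refine ⟨Finset.mem_univ _, ?_⟩
          simp only
          by_cases hj : j = 0
          · left
            exact ⟨hj, by rw [Fin.val_zero]; exact hk⟩
          · right
            refine ⟨hj, ?_⟩
            rw [Fin.val_zero, mul_zero]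
            exact Nat.mul_pos (hw j) (Nat.succ_pos p)
        · rw [order_arc γ 0 (Nat.lt_succ_of_le hkL)]
          refine ⟨fun l hl => ?_, h3⟩
          apply h2
          rw [Finset.mem_filter]
          exact ⟨Finset.mem_univ _, Or.inl ⟨rfl, hl⟩⟩
      · exact absurd h1 (Set.notMem_empty γ)

theorem disjoint_AB (hw : ∀ j, 0 < w j) {k i L p : ℕ} (hkL : k ≤ L) :
    Disjoint (arcs G (L + 1) i ∩ Sq.LA (L + 1) (rA w k) (UA n)) (SB G w k i L p) := by
  rw [Set.disjoint_left]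
  rintro γ ⟨-, h1⟩ h2
  unfold SB at h2
  split_ifs at h2 with hlt
  · obtain ⟨-, h2⟩ := h2
    rw [mem_A (hw 0) hkL] at h1
    rw [mem_B hw hkL] at h2
    obtain ⟨-, -, ⟨j, l⟩, h3, h4⟩ := h2
    rw [Finset.mem_filter] at h3
    obtain ⟨-, h5, h6⟩ := h3
    simp only at h5 h6
    have h7 : w j * k ≤ w 0 * l := by
      by_contra h8
      exact h4 (h1.1 (j, l) (by rw [Finset.mem_filter]; exact ⟨Finset.mem_univ _, not_le.1 h8⟩))
    have h8 : w j * (Sq.Wt w * k) ≤ w j * (w 0 * (p + 1)) := by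
      calc w j * (Sq.Wt w * k) = Sq.Wt w * (w j * k) := by ring
        _ ≤ Sq.Wt w * (w 0 * l) := Nat.mul_le_mul_left _ h7
        _ = w 0 * (Sq.Wt w * l) := by ring
        _ = w 0 * (w j * (p + 1)) := by rw [h6]
        _ = w j * (w 0 * (p + 1)) := by ring
    have h9 := Nat.le_of_mul_le_mul_left h8 (hw j)
    omega
  · exact h2

theorem disjoint_BB (hw : ∀ j, 0 < w j) {k i L p q : ℕ} (hkL : k ≤ L) (hpq : p ≠ q) :
    Disjoint (SB G w k i L p) (SB G w k i L q) := by
  rw [Set.disjoint_left]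
  intro γ h1 h2
  unfold SB at h1 h2
  split_ifs at h1 with hlt1
  · split_ifs at h2 with hlt2
    · obtain ⟨-, h1⟩ := h1
      obtain ⟨-, h2⟩ := h2
      rw [mem_B hw hkL] at h1 h2
      obtain ⟨a1, -, ⟨j, l⟩, a2, a3⟩ := h1
      obtain ⟨b1, -, ⟨j', l'⟩, b2, b3⟩ := h2
      rw [Finset.mem_filter] at a2 b2
      obtain ⟨-, a4, a5⟩ := a2
      obtain ⟨-, b4, b5⟩ := b2
      simp only at a4 a5 b4 b5
      have c1 : w j' * (p + 1) ≤ Sq.Wt w * l' := by
        by_contra h
        exact b3 (a1 (j', l') (by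
          rw [Finset.mem_filter]; exact ⟨Finset.mem_univ _, Or.inr ⟨b4, not_le.1 h⟩⟩))
      have c2 : w j * (q + 1) ≤ Sq.Wt w * l := by
        by_contra h
        exact a3 (b1 (j, l) (by
          rw [Finset.mem_filter]; exact ⟨Finset.mem_univ _, Or.inr ⟨a4, not_le.1 h⟩⟩))
      rw [b5] at c1
      rw [a5] at c2
      have c3 := Nat.le_of_mul_le_mul_left c1 (hw j')
      have c4 := Nat.le_of_mul_le_mul_left c2 (hw j)
      omega
    · exact h2
  · exact h1

theorem isConstr_SB (hw : ∀ j, 0 < w j) {k i L p : ℕ} (hkL : k ≤ L) :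
    IsConstr (SB G w k i L p) := by
  unfold SB
  split_ifs
  · exact (isConstr_arcs _ _ _).inter (isConstr_B hw hkL)
  · exact IsConstr.empty

end MeaAux

open MeaAux in
/-- The arcs with `ord x_0 = k` and `ord G = i`, by the weighted order
`p = min_j (W / w_j) ord x_j ≤ W k / w_0`: either `ord x_j ≥ w_j k / w_0` for all `j ≥ 1`, or
`p < W k / w_0`, and then there is a `j ≥ 1` with `W ord x_j = w_j p`. As `Sq.arcs_eq_P`,
`Sq.measure_AP`, `Sq.Zcoeff0_eq_P` (`agI/SqP3.lean`), with `Sq.measure_LA` (`agI/SqP1.lean`). -/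
theorem AKm_eq (H : Rs G w N) {k i L P : ℕ} (hk : 0 < k) (hkL : k ≤ L) (hiL : i ≤ L)
    (hP : Sq.Wt w * k ≤ P) :
    YG.AKm G L k i = aA G w N k i +
      ∑ p ∈ Finset.range P, if w 0 * (p + 1) < Sq.Wt w * k then aB G w N k (p + 1) i else 0 := by
  have hw := H.hw
  have hwN : ∀ j, w j ≤ N := by
    intro j
    refine Fin.cases ?_ ?_ j
    · exact H.hw0
    · exact fun j => (H.hwN j).le
  have hA : ↑((LU ^ ((n + 1) * (L + 1)))⁻¹) *
      clsM (arcs G (L + 1) i ∩ Sq.LA (L + 1) (rA w k) (UA n)) = aA G w N k i := by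
    refine measure_gu (numA H hk) H.ge (guA H k) hiL fun hM j => ?_
    have h1 : rA w k j ≤ MA w N k := by
      unfold rA MA Sq.cei
      apply Nat.div_le_div_right
      have : w j * k ≤ k * N := by
        rw [mul_comm]
        exact Nat.mul_le_mul_left _ (hwN j)
      omega
    omega
  have hB : ∀ p ∈ Finset.range P, ↑((LU ^ ((n + 1) * (L + 1)))⁻¹) * clsM (SB G w k i L p) =
      if w 0 * (p + 1) < Sq.Wt w * k then aB G w N k (p + 1) i else 0 := by
    intro p _
    unfold SB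
    split_ifs with hlt
    · refine measure_gu (numB (p := p + 1) H (Nat.succ_pos p) hlt) H.ge
        (guB (p := p + 1) H (Nat.succ_pos p) hlt) hiL fun hM j => ?_
      refine Fin.cases ?_ ?_ j
      · rw [rB_zero]
        omega
      · intro j
        rw [rB_succ]
        have := Sq.rP_le_MP hwN (p + 1) j.succ
        omega
    · unfold clsM
      rw [cls_empty, map_zero, mul_zero]
  have hcls : clsM (YG.AK G L k i) = clsM (arcs G (L + 1) i ∩ Sq.LA (L + 1) (rA w k) (UA n)) +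
      ∑ p ∈ Finset.range P, clsM (SB G w k i L p) := by
    have hd : ∀ p ∈ Finset.range P, ∀ q ∈ Finset.range P, p ≠ q →
        Disjoint (SB G w k i L p) (SB G w k i L q) := fun p _ q _ hpq => disjoint_BB hw hkL hpq
    have hd2 : Disjoint (arcs G (L + 1) i ∩ Sq.LA (L + 1) (rA w k) (UA n))
        (⋃ p ∈ Finset.range P, SB G w k i L p) := by
      rw [Set.disjoint_iUnion₂_right]
      exact fun p _ => disjoint_AB hw hkL
    rw [AK_eq hw hk hkL hP]
    unfold clsM
    rw [cls_union ((isConstr_arcs _ _ _).inter (isConstr_A (hw 0) hkL))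
      (isConstr_biUnion _ _ fun p _ => isConstr_SB hw hkL) hd2, map_add,
      cls_biUnion _ _ (fun p _ => isConstr_SB hw hkL) hd, map_sum]
  unfold YG.AKm
  rw [hcls, mul_add, hA, Finset.mul_sum, Finset.sum_congr rfl hB]

end YV

end MPb07157
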