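import Pool.Agent.Lib.MP_b07157_agYV.Num

/-!
# The numbers of the arcs with `ord x_0 = k`
-/

noncomputable section

namespace MPb07157

open MvPolynomial

namespace YV

variable {n : ℕ} {G : MvPolynomial (Fin (n + 1)) ℂ} {w : Fin (n + 1) → ℕ} {N : ℕ}

theorem numA (H : Rs G w N) {k : ℕ} (hk : 0 < k) :
    NumR w N (w 0) k (rA w k) (dA w k) (MA w N k) (KA w N k) Finset.univ := by
  refine ⟨hk, fun j => ?_, fun j _ => ?_, ?_, ?_⟩
  · have := Sq.cei_spec (H.hw 0) (w j * k)
    unfold dA rA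
    omega
  · have := Sq.cei_spec (H.hw 0) (w j * k)
    unfold dA rA
    omega
  · have := Sq.cei_spec (H.hw 0) (k * N)
    unfold KA MA
    omega
  · have := Sq.cei_spec (H.hw 0) (k * N)
    unfold KA MA
    omega

theorem dB_succ (w : Fin (n + 1) → ℕ) (k p : ℕ) (j : Fin n) :
    dB w k p j.succ = Sq.dP w p j.succ := by
  unfold dB rB Sq.dP
  rw [Fin.cons_succ]

theorem dB_zero (w : Fin (n + 1) → ℕ) (k p : ℕ) :
    dB w k p 0 = Sq.Wt w * k - w 0 * p := by
  unfold dB rB
  rw [Fin.cons_zero]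

theorem numB (H : Rs G w N) {k p : ℕ} (hp : 0 < p) (hkp : w 0 * p < Sq.Wt w * k) :
    NumR w N (Sq.Wt w) p (rB w k p) (dB w k p) (Sq.MP w N p) (Sq.KP w N p)
      (Finset.univ.erase 0) := by
  have hnum := Sq.num_P (N := N) H.hw hp
  refine ⟨hp, fun j => ?_, fun j hj => ?_, hnum.hM, hnum.hK⟩
  · refine Fin.cases ?_ (fun i => ?_) j
    · rw [dB_zero]
      unfold rB
      rw [Fin.cons_zero]
      omega
    · rw [dB_succ]
      unfold rB
      rw [Fin.cons_succ]
      exact hnum.hr i.succ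
  · obtain ⟨i, rfl⟩ := Fin.exists_succ_eq.2 (Finset.ne_of_mem_erase hj)
    rw [dB_succ]
    exact hnum.hd i.succ

theorem dA_zero (H : Rs G w N) (k : ℕ) : dA w k 0 = 0 := by
  have h : Sq.cei (w 0) (w 0 * k) = k :=
    Sq.cei_eq (H.hw 0) le_rfl (by have := H.hw 0; omega)
  unfold dA rA
  rw [h, Nat.sub_self]

theorem guA (H : Rs G w N) (k : ℕ) : Gu G w N (dA w k) Finset.univ (UA n) := by
  have h0 := dA_zero H k
  refine ⟨?_, fun c hc => ?_, fun c hc j _ hj t => ?_⟩
  · have := isConstr_ne_zero (X 0 : MvPolynomial (Fin (n + 1)) ℂ)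
    simpa [UA] using this
  · have h1 : Sq.pr (dA w k) c ≠ 0 := by
      intro h
      have h2 := congrFun h 0
      simp only [Sq.pr, if_pos h0] at h2
      exact hc h2
    obtain ⟨j, hj⟩ := H.iso _ h1
    exact ⟨j, Finset.mem_univ j, hj⟩
  · have hj0 : (0 : Fin (n + 1)) ≠ j := by
      rintro rfl
      exact hj h0
    show Function.update c j t 0 ≠ 0
    rw [Function.update_of_ne hj0]
    exact hc

theorem guB (H : Rs G w N) {k p : ℕ} (hp : 0 < p) (hkp : w 0 * p < Sq.Wt w * k) :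
    Gu G w N (dB w k p) (Finset.univ.erase 0) (UB w p) := by
  have h0 : dB w k p 0 ≠ 0 := by
    rw [dB_zero]
    omega
  refine ⟨?_, fun c hc => ?_, fun c hc j hj hdj t => ?_⟩
  · have h1 : IsConstr {c : Fin (n + 1) → ℂ | c 0 ≠ 0} := by
      have := isConstr_ne_zero (X 0 : MvPolynomial (Fin (n + 1)) ℂ)
      simpa using this
    have h2 := isConstr_exists_mem (σ := Fin (n + 1))
      (Finset.univ.filter fun i : Fin n => Sq.dP w p i.succ = 0)
      (fun i c => c i.succ ≠ 0) (fun i _ => by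
        have := isConstr_ne_zero (X i.succ : MvPolynomial (Fin (n + 1)) ℂ)
        simpa using this)
    have h3 : UB w p = {c | c 0 ≠ 0 ∧
        ∃ i ∈ Finset.univ.filter fun i : Fin n => Sq.dP w p i.succ = 0, c i.succ ≠ 0} := by
      ext c
      simp [UB]
    rw [h3]
    exact isConstr_setOf_and h1 h2
  · obtain ⟨-, i, hi, hci⟩ := hc
    have h1 : Sq.pr (dB w k p) c ≠ 0 := by
      intro h
      have h2 := congrFun h i.succ
      have h3 : dB w k p i.succ = 0 := by rw [dB_succ]; exact hi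
      simp only [Sq.pr, if_pos h3] at h2
      exact hci h2
    have h2 : Sq.pr (dB w k p) c 0 = 0 := by
      simp only [Sq.pr, if_neg h0]
    obtain ⟨j, hj⟩ := H.rel _ h1 h2
    exact ⟨j.succ, Finset.mem_erase.2 ⟨Fin.succ_ne_zero j, Finset.mem_univ _⟩, hj⟩
  · obtain ⟨hc0, i, hi, hci⟩ := hc
    refine ⟨?_, i, hi, ?_⟩
    · rw [Function.update_of_ne (Finset.ne_of_mem_erase hj).symm]
      exact hc0
    · have hne : i.succ ≠ j := by
        rintro rfl
        rw [dB_succ] at hdj
        exact hdj hi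
      rw [Function.update_of_ne hne]
      exact hci

end YV

end MPb07157
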