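import Pool.Agent.Lib.MP_b07157_agYV.Defs

/-!
# Initial forms along arcs with given leading coefficients
-/

noncomputable section

namespace MPb07157

open MvPolynomial

namespace YV

variable {n : ℕ}

/-- As `Sq.Num`, with `d_j < W` only for `j ∈ S`. -/
structure NumR (w : Fin n → ℕ) (N W p : ℕ) (r d : Fin n → ℕ) (M K : ℕ) (S : Finset (Fin n)) :
    Prop where
  hp : 0 < p
  hr : ∀ j, W * r j = w j * p + d j
  hd : ∀ j ∈ S, d j < W
  hM : W * M = p * N + K
  hK : K < W

/-- The sets of leading coefficients: at each point the initial form has a derivative in a direction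
in `S` which is not zero, after projection to the coordinates with `d_j = 0`. -/
structure Gu (f : MvPolynomial (Fin n) ℂ) (w : Fin n → ℕ) (N : ℕ) (d : Fin n → ℕ)
    (S : Finset (Fin n)) (U : Set (Fin n → ℂ)) : Prop where
  con : IsConstr U
  dir : ∀ c ∈ U, ∃ j ∈ S, eval (Sq.pr d c) (pderiv j (inForm f (face f w N))) ≠ 0
  upd : ∀ c ∈ U, ∀ j ∈ S, d j ≠ 0 → ∀ t : ℂ, Function.update c j t ∈ U

variable {w : Fin n → ℕ} {N W p : ℕ} {r d : Fin n → ℕ} {M K : ℕ} {S : Finset (Fin n)}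
  {f : MvPolynomial (Fin n) ℂ} {U : Set (Fin n → ℂ)}

theorem NumR.wt (h : NumR w N W p r d M K S) (v : Fin n →₀ ℕ) :
    W * MPb07157.wt r v = p * MPb07157.wt w v + MPb07157.wt d v := by
  unfold MPb07157.wt
  rw [Finset.mul_sum, Finset.mul_sum, ← Finset.sum_add_distrib]
  refine Finset.sum_congr rfl fun j _ => ?_
  rw [← mul_assoc, h.hr]
  ring

theorem NumR.le (h : NumR w N W p r d M K S) {v : Fin n →₀ ℕ} (hv : N ≤ MPb07157.wt w v) :
    M ≤ MPb07157.wt r v := by
  have h1 := h.wt v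
  have h2 := h.hM
  have h3 := h.hK
  by_contra hlt
  push Not at hlt
  have h4 : p * N ≤ p * MPb07157.wt w v := Nat.mul_le_mul_left _ hv
  have h5 : W * (MPb07157.wt r v + 1) ≤ W * M := Nat.mul_le_mul_left _ hlt
  rw [Nat.mul_add, mul_one] at h5
  omega

/-- A direction in `S` in which the initial form is smooth. -/
theorem NumR.dir (h : NumR w N W p r d M K S) {c : Fin n → ℂ} {j : Fin n} (hjS : j ∈ S)
    (hj : eval (Sq.pr d c) (pderiv j (inForm f (face f w N))) ≠ 0) : d j = K := by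
  rw [Sq.eval_pderiv_inForm] at hj
  obtain ⟨v, hv, hne⟩ := Finset.exists_ne_zero_of_sum_ne_zero hj
  have hg : Sq.Gd d j v := by
    by_contra hcon
    exact hne (Sq.tv_not_gd hcon c _)
  have h1 := h.wt v
  rw [hg.wt, (Finset.mem_filter.1 hv).2] at h1
  have h2 := h.hM
  have h3 := h.hK
  have h4 := h.hd j hjS
  rcases lt_trichotomy (MPb07157.wt r v) M with h5 | h5 | h5
  · have h6 : W * (MPb07157.wt r v + 1) ≤ W * M := Nat.mul_le_mul_left _ h5
    rw [Nat.mul_add, mul_one] at h6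
    omega
  · rw [h5] at h1
    omega
  · have h6 : W * (M + 1) ≤ W * MPb07157.wt r v := Nat.mul_le_mul_left _ h5
    rw [Nat.mul_add, mul_one] at h6
    omega

theorem NumR.gd (h : NumR w N W p r d M K S) (hge : ∀ v ∈ f.support, N ≤ MPb07157.wt w v)
    {j : Fin n} (hj : d j = K) {v : Fin n →₀ ℕ} (hv : v ∈ face f r M) (hvj : v j ≠ 0) :
    MPb07157.wt w v = N ∧ Sq.Gd d j v := by
  obtain ⟨hv1, hv2⟩ := Finset.mem_filter.1 hv
  have h1 := h.wt v
  have h2 := h.hM
  have h3 := hge v hv1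
  rw [hv2] at h1
  have h4 : d j ≤ MPb07157.wt d v := wt_le_of_ne hvj |>.trans le_rfl
  have h5 : p * N ≤ p * MPb07157.wt w v := Nat.mul_le_mul_left _ h3
  have h6 : p * MPb07157.wt w v = p * N := by omega
  refine ⟨Nat.eq_of_mul_eq_mul_left h.hp h6, Sq.gd_of_wt hvj (by omega)⟩

theorem NumR.eval_eq (h : NumR w N W p r d M K S) (hge : ∀ v ∈ f.support, N ≤ MPb07157.wt w v)
    {c : Fin n → ℂ} {j : Fin n} (hjS : j ∈ S)
    (hj : eval (Sq.pr d c) (pderiv j (inForm f (face f w N))) ≠ 0) :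
    eval c (pderiv j (inForm f (face f r M))) =
      eval (Sq.pr d c) (pderiv j (inForm f (face f w N))) := by
  classical
  have hdj := h.dir hjS hj
  rw [Sq.eval_pderiv_inForm, Sq.eval_pderiv_inForm]
  unfold face
  rw [Finset.sum_filter, Finset.sum_filter]
  refine Finset.sum_congr rfl fun v hv => ?_
  by_cases hg : Sq.Gd d j v
  · have h1 := h.wt v
    rw [hg.wt, hdj] at h1
    have h2 := h.hM
    have h3 : MPb07157.wt r v = M ↔ MPb07157.wt w v = N := by
      constructor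
      · intro h4
        exact (h.gd hge hdj (Finset.mem_filter.2 ⟨hv, h4⟩) hg.1).1
      · intro h4
        rw [h4] at h1
        have h5 : W * MPb07157.wt r v = W * M := by omega
        exact Nat.eq_of_mul_eq_mul_left (by have := h.hK; omega) h5
    rw [Sq.tv_gd hg]
    by_cases h4 : MPb07157.wt w v = N
    · rw [if_pos h4, if_pos (h3.2 h4)]
    · rw [if_neg h4, if_neg fun h5 => h4 (h3.1 h5)]
  · rw [Sq.tv_not_gd hg, ite_self]
    split_ifs with h4
    · apply Sq.tv_zero
      by_contra hvj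
      exact hg (h.gd hge hdj (Finset.mem_filter.2 ⟨hv, h4⟩) hvj).2
    · rfl

/-- As `Sq.Num.nd`, `Sq.Num.eval_eq`, `Sq.Num.dir` (`agI/SqP2.lean`). -/
theorem NumR.nd (h : NumR w N W p r d M K S) (hge : ∀ v ∈ f.support, N ≤ MPb07157.wt w v)
    (hU : Gu f w N d S U) {c : Fin n → ℂ} (hc : c ∈ U) :
    ∃ j, eval c (pderiv j (inForm f (face f r M))) ≠ 0 := by
  obtain ⟨j, hjS, hj⟩ := hU.dir c hc
  exact ⟨j, by rwa [h.eval_eq hge hjS hj]⟩

/-- As `Sq.Num.isMinWt`. -/
theorem NumR.isMinWt (h : NumR w N W p r d M K S) (hge : ∀ v ∈ f.support, N ≤ MPb07157.wt w v)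
    (hU : Gu f w N d S U) (hne : U.Nonempty) : IsMinWt f r M := by
  refine ⟨fun v hv => h.le (hge v hv), ?_⟩
  obtain ⟨c, hc⟩ := hne
  obtain ⟨j, hj⟩ := h.nd hge hU hc
  obtain ⟨v, hv, -⟩ := exists_of_pderiv_ne f _ j _ hj
  exact ⟨v, (Finset.mem_filter.1 hv).1, (Finset.mem_filter.1 hv).2⟩

theorem NumR.XU_eq_of_zero (h : NumR w N W p r d M 0 S)
    (hge : ∀ v ∈ f.support, N ≤ MPb07157.wt w v) (U : Set (Fin n → ℂ)) :
    Sq.XU f r M U = {c | c ∈ U ∧ eval c (inForm f
      (f.support.filter fun v => MPb07157.wt w v = N ∧ MPb07157.wt d v = 0)) = 0} := by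
  have h1 : face f r M = f.support.filter fun v => MPb07157.wt w v = N ∧ MPb07157.wt d v = 0 := by
    ext v
    unfold face
    rw [Finset.mem_filter, Finset.mem_filter]
    refine and_congr_right fun hv => ?_
    have h2 := h.wt v
    have h3 := h.hM
    have h4 : p * N ≤ p * MPb07157.wt w v := Nat.mul_le_mul_left _ (hge v hv)
    constructor
    · intro h5
      rw [h5] at h2
      exact ⟨Nat.eq_of_mul_eq_mul_left h.hp (by omega : p * MPb07157.wt w v = p * N), by omega⟩
    · rintro ⟨h5, h6⟩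
      rw [h5, h6] at h2
      exact Nat.eq_of_mul_eq_mul_left (by have := h.hK; omega)
        (by omega : W * MPb07157.wt r v = W * M)
  unfold Sq.XU
  rw [h1]

/-- The part of `U` where `∂_j` is the first partial derivative in a direction in `S` of the initial
form which is not zero. -/
def VJ (f : MvPolynomial (Fin n) ℂ) (w : Fin n → ℕ) (N : ℕ) (d : Fin n → ℕ) (S : Finset (Fin n))
    (U : Set (Fin n → ℂ)) (j : Fin n) : Set (Fin n → ℂ) :=
  {c | c ∈ U ∧ ((∀ i ∈ S.filter (· < j),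
    eval (Sq.pr d c) (pderiv i (inForm f (face f w N))) = 0) ∧
    eval (Sq.pr d c) (pderiv j (inForm f (face f w N))) ≠ 0)}

theorem isConstr_VJ (hU : Gu f w N d S U) (j : Fin n) : IsConstr (VJ f w N d S U j) :=
  isConstr_setOf_and hU.con (isConstr_setOf_and
    (isConstr_forall_mem _ _ fun _ _ => Sq.isConstr_pr d _)
    (isConstr_setOf_not (Sq.isConstr_pr d _)))

theorem disjoint_VJ (f : MvPolynomial (Fin n) ℂ) (w : Fin n → ℕ) (N : ℕ) (d : Fin n → ℕ)
    (S : Finset (Fin n)) (U : Set (Fin n → ℂ)) {i j : Fin n} (hi : i ∈ S) (hj : j ∈ S)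
    (hij : i ≠ j) : Disjoint (VJ f w N d S U i) (VJ f w N d S U j) := by
  rw [Set.disjoint_left]
  rintro u ⟨-, h1, h2⟩ ⟨-, h3, h4⟩
  rcases lt_or_gt_of_ne hij with h5 | h5
  · exact h2 (h3 i (Finset.mem_filter.2 ⟨hi, h5⟩))
  · exact h4 (h1 j (Finset.mem_filter.2 ⟨hj, h5⟩))

theorem U_eq (hU : Gu f w N d S U) : U = ⋃ j ∈ S, VJ f w N d S U j := by
  classical
  ext u
  simp only [Set.mem_iUnion, exists_prop]
  constructor
  · intro hu
    obtain ⟨j, hjS, hj⟩ := hU.dir u hu
    have hne : (S.filter fun j =>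
      eval (Sq.pr d u) (pderiv j (inForm f (face f w N))) ≠ 0).Nonempty :=
        ⟨j, Finset.mem_filter.2 ⟨hjS, hj⟩⟩
    have hmin := Finset.min'_mem _ hne
    refine ⟨Finset.min' _ hne, (Finset.mem_filter.1 hmin).1, hu, fun i hi => ?_,
      (Finset.mem_filter.1 hmin).2⟩
    by_contra hcon
    rw [Finset.mem_filter] at hi
    have hmem : i ∈ S.filter fun j =>
        eval (Sq.pr d u) (pderiv j (inForm f (face f w N))) ≠ 0 :=
      Finset.mem_filter.2 ⟨hi.1, hcon⟩
    exact absurd hi.2 (not_lt.2 (Finset.min'_le _ i hmem))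
  · rintro ⟨j, -, hu⟩
    exact hu.1

attribute [local irreducible] K0.instCommRing

theorem NumR.cls_XU (h : NumR w N W p r d M K S) (hge : ∀ v ∈ f.support, N ≤ MPb07157.wt w v)
    (hU : Gu f w N d S U) (hK : K ≠ 0) : cls (Sq.XU f r M U) * L = cls U := by
  classical
  have h1 : Sq.XU f r M U = ⋃ j ∈ S,
      {c | c ∈ VJ f w N d S U j ∧ eval c (inForm f (face f r M)) = 0} := by
    ext c
    unfold Sq.XU
    simp only [Set.mem_ofPred_eq, Set.mem_iUnion, exists_prop]
    constructor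
    · rintro ⟨hc, h0⟩
      rw [U_eq hU] at hc
      simp only [Set.mem_iUnion, exists_prop] at hc
      obtain ⟨j, hj, hc⟩ := hc
      exact ⟨j, hj, hc, h0⟩
    · rintro ⟨j, -, hj, h0⟩
      exact ⟨hj.1, h0⟩
  have h2 : cls (⋃ j ∈ S,
      {c | c ∈ VJ f w N d S U j ∧ eval c (inForm f (face f r M)) = 0}) =
      ∑ j ∈ S, cls {c | c ∈ VJ f w N d S U j ∧ eval c (inForm f (face f r M)) = 0} :=
    cls_biUnion _ _ (fun j _ => isConstr_setOf_and (isConstr_VJ hU j) (isConstr_eq_zero _))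
      (fun i hi j hj hij => (disjoint_VJ f w N d S U hi hj hij).mono (fun _ hx => hx.1)
        (fun _ hx => hx.1))
  have h3 : cls (⋃ j ∈ S, VJ f w N d S U j) = ∑ j ∈ S, cls (VJ f w N d S U j) :=
    cls_biUnion _ _ (fun j _ => isConstr_VJ hU j) (fun i hi j hj hij =>
      disjoint_VJ f w N d S U hi hj hij)
  have h4 : cls U = ∑ j ∈ S, cls (VJ f w N d S U j) := by
    rw [← h3, ← U_eq hU]
  rw [h1, h2, h4, Finset.sum_mul]
  refine Finset.sum_congr rfl fun j hjS => ?_
  by_cases hdj : d j = K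
  · have hprj : ∀ (c : Fin n → ℂ) (t : ℂ), Sq.pr d (Function.update c j t) = Sq.pr d c := by
      intro c t
      funext l
      unfold Sq.pr
      by_cases hl : l = j
      · rw [hl, if_neg (by omega), if_neg (by omega)]
      · rw [Function.update_of_ne hl]
    refine (hensel_step (VJ f w N d S U j) (isConstr_VJ hU j)
      (fun c => eval c (inForm f (face f r M))) ⟨_, fun _ => rfl⟩ j ?_
      (fun c => eval c (pderiv j (inForm f (face f r M)))) ?_ ?_).1
    · rintro c ⟨h1, h2, h3⟩ t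
      refine ⟨hU.upd c h1 j hjS (by omega) _, ?_, ?_⟩
      · intro l hl
        rw [hprj]
        exact h2 l hl
      · rw [hprj]
        exact h3
    · rintro c ⟨-, -, h3⟩
      rw [h.eval_eq hge hjS h3]
      exact h3
    · rintro c - t
      rw [Sq.eval_pderiv_inForm]
      unfold inForm
      rw [map_sum, map_sum, Finset.mul_sum, ← Finset.sum_add_distrib]
      refine Finset.sum_congr rfl fun v hv => ?_
      refine Sq.eval_update_monomial c j t _ ?_
      by_contra hcon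
      have h4 := (h.gd hge hdj hv (by omega)).2.2 j (by
        rw [Finsupp.tsub_apply, Finsupp.single_eq_same]
        omega)
      omega
  · have h2 : VJ f w N d S U j = ∅ := by
      rw [Set.eq_empty_iff_forall_notMem]
      rintro c ⟨-, -, h3⟩
      exact hdj (h.dir hjS h3)
    have h3 : {c | c ∈ VJ f w N d S U j ∧ eval c (inForm f (face f r M)) = 0} = ∅ := by
      rw [h2]
      ext c
      simp
    rw [h3, h2, cls_empty, zero_mul]

theorem wt_eq_zero_iff {d d' : Fin n → ℕ} (hdd : ∀ j, d j = 0 ↔ d' j = 0) (v : Fin n →₀ ℕ) :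
    MPb07157.wt d v = 0 ↔ MPb07157.wt d' v = 0 := by
  unfold MPb07157.wt
  rw [Finset.sum_eq_zero_iff, Finset.sum_eq_zero_iff]
  refine forall_congr' fun j => forall_congr' fun _ => ?_
  rw [mul_eq_zero, mul_eq_zero, hdd j]

theorem pr_eq_of_iff {d d' : Fin n → ℕ} (hdd : ∀ j, d j = 0 ↔ d' j = 0) :
    Sq.pr d = Sq.pr d' := by
  funext c j
  unfold Sq.pr
  by_cases h : d j = 0
  · rw [if_pos h, if_pos ((hdd j).1 h)]
  · rw [if_neg h, if_neg fun h' => h ((hdd j).2 h')]

theorem Gu.of_iff {d' : Fin n → ℕ} (hdd : ∀ j, d j = 0 ↔ d' j = 0) (hU : Gu f w N d S U) :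
    Gu f w N d' S U where
  con := hU.con
  dir := by
    rw [← pr_eq_of_iff hdd]
    exact hU.dir
  upd := fun c hc j hj hdj t => hU.upd c hc j hj (fun h => hdj ((hdd j).1 h)) t

/-- As `Sq.Num.clsM_XU`: the class depends only on `K`, on the set of the `j` with `d_j = 0`, and on
`d_j` for `j ∈ S`. -/
theorem NumR.clsM_XU {p' M' : ℕ} {r' d' : Fin n → ℕ} (h : NumR w N W p r d M K S)
    (h' : NumR w N W p' r' d' M' K S) (hdd : ∀ j, d j = 0 ↔ d' j = 0)
    (hge : ∀ v ∈ f.support, N ≤ MPb07157.wt w v) (hU : Gu f w N d S U) :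
    clsM (Sq.XU f r M U) = clsM (Sq.XU f r' M' U) := by
  by_cases hK : K = 0
  · subst hK
    rw [h.XU_eq_of_zero hge, h'.XU_eq_of_zero hge]
    simp only [wt_eq_zero_iff hdd]
  · have h1 := congrArg (algebraMap K0 Mot) (h.cls_XU hge hU hK)
    have h2 := congrArg (algebraMap K0 Mot) (h'.cls_XU hge (hU.of_iff hdd) hK)
    rw [map_mul, ← LU_val] at h1 h2
    unfold clsM
    have h3 := h1.trans h2.symm
    exact (LU.isUnit.mul_left_inj).1 h3

end YV

end MPb07157
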