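import Pool.Agent.Lib.MP_b07157_agYV.MeaN

/-!
# Periodicity of the measures
-/

noncomputable section

namespace MPb07157

open MvPolynomial

namespace YV

variable {n : ℕ} {G : MvPolynomial (Fin (n + 1)) ℂ} {w : Fin (n + 1) → ℕ} {N : ℕ}

private theorem ser_li (a : ℕ) : li ^ a * (LU : Mot) ^ a = 1 := by
  have h : li * (LU : Mot) = 1 := Units.inv_mul LU
  rw [← mul_pow, h, one_pow]

/-- The dependence of `Sq.aP` on the orders. -/
private theorem ser_core {m : ℕ} {f : MvPolynomial (Fin m) ℂ} {r r' : Fin m → ℕ} {M N' : ℕ}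
    {U : Set (Fin m → ℂ)} (hU : IsConstr U)
    (hx : clsM (Sq.XU f r M U) = clsM (Sq.XU f r' (M + N') U)) (i : ℕ) :
    (LU : Mot) ^ (∑ j, r' j) * Sq.aP f r' (M + N') U (i + N') =
      (LU : Mot) ^ (∑ j, r j) * Sq.aP f r M U i := by
  have h4 := Sq.clsM_YU f r M hU
  have h5 := Sq.clsM_YU f r' (M + N') hU
  rw [← hx, ← h4] at h5
  have h6 : ∀ a : ℕ, (LU : Mot) ^ a * (↑((LU ^ (m + a))⁻¹) : Mot) = ↑((LU ^ m)⁻¹) := by
    intro a
    rw [← Units.val_pow_eq_pow_val, ← Units.val_mul]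
    congr 1
    rw [pow_add, mul_inv, mul_comm (LU ^ m)⁻¹, ← mul_assoc, mul_inv_cancel, one_mul]
  unfold Sq.aP
  rw [← mul_assoc, ← mul_assoc, h6, h6, h5, ← hx]
  congr 1
  rcases lt_trichotomy i M with h7 | h7 | h7
  · rw [if_pos h7, if_pos (by omega)]
  · rw [if_neg (by omega), if_pos (by omega), if_neg (by omega), if_pos h7]
  · rw [if_neg (by omega), if_neg (by omega), if_neg (by omega), if_neg (by omega)]
    congr 2
    omega

private theorem rA_add (H : Rs G w N) (k : ℕ) (j : Fin (n + 1)) :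
    rA w (k + w 0) j = rA w k j + w j := by
  unfold rA
  rw [mul_add, mul_comm (w j) (w 0), Sq.cei_add (H.hw 0)]

private theorem dA_add (H : Rs G w N) (k : ℕ) (j : Fin (n + 1)) :
    dA w (k + w 0) j = dA w k j := by
  unfold dA
  rw [rA_add H, mul_add, mul_add, mul_comm (w j) (w 0)]
  omega

private theorem MA_add (H : Rs G w N) (k : ℕ) : MA w N (k + w 0) = MA w N k + N := by
  unfold MA
  rw [add_mul, Sq.cei_add (H.hw 0)]

private theorem KA_add (H : Rs G w N) (k : ℕ) : KA w N (k + w 0) = KA w N k := by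
  unfold KA
  rw [MA_add H, mul_add, add_mul]
  omega

private theorem sum_rB (w : Fin (n + 1) → ℕ) (k p : ℕ) :
    ∑ j, rB w k p j = k + ∑ j : Fin n, Sq.rP w p j.succ := by
  rw [Fin.sum_univ_succ]
  rfl

private theorem UB_add (H : Rs G w N) (p : ℕ) : UB w (p + Sq.Wt w) = UB w p := by
  unfold UB
  rw [Sq.dP_add H.hw]

/-- As `Sq.AP_add` (`agI/SqP3.lean`): `k ↦ k + w_0` changes `r_j` by `w_j`, `M` by `N`, and does not
change `d_j`, `K`. -/
theorem aA_add (H : Rs G w N) {k : ℕ} (hk : 0 < k) (i : ℕ) :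
    aA G w N (k + w 0) (i + N) = li ^ (w 0 + ∑ j : Fin n, w j.succ) * aA G w N k i := by
  have h1 := numA H hk
  have h2 := numA H (k := k + w 0) (by omega)
  rw [KA_add H] at h2
  have h3 := h1.clsM_XU h2 (fun j => by rw [dA_add H]) H.ge (guA H k)
  rw [MA_add H] at h3
  have h4 := ser_core (guA H k).con h3 i
  have h5 : ∑ j, rA w (k + w 0) j = (w 0 + ∑ j : Fin n, w j.succ) + ∑ j, rA w k j := by
    rw [← Fin.sum_univ_succ w, ← Finset.sum_add_distrib]
    exact Finset.sum_congr rfl fun j _ => by rw [rA_add H, add_comm]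
  rw [h5] at h4
  unfold aA
  rw [MA_add H]
  have h6 := congrArg
    (fun x => li ^ ((w 0 + ∑ j : Fin n, w j.succ) + ∑ j, rA w k j) * x) h4
  rw [← mul_assoc, ser_li, one_mul] at h6
  rw [h6, pow_add li (w 0 + ∑ j : Fin n, w j.succ), mul_assoc, ← mul_assoc (li ^ ∑ j, rA w k j),
    ser_li, one_mul]

theorem aA_lt (H : Rs G w N) (k : ℕ) {i : ℕ} (hi : i < N) : aA G w N (k + w 0) i = 0 := by
  unfold aA Sq.aP
  rw [MA_add H, if_pos (by omega), mul_zero]

/-- The dependence on `k`: only through the factor `L^(-k)`. -/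
theorem aB_eq (H : Rs G w N) {k p : ℕ} (hp : 0 < p) (hkp : w 0 * p < Sq.Wt w * k) (i : ℕ) :
    aB G w N k p i = li ^ k * bB G w N p i := by
  have hW := Sq.Wt_pos H.hw
  have hk0 : w 0 * p < Sq.Wt w * (w 0 * p + 1) := by
    have h0 : 1 * (w 0 * p + 1) ≤ Sq.Wt w * (w 0 * p + 1) := Nat.mul_le_mul_right _ hW
    omega
  have h3 := (numB H hp hk0).clsM_XU (numB H hp hkp) (fun j => by
    refine Fin.cases ?_ (fun j => ?_) j
    · rw [dB_zero, dB_zero]
      omega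
    · rw [dB_succ, dB_succ]) H.ge (guB H hp hk0)
  have h4 := ser_core (N' := 0) (guB H hp hk0).con h3 i
  rw [sum_rB, sum_rB] at h4
  unfold bB aB
  simp only [add_zero] at h4
  have h6 := congrArg (fun x => li ^ (k + ∑ j : Fin n, Sq.rP w p j.succ) * x) h4
  rw [← mul_assoc, ser_li, one_mul] at h6
  rw [h6, pow_add li k, pow_add (LU : Mot) (w 0 * p + 1)]
  have h7 := ser_li (∑ j : Fin n, Sq.rP w p j.succ)
  linear_combination (li ^ k * (LU : Mot) ^ (w 0 * p + 1) *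
    Sq.aP G (rB w (w 0 * p + 1) p) (Sq.MP w N p) (UB w p) i) * h7

/-- `p ↦ p + W` changes `r_j` by `w_j` for `j ≥ 1`, `M` by `N`, and does not change `d_j`, `K`. -/
theorem bB_add (H : Rs G w N) {p : ℕ} (hp : 0 < p) (i : ℕ) :
    bB G w N (p + Sq.Wt w) (i + N) = li ^ (∑ j : Fin n, w j.succ) * bB G w N p i := by
  have hW := Sq.Wt_pos H.hw
  have hk0 : w 0 * p < Sq.Wt w * (w 0 * p + 1) := by
    have h0 : 1 * (w 0 * p + 1) ≤ Sq.Wt w * (w 0 * p + 1) := Nat.mul_le_mul_right _ hW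
    omega
  have hk1 : w 0 * (p + Sq.Wt w) < Sq.Wt w * (w 0 * (p + Sq.Wt w) + 1) := by
    have h0 : 1 * (w 0 * (p + Sq.Wt w) + 1) ≤ Sq.Wt w * (w 0 * (p + Sq.Wt w) + 1) :=
      Nat.mul_le_mul_right _ hW
    omega
  have h2 := numB H (p := p + Sq.Wt w) (by omega) hk1
  rw [Sq.KP_add H.hw] at h2
  have h3 := (numB H hp hk0).clsM_XU h2 (fun j => by
    refine Fin.cases ?_ (fun j => ?_) j
    · rw [dB_zero, dB_zero]
      omega
    · rw [dB_succ, dB_succ, Sq.dP_add H.hw]) H.ge (guB H hp hk0)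
  rw [Sq.MP_add H.hw] at h3
  have h4 := ser_core (guB H hp hk0).con h3 i
  have h5 : ∑ j : Fin n, Sq.rP w (p + Sq.Wt w) j.succ =
      ∑ j : Fin n, w j.succ + ∑ j : Fin n, Sq.rP w p j.succ := by
    rw [← Finset.sum_add_distrib]
    exact Finset.sum_congr rfl fun j _ => by rw [Sq.rP_add H.hw, add_comm]
  rw [sum_rB, sum_rB, h5] at h4
  unfold bB aB
  rw [Sq.MP_add H.hw, UB_add H]
  have h6 := congrArg (fun x => li ^ (∑ j : Fin n, w j.succ +
    ∑ j : Fin n, Sq.rP w p j.succ) * x) h4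
  rw [pow_add (LU : Mot) (w 0 * (p + Sq.Wt w) + 1), pow_add (LU : Mot) (w 0 * p + 1)] at h6
  have h7 := ser_li (∑ j : Fin n, Sq.rP w p j.succ)
  have h8 := ser_li (∑ j : Fin n, w j.succ + ∑ j : Fin n, Sq.rP w p j.succ)
  have h9 := pow_add li (∑ j : Fin n, w j.succ) (∑ j : Fin n, Sq.rP w p j.succ)
  generalize Sq.aP G (rB w (w 0 * (p + Sq.Wt w) + 1) (p + Sq.Wt w)) (Sq.MP w N p + N)
    (UB w p) (i + N) = A at *
  generalize Sq.aP G (rB w (w 0 * p + 1) p) (Sq.MP w N p) (UB w p) i = A' at *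
  generalize li ^ (∑ j : Fin n, w j.succ + ∑ j : Fin n, Sq.rP w p j.succ) = x1 at *
  generalize (LU : Mot) ^ (∑ j : Fin n, w j.succ + ∑ j : Fin n, Sq.rP w p j.succ) = x2 at *
  generalize li ^ (∑ j : Fin n, w j.succ) = x3 at *
  generalize li ^ (∑ j : Fin n, Sq.rP w p j.succ) = x4 at *
  generalize (LU : Mot) ^ (∑ j : Fin n, Sq.rP w p j.succ) = x5 at *
  generalize (LU : Mot) ^ (w 0 * (p + Sq.Wt w) + 1) = x6 at *
  generalize (LU : Mot) ^ (w 0 * p + 1) = x7 at *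
  linear_combination h6 - (x6 * A) * h8 + (x7 * x5 * A') * h9 + (x3 * x7 * A') * h7

theorem bB_lt (H : Rs G w N) (p : ℕ) {i : ℕ} (hi : i < N) : bB G w N (p + Sq.Wt w) i = 0 := by
  unfold bB aB Sq.aP
  rw [Sq.MP_add H.hw, if_pos (by omega), mul_zero, mul_zero]

theorem aA_mem {s₀ : ℚ} (hs : s₀ ≠ -1) (G : MvPolynomial (Fin (n + 1)) ℂ)
    (w : Fin (n + 1) → ℕ) (N k : ℕ) : PowerSeries.mk (aA G w N k) ∈ regularAt s₀ :=
  Sq.mk_aP_mem hs _ _ _ _

theorem bB_mem {s₀ : ℚ} (hs : s₀ ≠ -1) (G : MvPolynomial (Fin (n + 1)) ℂ)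
    (w : Fin (n + 1) → ℕ) (N p : ℕ) : PowerSeries.mk (bB G w N p) ∈ regularAt s₀ := by
  have h : PowerSeries.mk (bB G w N p) = PowerSeries.C ((LU : Mot) ^ (w 0 * p + 1)) *
      PowerSeries.mk (aB G w N (w 0 * p + 1) p) := by
    ext m
    rw [PowerSeries.coeff_C_mul, PowerSeries.coeff_mk, PowerSeries.coeff_mk]
    rfl
  rw [h]
  exact mul_mem (C_mem_regularAt s₀ _) (Sq.mk_aP_mem hs _ _ _ _)

end YV

end MPb07157
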