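import Pool.Agent.Lib.MP_b07157_ag.NewtDefs
import Pool.Agent.Lib.MP_b07157_agM.CDefs

/-!
# Top parts
-/

noncomputable section

namespace MPb07157

open MvPolynomial

namespace YV

variable {n : ℕ}

/-- The part of the vector field `e` of weight `b`: the components of `e_i` of weight
`b - (N - w_i)`. -/
def topE (w : Fin n → ℕ) (N b : ℕ) (e : Fin n → MvPolynomial (Fin n) ℂ) (i : Fin n) :
    MvPolynomial (Fin n) ℂ :=
  ∑ v ∈ (e i).support.filter fun v => MPb07157.wt w v + (N - w i) = b, monomial v (coeff v (e i))

theorem topv_weight (w : Fin n → ℕ) (v : Fin n →₀ ℕ) :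
    Finsupp.weight w v = MPb07157.wt w v := by
  unfold MPb07157.wt
  rw [Finsupp.weight_apply, Finsupp.sum_fintype _ _ fun _ => by simp]
  exact Finset.sum_congr rfl fun i _ => by rw [smul_eq_mul, mul_comm]

/-- The weight of a term of `x^u ∂_i x^v`. -/
theorem topv_wt {w : Fin n → ℕ} {u v : Fin n →₀ ℕ} {i : Fin n} (hv : v i ≠ 0) :
    MPb07157.wt w (u + (v - Finsupp.single i 1)) + w i = MPb07157.wt w u + MPb07157.wt w v := by
  have h1 : v - Finsupp.single i 1 + Finsupp.single i 1 = v := by
    refine tsub_add_cancel_of_le ?_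
    rw [Finsupp.single_le_iff]
    omega
  have h2 : Finsupp.weight w (u + (v - Finsupp.single i 1)) + w i =
      Finsupp.weight w u + Finsupp.weight w v := by
    conv_rhs => rw [← h1]
    rw [map_add, map_add, Finsupp.weight_single, one_smul, add_assoc]
  rwa [topv_weight, topv_weight, topv_weight] at h2

theorem topv_mono (w : Fin n → ℕ) (b : ℕ) (u v : Fin n →₀ ℕ) (i : Fin n) (a c : ℂ) :
    weightedHomogeneousComponent w b (monomial u a * pderiv i (monomial v c)) =
      if MPb07157.wt w u + MPb07157.wt w v = b + w i then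
        monomial u a * pderiv i (monomial v c) else 0 := by
  rw [pderiv_monomial, monomial_mul]
  by_cases hv : v i = 0
  · rw [hv, Nat.cast_zero, mul_zero, mul_zero, monomial_zero, map_zero, ite_self]
  · have h1 := topv_wt (w := w) (u := u) hv
    have h2 : IsWeightedHomogeneous w (monomial (u + (v - Finsupp.single i 1)) (a * (c * v i)))
        (MPb07157.wt w (u + (v - Finsupp.single i 1))) :=
      isWeightedHomogeneous_monomial w _ _ (topv_weight w _)
    by_cases h3 : MPb07157.wt w u + MPb07157.wt w v = b + w i
    · rw [if_pos h3]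
      have h4 : MPb07157.wt w (u + (v - Finsupp.single i 1)) = b := by omega
      rw [h4] at h2
      exact h2.weightedHomogeneousComponent_same
    · rw [if_neg h3]
      exact h2.weightedHomogeneousComponent_ne b (by omega)

theorem topv_sum {w : Fin n → ℕ} {b N : ℕ} {i : Fin n} (hi : w i < N)
    {p q : MvPolynomial (Fin n) ℂ} (hp : ∀ u ∈ p.support, MPb07157.wt w u ≤ N)
    (hq : ∀ v ∈ q.support, MPb07157.wt w v + (N - w i) ≤ b) :
    weightedHomogeneousComponent w b (p * pderiv i q) = weightedHomogeneousComponent w N p *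
        pderiv i (∑ v ∈ q.support.filter fun v => MPb07157.wt w v + (N - w i) = b,
          monomial v (coeff v q)) ∧
    weightedHomogeneousComponent w b (q * pderiv i p) =
      (∑ v ∈ q.support.filter fun v => MPb07157.wt w v + (N - w i) = b,
          monomial v (coeff v q)) * pderiv i (weightedHomogeneousComponent w N p) := by
  classical
  have hP : weightedHomogeneousComponent w N p =
      ∑ u ∈ p.support, if MPb07157.wt w u = N then monomial u (coeff u p) else 0 := by
    conv_lhs => rw [p.as_sum, map_sum]
    refine Finset.sum_congr rfl fun u _ => ?_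
    have h2 : IsWeightedHomogeneous w (monomial u (coeff u p)) (MPb07157.wt w u) :=
      isWeightedHomogeneous_monomial w _ _ (topv_weight w _)
    by_cases h : MPb07157.wt w u = N
    · rw [if_pos h]
      rw [h] at h2
      exact h2.weightedHomogeneousComponent_same
    · rw [if_neg h]
      exact h2.weightedHomogeneousComponent_ne N (fun h' => h h'.symm)
  have key : ∀ u ∈ p.support, ∀ v ∈ q.support,
      (MPb07157.wt w u + MPb07157.wt w v = b + w i ↔
        MPb07157.wt w u = N ∧ MPb07157.wt w v + (N - w i) = b) := by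
    intro u hu v hv
    have h1 := hp u hu
    have h2 := hq v hv
    omega
  rw [hP, Finset.sum_filter]
  constructor
  · have e1 : p * pderiv i q = ∑ u ∈ p.support, ∑ v ∈ q.support,
        monomial u (coeff u p) * pderiv i (monomial v (coeff v q)) := by
      conv_lhs => rw [p.as_sum, q.as_sum, map_sum, Finset.sum_mul_sum]
    rw [e1, map_sum, map_sum, Finset.sum_mul_sum]
    refine Finset.sum_congr rfl fun u hu => ?_
    rw [map_sum]
    refine Finset.sum_congr rfl fun v hv => ?_
    rw [topv_mono, if_congr (key u hu v hv) rfl rfl]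
    by_cases h1 : MPb07157.wt w u = N
    · by_cases h2 : MPb07157.wt w v + (N - w i) = b
      · rw [if_pos ⟨h1, h2⟩, if_pos h1, if_pos h2]
      · rw [if_neg (fun h => h2 h.2), if_neg h2, map_zero, mul_zero]
    · rw [if_neg (fun h => h1 h.1), if_neg h1, zero_mul]
  · have e1 : q * pderiv i p = ∑ v ∈ q.support, ∑ u ∈ p.support,
        monomial v (coeff v q) * pderiv i (monomial u (coeff u p)) := by
      conv_lhs => rw [p.as_sum, q.as_sum, map_sum, Finset.sum_mul_sum]
    rw [e1, map_sum, map_sum, Finset.sum_mul_sum]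
    refine Finset.sum_congr rfl fun v hv => ?_
    rw [map_sum]
    refine Finset.sum_congr rfl fun u hu => ?_
    rw [topv_mono, add_comm (MPb07157.wt w v), if_congr (key u hu v hv) rfl rfl]
    by_cases h1 : MPb07157.wt w u = N
    · by_cases h2 : MPb07157.wt w v + (N - w i) = b
      · rw [if_pos ⟨h1, h2⟩, if_pos h1, if_pos h2]
      · rw [if_neg (fun h => h2 h.2), if_neg h2, zero_mul]
    · rw [if_neg (fun h => h1 h.1), if_neg h1, map_zero, mul_zero]

/-- The part of weight `b > 0` of the equation `g div e + (s + 1) e · ∂g = 1`, `H` the part of weight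
`N` of `g`. -/
theorem top_eq {g : MvPolynomial (Fin n) ℂ} {w : Fin n → ℕ} {N : ℕ} (hw : ∀ i, 0 < w i)
    (hwN : ∀ i, w i < N) (hle : ∀ v ∈ g.support, MPb07157.wt w v ≤ N) {s : ℂ}
    {e : Fin n → MvPolynomial (Fin n) ℂ} {b : ℕ} (hb : 0 < b)
    (he : ∀ i, ∀ v ∈ (e i).support, MPb07157.wt w v + (N - w i) ≤ b)
    (heq : g * ∑ i, pderiv i (e i) + C (s + 1) * ∑ i, e i * pderiv i g = 1) :
    weightedHomogeneousComponent w N g * ∑ i, pderiv i (topE w N b e i) +
      C (s + 1) * ∑ i, topE w N b e i * pderiv i (weightedHomogeneousComponent w N g) = 0 := by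
  have h1 : weightedHomogeneousComponent w b (1 : MvPolynomial (Fin n) ℂ) = 0 :=
    (isWeightedHomogeneous_one ℂ w).weightedHomogeneousComponent_ne b hb.ne'
  have h2 := congrArg (weightedHomogeneousComponent w b) heq
  rw [h1] at h2
  have e1 : weightedHomogeneousComponent w b (g * ∑ i, pderiv i (e i)) =
      weightedHomogeneousComponent w N g * ∑ i, pderiv i (topE w N b e i) := by
    rw [Finset.mul_sum, Finset.mul_sum, map_sum]
    refine Finset.sum_congr rfl fun i _ => ?_
    exact (topv_sum (hwN i) hle (he i)).1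
  have e2 : weightedHomogeneousComponent w b (∑ i, e i * pderiv i g) =
      ∑ i, topE w N b e i * pderiv i (weightedHomogeneousComponent w N g) := by
    rw [map_sum]
    refine Finset.sum_congr rfl fun i _ => ?_
    exact (topv_sum (hwN i) hle (he i)).2
  have e3 : weightedHomogeneousComponent w b (C (s + 1) * ∑ i, e i * pderiv i g) =
      C (s + 1) * weightedHomogeneousComponent w b (∑ i, e i * pderiv i g) :=
    weightedHomogeneousComponent_C_mul _ _ _
  rw [← e1, ← e2, ← e3, ← map_add]
  exact h2

end YV

end MPb07157
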